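import Pool.Agent.Helper20.Pfx.Def
import Pool.Agent.Helper20.OP.Defs

/-!
# Prefix-vocabulary classes: definitions

Sentences in prenex form with a given word of quantifiers, in vocabularies with given function symbols and
arbitrarily many relation symbols (of any arity, or of arity at most one).
-/

set_option autoImplicit false

namespace Pool.Agent.Helper20.PV

open FirstOrder FirstOrder.Language Pool.Agent.Helper20.Spectra Pool.Agent.Helper20.OP

/-- the vocabulary with the function symbols `i : Fin k`, the symbol `i` having arity `ar i` (arity `0`: a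
constant symbol), and with the relation symbols `Rel l` of arity `l` -/
def voc {k : ℕ} (ar : Fin k → ℕ) (Rel : ℕ → Type) : FirstOrder.Language.{0, 0} :=
  ⟨fun n => {i : Fin k // ar i = n}, Rel⟩

/-- `A` is the spectrum of a sentence `Q₀ x₀ … Q_{r-1} x_{r-1} ψ` with `Q_i = ∀` if `q i` is true and
`Q_i = ∃` if `q i` is false, with `ψ` quantifier-free (equality is allowed), whose vocabulary has the function
symbols of arities `ar 0, …, ar (k - 1)` and finitely many relation symbols; if `mon` is true, the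
relation symbols have arity at most one. -/
def VocSpectrum (q : ℕ → Bool) (r : ℕ) {k : ℕ} (ar : Fin k → ℕ) (mon : Bool) (A : Set ℕ) : Prop :=
  ∃ (Rel : ℕ → Type) (_ : Finite (Σ l, Rel l)) (_ : mon = true → ∀ l, 2 ≤ l → IsEmpty (Rel l))
    (ψ : (voc ar Rel).BoundedFormula Empty r), ψ.IsQF ∧ A = spec (quantify q r ψ)

/-- `∀` occurs in the prefix -/
def HasA (q : ℕ → Bool) (r : ℕ) : Prop := ∃ i, i < r ∧ q i = true

/-- `∀∀` is a scattered subword of the prefix -/
def HasAA (q : ℕ → Bool) (r : ℕ) : Prop := ∃ i j, i < j ∧ j < r ∧ q i = true ∧ q j = true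

/-- `∃∀` is a scattered subword of the prefix -/
def HasEA (q : ℕ → Bool) (r : ℕ) : Prop := ∃ i j, i < j ∧ j < r ∧ q i = false ∧ q j = true

/-- `∀∀∃` or `∀∃∀` is a scattered subword of the prefix -/
def HasAAE (q : ℕ → Bool) (r : ℕ) : Prop := ∃ i j k, i < j ∧ j < k ∧ k < r ∧ q i = true ∧ q j ≠ q k

/-- there is a function symbol of arity at least two, or there are two function symbols of arity at
least one -/
def Big {k : ℕ} (ar : Fin k → ℕ) : Prop :=
  (∃ i, 2 ≤ ar i) ∨ ∃ i j, i ≠ j ∧ 1 ≤ ar i ∧ 1 ≤ ar j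

/-- the wild prefix-vocabulary classes -/
def WildClass (q : ℕ → Bool) (r : ℕ) {k : ℕ} (ar : Fin k → ℕ) (mon : Bool) : Prop :=
  (mon = false ∧ HasAAE q r) ∨
  (mon = false ∧ HasAA q r ∧ ∃ i, 1 ≤ ar i) ∨
  (Big ar ∧ (HasAA q r ∨ (HasA q r ∧ (HasEA q r ∨ ∃ i, ar i = 0))))

end Pool.Agent.Helper20.PV
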