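import Pool.Agent.Helper20.PV.Defs
import Pool.Agent.Helper29.Prefix.QF
import Pool.Agent.Helper20.Pfx.Final

/-!
# Tools: quantifier-free conditions with function symbols, dummy quantifiers, universal classes
-/

set_option autoImplicit false

namespace Pool.Agent.Helper20.PV

open FirstOrder FirstOrder.Language Pool.Agent.Helper20.Spectra Pool.Agent.Helper20.OP
  Pool.Agent.Helper29.Prefix

section Tools

variable {L : FirstOrder.Language.{0, 0}} {n : ℕ}

/-- `t` is given by a term -/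
def Tm (L : FirstOrder.Language.{0, 0}) (n : ℕ)
    (t : (M : Type) → L.Structure M → (Fin n → M) → M) : Prop :=
  ∃ τ : L.Term (Empty ⊕ Fin n), ∀ (M : Type) (S : L.Structure M) (v : Fin n → M),
    τ.realize (Sum.elim default v) = t M S v

lemma Tm.var (i : Fin n) : Tm L n (fun _ _ v => v i) :=
  ⟨Term.var (Sum.inr i), fun M S v => rfl⟩

lemma Tm.func {l : ℕ} (f : L.Functions l)
    {t : Fin l → (M : Type) → L.Structure M → (Fin n → M) → M} (h : ∀ j, Tm L n (t j)) :
    Tm L n (fun M S v => S.funMap f (fun j => t j M S v)) := by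
  choose τ hτ using h
  refine ⟨Term.func f τ, fun M S v => ?_⟩
  rw [Term.realize_func]
  congr 1
  funext j
  exact hτ j M S v

lemma Tm.congr {t t' : (M : Type) → L.Structure M → (Fin n → M) → M} (h : Tm L n t)
    (he : ∀ M S v, t M S v = t' M S v) : Tm L n t' := by
  obtain ⟨τ, hτ⟩ := h
  exact ⟨τ, fun M S v => (hτ M S v).trans (he M S v)⟩

lemma Ex.eq {t t' : (M : Type) → L.Structure M → (Fin n → M) → M} (h : Tm L n t)
    (h' : Tm L n t') : Ex L n (fun M S v => t M S v = t' M S v) := by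
  obtain ⟨τ, hτ⟩ := h
  obtain ⟨τ', hτ'⟩ := h'
  refine ⟨τ.bdEqual τ', (BoundedFormula.IsAtomic.equal _ _).isQF, fun M S v => ?_⟩
  rw [BoundedFormula.realize_bdEqual, hτ, hτ']

lemma Ex.rel {l : ℕ} (R : L.Relations l)
    {t : Fin l → (M : Type) → L.Structure M → (Fin n → M) → M} (h : ∀ j, Tm L n (t j)) :
    Ex L n (fun M S v => S.RelMap R (fun j => t j M S v)) := by
  choose τ hτ using h
  refine ⟨R.boundedFormula τ, (BoundedFormula.IsAtomic.rel _ _).isQF, fun M S v => ?_⟩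
  rw [BoundedFormula.realize_rel]
  refine Iff.of_eq (congrArg _ ?_)
  funext j
  exact hτ j M S v

lemma Ex.or {P Q : (M : Type) → L.Structure M → (Fin n → M) → Prop} (hP : Ex L n P)
    (hQ : Ex L n Q) : Ex L n (fun M S v => P M S v ∨ Q M S v) :=
  ((hP.not.and hQ.not).not).congr (fun M S v => by tauto)

lemma Ex.iff {P Q : (M : Type) → L.Structure M → (Fin n → M) → Prop} (hP : Ex L n P)
    (hQ : Ex L n Q) : Ex L n (fun M S v => (P M S v ↔ Q M S v)) :=
  ((hP.imp hQ).and (hQ.imp hP)).congr (fun M S v => by tauto)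

lemma Ex.all_fin {γ : Type} [Finite γ] {P : γ → (M : Type) → L.Structure M → (Fin n → M) → Prop}
    (h : ∀ c, Ex L n (P c)) : Ex L n (fun M S v => ∀ c, P c M S v) := by
  have := Fintype.ofFinite γ
  exact (Ex.ball Finset.univ h).congr (fun M S v => by simp)

lemma Ex.ex_fin {γ : Type} [Finite γ] {P : γ → (M : Type) → L.Structure M → (Fin n → M) → Prop}
    (h : ∀ c, Ex L n (P c)) : Ex L n (fun M S v => ∃ c, P c M S v) := by
  have := Fintype.ofFinite γ
  exact (Ex.bex Finset.univ h).congr (fun M S v => by simp)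

/-- renaming of the variables in a quantifier-free formula -/
lemma Ex.ren {n' : ℕ} {P : (M : Type) → L.Structure M → (Fin n → M) → Prop} (h : Ex L n P)
    (e : Fin n → Fin n') : Ex L n' (fun M S v => P M S (fun i => v (e i))) := by
  obtain ⟨ψ, hψ, h⟩ := h
  suffices hs : Ex L n' (fun M S v => @BoundedFormula.Realize L M S _ _ ψ default
      (fun i => v (e i))) from hs.congr (fun M S v => h M S _)
  clear h
  have hterm : ∀ t : L.Term (Empty ⊕ Fin n), Tm L n' (fun M S v =>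
      @Term.realize L M S _ (Sum.elim default (fun i => v (e i))) t) := by
    intro t
    refine ⟨t.relabel (Sum.map id e), fun M S v => ?_⟩
    rw [Term.realize_relabel]
    congr 1
    funext a
    rcases a with a | i
    · exact a.elim
    · rfl
  induction hψ with
  | falsum => exact Ex.false.congr (fun M S v => Iff.rfl)
  | of_isAtomic hA =>
    cases hA with
    | equal t₁ t₂ =>
      exact (Ex.eq (hterm t₁) (hterm t₂)).congr (fun M S v => by
        rw [BoundedFormula.realize_bdEqual])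
    | rel ρ ts =>
      exact (Ex.rel ρ (fun j => hterm (ts j))).congr (fun M S v => by
        rw [BoundedFormula.realize_rel])
  | imp _ _ ih₁ ih₂ =>
    exact (ih₁.imp ih₂).congr (fun M S v => by rw [BoundedFormula.realize_imp])

end Tools

section Voc

variable {k : ℕ} {ar : Fin k → ℕ} {Rel : ℕ → Type} {n : ℕ}

/-- the value of the function symbol `i` -/
def fn {M : Type} (S : (voc ar Rel).Structure M) (i : Fin k) (a : Fin (ar i) → M) : M :=
  S.funMap (n := ar i) (⟨i, rfl⟩ : {j : Fin k // ar j = ar i}) a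

/-- the relation symbol `ρ` -/
def rl {M : Type} (S : (voc ar Rel).Structure M) {l : ℕ} (ρ : Rel l) (a : Fin l → M) : Prop :=
  S.RelMap (n := l) ρ a

/-- the structure given by functions and relations -/
@[instance_reducible] def mkV {M : Type} (F : ∀ i, (Fin (ar i) → M) → M)
    (R : ∀ l, Rel l → (Fin l → M) → Prop) : (voc ar Rel).Structure M where
  funMap := fun {l} f a => F f.1 (fun j => a (Fin.cast f.2 j))
  RelMap := fun {l} ρ a => R l ρ a

lemma fn_mkV {M : Type} (F : ∀ i, (Fin (ar i) → M) → M)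
    (R : ∀ l, Rel l → (Fin l → M) → Prop) (i : Fin k) (a : Fin (ar i) → M) :
    fn (mkV F R) i a = F i a := rfl

lemma rl_mkV {M : Type} (F : ∀ i, (Fin (ar i) → M) → M)
    (R : ∀ l, Rel l → (Fin l → M) → Prop) {l : ℕ} (ρ : Rel l) (a : Fin l → M) :
    rl (mkV F R) ρ a ↔ R l ρ a := Iff.rfl

lemma Tm.fn (i : Fin k) {t : Fin (ar i) → (M : Type) → (voc ar Rel).Structure M → (Fin n → M) → M}
    (h : ∀ j, Tm (voc ar Rel) n (t j)) :
    Tm (voc ar Rel) n (fun M S v => fn S i (fun j => t j M S v)) :=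
  Tm.func (L := voc ar Rel) (l := ar i) (⟨i, rfl⟩ : {j : Fin k // ar j = ar i}) h

lemma Ex.rl {l : ℕ} (ρ : Rel l) {t : Fin l → (M : Type) → (voc ar Rel).Structure M → (Fin n → M) → M}
    (h : ∀ j, Tm (voc ar Rel) n (t j)) :
    Ex (voc ar Rel) n (fun M S v => rl S ρ (fun j => t j M S v)) :=
  Ex.rel (L := voc ar Rel) (l := l) ρ h

/-- semantic description of the spectra of a prefix-vocabulary class -/
lemma vocSpectrum_of_ex {mon : Bool} [hR : Finite (Σ l, Rel l)]
    (hmon : mon = true → ∀ l, 2 ≤ l → IsEmpty (Rel l))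
    {P : (M : Type) → (voc ar Rel).Structure M → (Fin n → M) → Prop}
    (h : Ex (voc ar Rel) n P) (q : ℕ → Bool) :
    VocSpectrum q n ar mon {N : ℕ | 1 ≤ N ∧ ∃ (M : Type) (_ : Fintype M)
      (S : (voc ar Rel).Structure M), Fintype.card M = N ∧ preQ q n (P M S)} := by
  obtain ⟨ψ, hψ, h⟩ := h
  refine ⟨Rel, hR, hmon, ψ, hψ, ?_⟩
  ext N
  constructor
  · rintro ⟨hn, M, hf, S, hc, hP⟩
    refine ⟨hn, M, S, hf, hc, ?_⟩
    exact (realize_quantify q n ψ).2 ((preQ_congr q (fun v => h M S v)).2 hP)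
  · rintro ⟨hn, M, S, hf, hc, hr⟩
    refine ⟨hn, M, hf, S, hc, ?_⟩
    exact (preQ_congr q (fun v => h M S v)).1 ((realize_quantify q n ψ).1 hr)

/-- every spectrum of the class has this form -/
lemma VocSpectrum.exists_ex {mon : Bool} {q : ℕ → Bool} {A : Set ℕ}
    (hA : VocSpectrum q n ar mon A) :
    ∃ (Rel : ℕ → Type) (_ : Finite (Σ l, Rel l)) (_ : mon = true → ∀ l, 2 ≤ l → IsEmpty (Rel l))
      (P : (M : Type) → (voc ar Rel).Structure M → (Fin n → M) → Prop), Ex (voc ar Rel) n P ∧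
      A = {N : ℕ | 1 ≤ N ∧ ∃ (M : Type) (_ : Fintype M)
        (S : (voc ar Rel).Structure M), Fintype.card M = N ∧ preQ q n (P M S)} := by
  obtain ⟨Rel, hR, hmon, ψ, hψ, rfl⟩ := hA
  refine ⟨Rel, hR, hmon, fun M S v => @BoundedFormula.Realize _ M S _ _ ψ default v,
    ⟨ψ, hψ, fun M S v => Iff.rfl⟩, ?_⟩
  ext N
  constructor
  · rintro ⟨hn, M, S, hf, hc, hr⟩
    exact ⟨hn, M, hf, S, hc, (realize_quantify q n ψ).1 hr⟩
  · rintro ⟨hn, M, hf, S, hc, hP⟩
    exact ⟨hn, M, S, hf, hc, (realize_quantify q n ψ).2 hP⟩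

lemma finite_functions (ar : Fin k → ℕ) (Rel : ℕ → Type) :
    Finite (Σ l, (voc ar Rel).Functions l) := by
  refine Finite.of_injective (β := Fin k) (fun x : Σ l, {i : Fin k // ar i = l} => x.2.1) ?_
  rintro ⟨l, i, rfl⟩ ⟨l', i', rfl⟩ h
  simp only at h
  subst h
  rfl

lemma VocSpectrum.isSpectrum {q : ℕ → Bool} {r : ℕ} {mon : Bool} {A : Set ℕ}
    (hA : VocSpectrum q r ar mon A) : IsSpectrum A := by
  obtain ⟨Rel, hR, _, ψ, _, rfl⟩ := hA
  exact ⟨voc ar Rel, finite_functions ar Rel, hR, _, rfl⟩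

/-- dummy quantifiers -/
lemma VocSpectrum.sub {w q : ℕ → Bool} {s r : ℕ} {mon : Bool} {A : Set ℕ}
    (hA : VocSpectrum w s ar mon A) (e : Fin s → Fin r) (he : StrictMono e)
    (hq : ∀ i : Fin s, w i = q (e i)) : VocSpectrum q r ar mon A := by
  obtain ⟨Rel, hR, hmon, P, hP, rfl⟩ := hA.exists_ex
  have h1 := vocSpectrum_of_ex (mon := mon) hmon (Ex.ren hP e) q
  convert h1 using 1
  ext N
  refine and_congr_right (fun hN => exists_congr (fun M => exists_congr (fun hf =>
    exists_congr (fun S => and_congr_right (fun hc => ?_)))))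
  have : Nonempty M := by
    rw [← Fintype.card_pos_iff]
    omega
  exact (preQ_sub q w r e he hq (P M S)).symm

end Voc

/-- the class `C` contains codings of all square tilings -/
def Univ (C : Set ℕ → Prop) : Prop :=
  ∀ Θ : Finset (ℕ × ℕ × ℕ × ℕ), ∃ (p : Polynomial ℕ) (A : Set ℕ),
    C A ∧ ∀ N, 1 ≤ N → (N ∈ squareSizes Θ ↔ p.eval N ∈ A)

theorem wild_of_univ {C : Set ℕ → Prop} (hC : Univ C) (hs : ∀ A, C A → IsSpectrum A) :
    (∃ U : Set ℕ, C U ∧ ∀ A : Set ℕ, IsSpectrum A ↔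
      ∃ h : Polynomial ℕ, A = {n : ℕ | 1 ≤ n ∧ h.eval n ∈ U}) ∧
    ((∀ A : Set ℕ, C A → IsRudimentary A) ↔
      ∀ A : Set ℕ, IsSpectrum A ↔ (IsRudimentary A ∧ 0 ∉ A)) := by
  obtain ⟨Θ₀, hΘ₀⟩ := exists_universal_pos
  obtain ⟨p, U, hU, hp⟩ := hC Θ₀
  constructor
  · refine ⟨U, hU, fun A => ⟨fun hA => ?_, ?_⟩⟩
    · obtain ⟨g, hg1, hg⟩ := hΘ₀ A hA
      refine ⟨p.comp g, ?_⟩
      rw [hg]
      ext n
      simp only [Set.mem_ofPred_eq, Polynomial.eval_comp]
      exact and_congr_right (fun _ => hp _ (hg1 n))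
    · rintro ⟨h, rfl⟩
      exact (hs U hU).preimage h
  · constructor
    · intro h A
      refine ⟨fun hA => ⟨?_, hA.zero_notMem⟩, fun hA => hA.1.isSpectrum hA.2⟩
      obtain ⟨g, hg1, hg⟩ := hΘ₀ A hA
      have h2 := ((h U hU).preimage p).preimage g
      rw [hg]
      convert h2 using 1
      ext n
      simp only [Set.mem_ofPred_eq]
      constructor
      · rintro ⟨hn, hm⟩
        exact ⟨hn, hg1 n, (hp _ (hg1 n)).1 hm⟩
      · rintro ⟨hn, h1, hm⟩
        exact ⟨hn, (hp _ h1).2 hm⟩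
    · intro h A hA
      exact ((h A).1 (hs A hA)).1

end Pool.Agent.Helper20.PV
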