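import Pool.Agent.Helper20.PV.Ex

/-!
# Block T12: normal forms of `preQ`, existential sentences, disjoint unions

`t1`: model `M` of the matrix, `m ≥ |M|`: on `M ⊕ Fin (m - n)` the functions are as in `M` on the tuples from `M`, constant on
all other tuples; the relations are as in `M` on the tuples from `M`, false on the other ones. `M` embeds.
`t2`: on `M ⊕ M'` the functions and relations are as in `M` and `M'` on the tuples from one side. If all the function
symbols have arity `≥ 1` and the relation symbols of arity `0` have the same values in `M` and `M'`, both sides embed. So the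
spectrum is a finite union of sets closed under addition. (With a relation symbol of arity `0` it need not be closed
under addition itself: `∀ x ((ρ ∧ f f x = x ∧ f x ≠ x) ∨ (¬ ρ ∧ f f f x = x ∧ f x ≠ x))` has the spectrum `2 ℕ ∪ 3 ℕ`.)
-/

set_option autoImplicit false

namespace Pool.Agent.Helper20.PV

open FirstOrder FirstOrder.Language Pool.Agent.Helper20.Spectra Pool.Agent.Helper20.OP
  Pool.Agent.Helper29.Prefix

theorem preQ_ex {M : Type} {q : ℕ → Bool} {r : ℕ} (h : ¬ HasA q r) (P : (Fin r → M) → Prop) :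
    preQ q r P ↔ ∃ v, P v := by
  refine preQ_ex0 r (fun i hi => ?_) P
  by_contra hne
  exact h ⟨i, hi, by simpa using hne⟩

/-- exactly one universal quantifier, at the place `c` -/
theorem preQ_one {M : Type} [Nonempty M] {q : ℕ → Bool} {r : ℕ} (c : Fin r) (hc : q c = true)
    (h : ∀ i, i < r → i ≠ c.1 → q i = false) (P : (Fin r → M) → Prop) :
    preQ q r P ↔ ∃ z : Fin r → M, ∀ x, ∃ v : Fin r → M, (∀ i, i < c → v i = z i) ∧ v c = x ∧ P v := by
  obtain ⟨c, hcr⟩ := c
  obtain ⟨b, rfl⟩ := Nat.exists_eq_add_of_le (show c + 1 ≤ r from hcr)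
  rw [preQ_exB b (fun i hi hi' => h i (by omega) (by simp only; omega))]
  have hq : q c = true := hc
  show preQ q c (fun v => if q c = true then (∀ x : M, ∃ w : Fin (c + 1 + b) → M,
    Ext (Fin.snoc v x : Fin (c + 1) → M) w ∧ P w) else _) ↔ _
  rw [preQ_ex0 c (fun i hi => h i (by omega) (by simp only; omega))]
  simp only [hq, if_true]
  have hlt : ∀ {i : ℕ}, i < c → i < c + 1 + b := fun hi => by omega
  have hE : ∀ (v0 : Fin c → M) (x : M) (w : Fin (c + 1 + b) → M),
      Ext (Fin.snoc v0 x : Fin (c + 1) → M) w ↔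
        (∀ i : Fin c, w ⟨i, hlt i.2⟩ = v0 i) ∧ w ⟨c, hcr⟩ = x := by
    intro v0 x w
    constructor
    · intro hw
      refine ⟨fun i => ?_, ?_⟩
      · have := hw i.castSucc
        rw [Fin.snoc_castSucc] at this
        exact this
      · have := hw (Fin.last c)
        rw [Fin.snoc_last] at this
        exact this
    · rintro ⟨h1, h2⟩ i
      refine Fin.lastCases ?_ (fun j => ?_) i
      · rw [Fin.snoc_last]
        exact h2
      · rw [Fin.snoc_castSucc]
        exact h1 j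
  constructor
  · rintro ⟨v0, h0⟩
    obtain ⟨x0⟩ := ‹Nonempty M›
    refine ⟨fun i => if hi : (i : ℕ) < c then v0 ⟨i, hi⟩ else x0, fun x => ?_⟩
    obtain ⟨w, hw, hP⟩ := h0 x
    rw [hE] at hw
    refine ⟨w, fun i hi => ?_, hw.2, hP⟩
    have hi' : (i : ℕ) < c := hi
    simp only [dif_pos hi']
    exact hw.1 ⟨i, hi'⟩
  · rintro ⟨z, hz⟩
    refine ⟨fun i => z ⟨i, hlt i.2⟩, fun x => ?_⟩
    obtain ⟨v, h1, h2, h3⟩ := hz x
    refine ⟨v, (hE _ _ _).2 ⟨fun i => ?_, h2⟩, h3⟩
    exact h1 _ i.2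

section Embed

variable {L : FirstOrder.Language.{0, 0}} {n : ℕ}

/-- quantifier-free conditions are preserved by embeddings -/
theorem ex_embed {P : (M : Type) → L.Structure M → (Fin n → M) → Prop} (hP : Ex L n P)
    {M N : Type} (S : L.Structure M) (T : L.Structure N) (f : M → N) (hf : Function.Injective f)
    (hfun : ∀ (l : ℕ) (g : L.Functions l) (u : Fin l → M), f (S.funMap g u) = T.funMap g (f ∘ u))
    (hrel : ∀ (l : ℕ) (ρ : L.Relations l) (u : Fin l → M), T.RelMap ρ (f ∘ u) ↔ S.RelMap ρ u)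
    (w : Fin n → M) : P N T (f ∘ w) ↔ P M S w := by
  obtain ⟨θ, hθ, h⟩ := hP
  rw [← h N T, ← h M S]
  let E : M ↪[L] N :=
    { toFun := f
      inj' := hf
      map_fun' := fun {l} g u => hfun l g u
      map_rel' := fun {l} ρ u => hrel l ρ u }
  have h1 := hθ.realize_embedding E (v := (default : Empty → M)) (xs := w)
  have e : (⇑E ∘ (default : Empty → M)) = (default : Empty → N) := Subsingleton.elim _ _
  rw [e] at h1
  exact h1

end Embed

section Voc

variable {k : ℕ} {ar : Fin k → ℕ} {Rel : ℕ → Type} {n : ℕ}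

/-- the same in the vocabularies `voc` -/
theorem ex_embed_voc {P : (M : Type) → (voc ar Rel).Structure M → (Fin n → M) → Prop}
    (hP : Ex (voc ar Rel) n P) {M N : Type} (S : (voc ar Rel).Structure M)
    (F : ∀ i, (Fin (ar i) → N) → N) (R : ∀ l, Rel l → (Fin l → N) → Prop)
    (f : M → N) (hf : Function.Injective f)
    (hfun : ∀ (i : Fin k) (u : Fin (ar i) → M), F i (f ∘ u) = f (fn S i u))
    (hrel : ∀ (l : ℕ) (ρ : Rel l) (u : Fin l → M), R l ρ (f ∘ u) ↔ rl S ρ u)
    (w : Fin n → M) : P N (mkV F R) (f ∘ w) ↔ P M S w := by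
  refine ex_embed hP S (mkV F R) f hf ?_ ?_ w
  · rintro l ⟨i, rfl⟩ u
    exact (hfun i u).symm
  · intro l ρ u
    exact hrel l ρ u

end Voc

theorem t1 {q : ℕ → Bool} {r k : ℕ} {ar : Fin k → ℕ} {mon : Bool} {A : Set ℕ}
    (hA : VocSpectrum q r ar mon A) (hq : ¬ HasA q r) : ∀ n m, n ∈ A → n ≤ m → m ∈ A := by
  classical
  obtain ⟨Rel, hR, hmon, P, hP, rfl⟩ := hA.exists_ex
  rintro n m ⟨hn, M, hM, S, hcard, hpre⟩ hnm
  rw [preQ_ex hq] at hpre
  obtain ⟨v, hv⟩ := hpre
  have hne : Nonempty M := by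
    rw [← Fintype.card_pos_iff]
    omega
  obtain ⟨x0⟩ := hne
  let f : M → M ⊕ Fin (m - n) := Sum.inl
  have hf : Function.Injective f := Sum.inl_injective
  have hfc : ∀ {l : ℕ} {u u' : Fin l → M}, f ∘ u = f ∘ u' → u = u' := by
    intro l u u' h
    funext j
    exact hf (congrFun h j)
  let F : ∀ i, (Fin (ar i) → M ⊕ Fin (m - n)) → M ⊕ Fin (m - n) := fun i a =>
    if h : ∃ b : Fin (ar i) → M, f ∘ b = a then f (fn S i h.choose) else f x0
  let R : ∀ l, Rel l → (Fin l → M ⊕ Fin (m - n)) → Prop := fun l ρ a => ∃ b, f ∘ b = a ∧ rl S ρ b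
  refine ⟨by omega, M ⊕ Fin (m - n), inferInstance, mkV F R, ?_, ?_⟩
  · rw [Fintype.card_sum, Fintype.card_fin, hcard]
    omega
  · rw [preQ_ex hq]
    refine ⟨f ∘ v, (ex_embed_voc hP S F R f hf ?_ ?_ v).2 hv⟩
    · intro i u
      have h : ∃ b : Fin (ar i) → M, f ∘ b = f ∘ u := ⟨u, rfl⟩
      show (if h : ∃ b : Fin (ar i) → M, f ∘ b = f ∘ u then f (fn S i h.choose) else f x0) = _
      rw [dif_pos h, hfc h.choose_spec]
    · intro l ρ u
      constructor
      · rintro ⟨b, hb, h⟩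
        rwa [← hfc hb]
      · intro h
        exact ⟨u, rfl, h⟩

theorem t2 {q : ℕ → Bool} {r k : ℕ} {ar : Fin k → ℕ} {mon : Bool} {A : Set ℕ}
    (hA : VocSpectrum q r ar mon A) (h0 : HasA q r) (h1 : ¬ HasAA q r) (h2 : ¬ HasEA q r)
    (hc : ∀ i, ar i ≠ 0) : ∃ (ι : Type) (_ : Finite ι) (B : ι → Set ℕ), A = ⋃ i, B i ∧
      ∀ i n m, n ∈ B i → m ∈ B i → n + m ∈ B i := by
  classical
  obtain ⟨Rel, hR, hmon, P, hP, rfl⟩ := hA.exists_ex
  obtain ⟨c, hcr, hqc⟩ := h0
  -- the universal quantifier is the first one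
  have hother : ∀ i, i < r → i ≠ c → q i = false := by
    intro i hi hne
    by_contra hcon
    have hi' : q i = true := by simpa using hcon
    rcases lt_or_gt_of_ne hne with h | h
    · exact h1 ⟨i, c, h, hcr, hi', hqc⟩
    · exact h1 ⟨c, i, h, hi, hqc, hi'⟩
  have hc0 : c = 0 := by
    by_contra hne
    exact h2 ⟨0, c, Nat.pos_of_ne_zero hne, hcr, hother 0 (by omega) (fun h => hne h.symm), hqc⟩
  subst hc0
  have hpre : ∀ (M : Type) [Nonempty M] (Q : (Fin r → M) → Prop),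
      preQ q r Q ↔ ∀ x, ∃ v : Fin r → M, v ⟨0, hcr⟩ = x ∧ Q v := by
    intro M hM Q
    rw [preQ_one ⟨0, hcr⟩ hqc hother Q]
    constructor
    · rintro ⟨z, hz⟩ x
      obtain ⟨v, -, h3, h4⟩ := hz x
      exact ⟨v, h3, h4⟩
    · intro h
      obtain ⟨x0⟩ := hM
      refine ⟨fun _ => x0, fun x => ?_⟩
      obtain ⟨v, h3, h4⟩ := h x
      exact ⟨v, fun i hi => absurd hi (Nat.not_lt_zero _), h3, h4⟩
  have hfin : Finite (Rel 0) := by
    refine Finite.of_injective (fun ρ : Rel 0 => (⟨0, ρ⟩ : Σ l, Rel l)) ?_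
    intro ρ ρ' h
    simpa using h
  refine ⟨Rel 0 → Prop, inferInstance, fun τ => {N : ℕ | 1 ≤ N ∧ ∃ (M : Type) (_ : Fintype M)
    (S : (voc ar Rel).Structure M), Fintype.card M = N ∧ (∀ (ρ : Rel 0) (u : Fin 0 → M), rl S ρ u ↔ τ ρ) ∧
      preQ q r (P M S)}, ?_, ?_⟩
  · ext N
    simp only [Set.mem_iUnion, Set.mem_ofPred_eq]
    constructor
    · rintro ⟨hN, M, hM, S, h3, h4⟩
      refine ⟨fun ρ => rl S ρ default, hN, M, hM, S, h3, fun ρ u => ?_, h4⟩
      rw [Subsingleton.elim u default]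
    · rintro ⟨τ, hN, M, hM, S, h3, h4, h5⟩
      exact ⟨hN, M, hM, S, h3, h5⟩
  · rintro τ n m ⟨hn, M, hM, S, hcard, hτ, hP1⟩ ⟨hm, M', hM', S', hcard', hτ', hP2⟩
    have hne : Nonempty M := by
      rw [← Fintype.card_pos_iff]
      omega
    have hne' : Nonempty M' := by
      rw [← Fintype.card_pos_iff]
      omega
    rw [hpre M] at hP1
    rw [hpre M'] at hP2
    have hne2 := hne
    obtain ⟨x0⟩ := hne2
    have hlc : ∀ {l : ℕ} {u u' : Fin l → M}, (Sum.inl : M → M ⊕ M') ∘ u = Sum.inl ∘ u' → u = u' := by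
      intro l u u' h
      funext j
      exact Sum.inl_injective (congrFun h j)
    have hrc : ∀ {l : ℕ} {u u' : Fin l → M'}, (Sum.inr : M' → M ⊕ M') ∘ u = Sum.inr ∘ u' → u = u' := by
      intro l u u' h
      funext j
      exact Sum.inr_injective (congrFun h j)
    have hlr : ∀ {l : ℕ} {u : Fin l → M} {u' : Fin l → M'},
        (Sum.inl : M → M ⊕ M') ∘ u = Sum.inr ∘ u' → l = 0 := by
      intro l u u' h
      by_contra hl
      have := congrFun h ⟨0, Nat.pos_of_ne_zero hl⟩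
      simp at this
    let F : ∀ i, (Fin (ar i) → M ⊕ M') → M ⊕ M' := fun i a =>
      if h : ∃ b : Fin (ar i) → M, Sum.inl ∘ b = a then Sum.inl (fn S i h.choose) else
        if h : ∃ b : Fin (ar i) → M', Sum.inr ∘ b = a then Sum.inr (fn S' i h.choose) else Sum.inl x0
    let R : ∀ l, Rel l → (Fin l → M ⊕ M') → Prop := fun l ρ a =>
      (∃ b : Fin l → M, Sum.inl ∘ b = a ∧ rl S ρ b) ∨ ∃ b : Fin l → M', Sum.inr ∘ b = a ∧ rl S' ρ b
    have hL := fun w => ex_embed_voc hP S F R (Sum.inl : M → M ⊕ M') Sum.inl_injective (by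
      intro i u
      have h : ∃ b : Fin (ar i) → M, (Sum.inl : M → M ⊕ M') ∘ b = Sum.inl ∘ u := ⟨u, rfl⟩
      show (if h : ∃ b : Fin (ar i) → M, (Sum.inl : M → M ⊕ M') ∘ b = Sum.inl ∘ u then
        Sum.inl (fn S i h.choose) else _) = _
      rw [dif_pos h, hlc h.choose_spec]) (by
      intro l ρ u
      constructor
      · rintro (⟨b, hb, h⟩ | ⟨b, hb, h⟩)
        · rwa [← hlc hb]
        · have hl := hlr hb.symm
          subst hl
          rw [hτ]
          rwa [hτ'] at h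
      · intro h
        exact Or.inl ⟨u, rfl, h⟩) w
    have hRt := fun w => ex_embed_voc hP S' F R (Sum.inr : M' → M ⊕ M') Sum.inr_injective (by
      intro i u
      have h : ∃ b : Fin (ar i) → M', (Sum.inr : M' → M ⊕ M') ∘ b = Sum.inr ∘ u := ⟨u, rfl⟩
      have h' : ¬ ∃ b : Fin (ar i) → M, (Sum.inl : M → M ⊕ M') ∘ b = Sum.inr ∘ u := by
        rintro ⟨b, hb⟩
        exact hc i (hlr hb)
      show (if h : ∃ b : Fin (ar i) → M, (Sum.inl : M → M ⊕ M') ∘ b = Sum.inr ∘ u then _ else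
        if h : ∃ b : Fin (ar i) → M', (Sum.inr : M' → M ⊕ M') ∘ b = Sum.inr ∘ u then
          Sum.inr (fn S' i h.choose) else _) = _
      rw [dif_neg h', dif_pos h, hrc h.choose_spec]) (by
      intro l ρ u
      constructor
      · rintro (⟨b, hb, h⟩ | ⟨b, hb, h⟩)
        · have hl := hlr hb
          subst hl
          rw [hτ']
          rwa [hτ] at h
        · rwa [← hrc hb]
      · intro h
        exact Or.inr ⟨u, rfl, h⟩) w
    refine ⟨by omega, M ⊕ M', inferInstance, mkV F R, ?_, ?_, ?_⟩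
    · rw [Fintype.card_sum, hcard, hcard']
    · intro ρ u
      constructor
      · rintro (⟨b, hb, h⟩ | ⟨b, hb, h⟩)
        · exact (hτ ρ b).1 h
        · exact (hτ' ρ b).1 h
      · intro h
        exact Or.inl ⟨fun j => j.elim0, Subsingleton.elim _ _, (hτ ρ _).2 h⟩
    · have : Nonempty (M ⊕ M') := ⟨Sum.inl x0⟩
      rw [hpre (M ⊕ M')]
      rintro (x | x)
      · obtain ⟨v, h3, h4⟩ := hP1 x
        refine ⟨Sum.inl ∘ v, ?_, (hL v).2 h4⟩
        show Sum.inl (v ⟨0, hcr⟩) = _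
        rw [h3]
      · obtain ⟨v, h3, h4⟩ := hP2 x
        refine ⟨Sum.inr ∘ v, ?_, (hRt v).2 h4⟩
        show Sum.inr (v ⟨0, hcr⟩) = _
        rw [h3]

end Pool.Agent.Helper20.PV
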