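import Pool.Agent.Helper74.PV.T3

/-! Block T3: Shelah's class (proof in `Pool/Agent/Helper74/PV`). -/

set_option autoImplicit false

namespace Pool.Agent.Helper20.PV

open FirstOrder FirstOrder.Language Pool.Agent.Helper20.Spectra Pool.Agent.Helper20.OP
  Pool.Agent.Helper29.Prefix

theorem t3 {q : ℕ → Bool} {r k : ℕ} {ar : Fin k → ℕ} {mon : Bool} {A : Set ℕ}
    (hA : VocSpectrum q r ar mon A) (h0 : HasA q r) (h1 : ¬ HasAA q r) (hB : ¬ Big ar) :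
    ∃ p N0 : ℕ, 1 ≤ p ∧ ∀ n, N0 ≤ n → n ∈ A → n + p ∈ A :=
  Pool.Agent.Helper74.PV.t3 hA h0 h1 hB

end Pool.Agent.Helper20.PV
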