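import Pool.Agent.Helper20.PV.Ex

/-! Block T4 (target file: Pool/Agent/Helper20/PV/T4.lean): only constant symbols. The k constants become k leading existential quantifiers:
q' i = false for i < k, q' (k + i) = q i; the matrix: constant j -> variable j, variable i -> variable k + i (induction on IsQF as in Ex.ren; every term is a
constant or a variable). preQ q' (k+r) P' <-> exists z : Fin k -> M, preQ q r (fun v => P' (Fin.append z v)).
Vocabulary: relational (voc without functions). Then `prefix_final q' (k+r)` (Helper20/Pfx/Final.lean): q' contains AAE or AEA iff q does. -/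

set_option autoImplicit false

namespace Pool.Agent.Helper20.PV

open FirstOrder FirstOrder.Language Pool.Agent.Helper20.Spectra Pool.Agent.Helper20.OP
  Pool.Agent.Helper29.Prefix

/-- the relational vocabulary -/
private def rl34 (Rel : ℕ → Type) : FirstOrder.Language.{0, 0} := ⟨fun _ => Empty, Rel⟩

/-- the structure of the relational vocabulary with given relations -/
@[instance_reducible] private def mkR34 {Rel : ℕ → Type} {M : Type}
    (R : ∀ l, Rel l → (Fin l → M) → Prop) : (rl34 Rel).Structure M where
  funMap := fun f _ => (f : Empty).elim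
  RelMap := fun {l} ρ a => R l ρ a

/-- the relations of a structure -/
private def rels34 {Rel : ℕ → Type} {M : Type} (S : (rl34 Rel).Structure M) :
    ∀ l, Rel l → (Fin l → M) → Prop := fun l ρ a => S.RelMap (n := l) ρ a

private lemma preQ_ex34 {M : Type} (q : ℕ → Bool) : ∀ (k : ℕ) (_ : ∀ i, i < k → q i = false)
    (P : (Fin k → M) → Prop), preQ q k P ↔ ∃ z, P z
  | 0, _, P => by
    show P default ↔ _
    constructor
    · exact fun h => ⟨_, h⟩
    · rintro ⟨z, hz⟩
      rwa [Subsingleton.elim z default] at hz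
  | k + 1, hq, P => by
    show preQ q k (fun v => if q k = true then (∀ x : M, P (Fin.snoc v x)) else
      ∃ x : M, P (Fin.snoc v x)) ↔ _
    rw [preQ_ex34 q k (fun i hi => hq i (by omega))]
    rw [hq k (by omega)]
    constructor
    · rintro ⟨z, hz⟩
      rw [if_neg (by decide)] at hz
      obtain ⟨x, hx⟩ := hz
      exact ⟨_, hx⟩
    · rintro ⟨z, hz⟩
      refine ⟨Fin.init z, ?_⟩
      rw [if_neg (by decide)]
      refine ⟨z (Fin.last k), ?_⟩
      rw [Fin.snoc_init_self]
      exact hz

private lemma append_snoc34 {M : Type} {k r : ℕ} (z : Fin k → M) (v : Fin r → M) (x : M) :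
    (Fin.append z (Fin.snoc v x : Fin (r + 1) → M) : Fin (k + (r + 1)) → M) =
      (Fin.snoc (Fin.append z v) x : Fin (k + r + 1) → M) := by
  funext i
  refine Fin.addCases (fun j => ?_) (fun j => ?_) i
  · rw [Fin.append_left]
    have h : (Fin.castAdd (r + 1) j : Fin (k + (r + 1))) = Fin.castSucc (Fin.castAdd r j) := rfl
    rw [h, Fin.snoc_castSucc, Fin.append_left]
  · rw [Fin.append_right]
    refine Fin.lastCases ?_ (fun j => ?_) j
    · rw [Fin.snoc_last]
      have h : (Fin.natAdd k (Fin.last r) : Fin (k + (r + 1))) = Fin.last (k + r) := rfl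
      rw [h, Fin.snoc_last]
    · rw [Fin.snoc_castSucc]
      have h : (Fin.natAdd k (Fin.castSucc j) : Fin (k + (r + 1))) = Fin.castSucc (Fin.natAdd k j) :=
        rfl
      rw [h, Fin.snoc_castSucc, Fin.append_right]

private lemma preQ_append34 {M : Type} (q q' : ℕ → Bool) (k : ℕ) (h0 : ∀ i, i < k → q' i = false)
    (h1 : ∀ i, q' (k + i) = q i) : ∀ (r : ℕ) (P : (Fin (k + r) → M) → Prop),
    preQ q' (k + r) P ↔ ∃ z : Fin k → M, preQ q r (fun v => P (Fin.append z v))
  | 0, P => by
    show preQ q' k P ↔ _
    rw [preQ_ex34 q' k h0]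
    refine exists_congr fun z => ?_
    show P z ↔ P (Fin.append z default)
    have h : (Fin.append z (default : Fin 0 → M) : Fin (k + 0) → M) = z := by
      rw [Subsingleton.elim (default : Fin 0 → M) Fin.elim0, Fin.append_elim0]
      rfl
    rw [h]
  | r + 1, P => by
    show preQ q' (k + r) (fun w => if q' (k + r) = true then
      (∀ x : M, P (Fin.snoc w x)) else ∃ x : M, P (Fin.snoc w x)) ↔
      ∃ z : Fin k → M, preQ q r (fun v => if q r = true then
        (∀ x : M, P (Fin.append z (Fin.snoc v x))) else ∃ x : M, P (Fin.append z (Fin.snoc v x)))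
    rw [preQ_append34 q q' k h0 h1 r]
    refine exists_congr fun z => preQ_congr q fun v => ?_
    rw [h1 r]
    simp only [append_snoc34]

section

variable {k r : ℕ} {ar : Fin k → ℕ} {Rel : ℕ → Type}

/-- the structure with the constants given by the first variables -/
@[instance_reducible] private def cst34 (ar : Fin k → ℕ) {M : Type} (S : (rl34 Rel).Structure M)
    (z : Fin k → M) : (voc ar Rel).Structure M :=
  mkV (fun i _ => z i) (rels34 S)

private lemma ex34 {P : (M : Type) → (voc ar Rel).Structure M → (Fin r → M) → Prop}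
    (h : Ex (voc ar Rel) r P) : Ex (rl34 Rel) (k + r) (fun M S w =>
      P M (cst34 ar S (fun i => w (Fin.castAdd r i))) (fun j => w (Fin.natAdd k j))) := by
  obtain ⟨ψ, hψ, h⟩ := h
  suffices hs : Ex (rl34 Rel) (k + r) (fun M S w =>
      @BoundedFormula.Realize (voc ar Rel) M (cst34 ar S (fun i => w (Fin.castAdd r i))) _ _ ψ default
        (fun j => w (Fin.natAdd k j))) from hs.congr (fun M S w => h M _ _)
  clear h
  have hterm : ∀ t : (voc ar Rel).Term (Empty ⊕ Fin r), Tm (rl34 Rel) (k + r) (fun M S w =>
      @Term.realize (voc ar Rel) M (cst34 ar S (fun i => w (Fin.castAdd r i))) _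
        (Sum.elim default (fun j => w (Fin.natAdd k j))) t) := by
    intro t
    cases t with
    | var a =>
      rcases a with a | i
      · exact a.elim
      · exact Tm.var (Fin.natAdd k i)
    | func f ts =>
      obtain ⟨i, hi⟩ := f
      exact Tm.var (Fin.castAdd r i)
  induction hψ with
  | falsum => exact Ex.false.congr (fun M S v => Iff.rfl)
  | of_isAtomic hA =>
    cases hA with
    | equal t₁ t₂ =>
      exact (Ex.eq (hterm t₁) (hterm t₂)).congr (fun M S v => by
        let _ : (voc ar Rel).Structure M := cst34 ar S (fun i => v (Fin.castAdd r i))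
        rw [BoundedFormula.realize_bdEqual])
    | rel ρ ts =>
      exact (Ex.rel (L := rl34 Rel) ρ (fun j => hterm (ts j))).congr (fun M S v => by
        let _ : (voc ar Rel).Structure M := cst34 ar S (fun i => v (Fin.castAdd r i))
        rw [BoundedFormula.realize_rel]
        rfl)
  | imp _ _ ih₁ ih₂ =>
    exact (ih₁.imp ih₂).congr (fun M S v => by
      let _ : (voc ar Rel).Structure M := cst34 ar S (fun i => v (Fin.castAdd r i))
      rw [BoundedFormula.realize_imp])

private lemma cst_eq34 (har : ∀ i, ar i = 0) {M : Type} (S : (voc ar Rel).Structure M) :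
    cst34 ar (mkR34 (fun _ ρ a => S.RelMap ρ a)) (fun i => fn S i (fun j => (Fin.cast (har i) j).elim0))
      = S := by
  refine FirstOrder.Language.Structure.ext ?_ ?_
  · funext l f a
    obtain ⟨i, rfl⟩ := f
    show fn S i _ = S.funMap _ a
    unfold fn
    congr 1
    funext j
    exact (Fin.cast (har i) j).elim0
  · rfl

end

theorem t4 {q : ℕ → Bool} {r k : ℕ} {ar : Fin k → ℕ} {mon : Bool} {A : Set ℕ}
    (hA : VocSpectrum q r ar mon A) (har : ∀ i, ar i = 0) (hq : ¬ HasAAE q r) :
    A.Finite ∨ Aᶜ.Finite := by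
  obtain ⟨Rel, hR, -, P, hP, rfl⟩ := hA.exists_ex
  obtain ⟨q', hq'⟩ : ∃ q' : ℕ → Bool, q' = fun i => if i < k then false else q (i - k) := ⟨_, rfl⟩
  have h0 : ∀ i, i < k → q' i = false := by
    intro i hi
    rw [hq']
    exact if_pos hi
  have h1 : ∀ i, q' (k + i) = q i := by
    intro i
    rw [hq']
    show (if k + i < k then false else q (k + i - k)) = q i
    rw [if_neg (by omega), Nat.add_sub_cancel_left]
  refine (prefix_final q' (k + r)).2 ?_ _ ?_
  · rintro ⟨i, j, l, hij, hjl, hl, hi, hne⟩
    have hki : k ≤ i := by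
      by_contra hc
      rw [h0 i (by omega)] at hi
      exact absurd hi (by decide)
    refine hq ⟨i - k, j - k, l - k, by omega, by omega, by omega, ?_, ?_⟩
    · rw [← h1, Nat.add_sub_cancel' hki]
      exact hi
    · rw [← h1, ← h1, Nat.add_sub_cancel' (by omega), Nat.add_sub_cancel' (by omega)]
      exact hne
  · obtain ⟨ψ, hψ, h⟩ := ex34 hP
    refine ⟨rl34 Rel, fun _ => inferInstanceAs (IsEmpty Empty), hR, ψ, hψ, ?_⟩
    ext N
    constructor
    · rintro ⟨hn, M, hf, S, hc, hS⟩
      refine ⟨hn, M, mkR34 (fun _ ρ a => S.RelMap ρ a), hf, hc, ?_⟩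
      let _ : (rl34 Rel).Structure M := mkR34 (fun _ ρ a => S.RelMap ρ a)
      refine (realize_quantify q' (k + r) ψ).2 ?_
      refine (preQ_congr q' (fun v => h M _ v)).2 ?_
      rw [preQ_append34 q q' k h0 h1]
      refine ⟨fun i => fn S i (fun j => (Fin.cast (har i) j).elim0), ?_⟩
      refine (preQ_congr q (fun v => ?_)).2 hS
      simp only [Fin.append_left, Fin.append_right]
      exact Iff.of_eq (congrArg (fun T => P M T v) (cst_eq34 har S))
    · rintro ⟨hn, M, S, hf, hc, hr⟩
      have hr' := (preQ_congr q' (fun v => h M S v)).1 ((realize_quantify q' (k + r) ψ).1 hr)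
      rw [preQ_append34 q q' k h0 h1] at hr'
      obtain ⟨z, hz⟩ := hr'
      refine ⟨hn, M, hf, cst34 ar S z, hc, ?_⟩
      refine (preQ_congr q (fun v => ?_)).1 hz
      simp only [Fin.append_left, Fin.append_right]

end Pool.Agent.Helper20.PV
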