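import Pool.Agent.Helper20.PV.Ex
import Pool.Agent.Helper29.TW.Tame

/-!
# One unary function, constants and unary relations: the spectra are ultimately periodic (any prefix)

A structure `T` with functions is encoded by the graphs of its functions (`enc T`). Every sentence with
function symbols is translated into a condition on `enc T` which is definable in the relational vocabulary
(`form5`). A model of the translation has tree-width at most `2`.
-/

set_option autoImplicit false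

namespace Pool.Agent.Helper20.PV

open FirstOrder FirstOrder.Language Pool.Agent.Helper20.Spectra Pool.Agent.Helper20.OP
  Pool.Agent.Helper29.Prefix Pool.Agent.Helper29.TW Pool.Agent.Helper29.TD Filter

section enc

variable {k : ℕ} {ar : Fin k → ℕ} {Rel : ℕ → Type}

/-- the arities of the relational vocabulary -/
private def ar5 (ar : Fin k → ℕ) (Rel : ℕ → Type) : Fin k ⊕ (Σ l, Rel l) → ℕ :=
  Sum.elim (fun i => ar i + 1) (fun ρ => ρ.1)

/-- the graphs of the functions, and the relations -/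
private def enc {M : Type} (T : (voc ar Rel).Structure M) : Interp (Fin k ⊕ (Σ l, Rel l)) (ar5 ar Rel) M :=
  fun s => match s with
    | Sum.inl i => fun (w : Fin (ar i + 1) → M) => fn T i (fun j => w j.castSucc) = w (Fin.last _)
    | Sum.inr ρ => fun (w : Fin ρ.1 → M) => rl T ρ.2 w

/-- tuples with one more entry -/
private lemma pj_snoc5 {α : Type} {m : ℕ} {f : ∀ (M : Type), (α → M) → (Fin m → M)}
    {g : ∀ (M : Type), (α → M) → M} (hf : Pj α (Fin m) f) (hg : El α g) :
    Pj α (Fin (m + 1)) (fun M v => (Fin.snoc (f M v) (g M v) : Fin (m + 1) → M)) := by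
  obtain ⟨a, ha⟩ := hf
  obtain ⟨b, hb⟩ := hg
  refine ⟨(Fin.snoc a b : Fin (m + 1) → α), fun M v => ?_⟩
  show (Fin.snoc (f M v) (g M v) : Fin (m + 1) → M) = _
  rw [ha, hb]
  funext j
  refine Fin.lastCases ?_ (fun j => ?_) j
  · simp
  · simp

/-- the graph condition -/
private def Fun5 (ar : Fin k → ℕ) (Rel : ℕ → Type) (M : Type)
    (R : Interp (Fin k ⊕ (Σ l, Rel l)) (ar5 ar Rel) M) : Prop :=
  ∀ (i : Fin k) (a : Fin (ar i) → M), ∃ y : M, ∀ y' : M,
    R (Sum.inl i) (Fin.snoc a y' : Fin (ar i + 1) → M) ↔ y' = y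

private lemma fun_fd5 : FD (Fin k ⊕ (Σ l, Rel l)) (ar5 ar Rel) Empty (fun M R _ => Fun5 ar Rel M R) := by
  unfold Fun5
  refine FD.all_fin fun i => ?_
  refine FD.all (S := Fin k ⊕ (Σ l, Rel l)) (ar := ar5 ar Rel) (β := Fin (ar i)) (P := fun M R _ a => ∃ y : M, ∀ y' : M,
    R (Sum.inl i) (Fin.snoc a y' : Fin (ar i + 1) → M) ↔ y' = y) ?_
  refine FD.ex1 (S := Fin k ⊕ (Σ l, Rel l)) (ar := ar5 ar Rel) (P := fun M R v y => ∀ y' : M,
    R (Sum.inl i) (Fin.snoc (v ∘ Sum.inr) y' : Fin (ar i + 1) → M) ↔ y' = y) ?_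
  refine FD.all1 (S := Fin k ⊕ (Σ l, Rel l)) (ar := ar5 ar Rel) (P := fun M R v y' =>
    R (Sum.inl i) (Fin.snoc ((v ∘ Sum.inl) ∘ Sum.inr) y' : Fin (ar i + 1) → M) ↔ y' = v (Sum.inr ())) ?_
  refine FD.iff ?_ ?_
  · refine FD.rel (S := Fin k ⊕ (Σ l, Rel l)) (ar := ar5 ar Rel) (Sum.inl i)
      (f := fun M v => (Fin.snoc (((v ∘ Sum.inl) ∘ Sum.inl) ∘ Sum.inr) (v (Sum.inr ())) : Fin (ar i + 1) → M)) ?_
    refine pj_snoc5 ?_ (El.var _)
    exact Pj.comp (f := fun M v => (v ∘ Sum.inl) ∘ Sum.inl) Sum.inr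
      (Pj.comp (f := fun M v => v ∘ Sum.inl) Sum.inl (Pj.comp (f := fun M v => v) Sum.inl Pj.id))
  · exact FD.eq (El.var _) (El.var _)

private lemma fun_enc5 {M : Type} (T : (voc ar Rel).Structure M) : Fun5 ar Rel M (enc T) := by
  intro i a
  refine ⟨fn T i a, fun y' => ?_⟩
  show fn T i (fun j => (Fin.snoc a y' : Fin (ar i + 1) → M) j.castSucc) =
    (Fin.snoc a y' : Fin (ar i + 1) → M) (Fin.last _) ↔ _
  simp only [Fin.snoc_castSucc, Fin.snoc_last]
  exact eq_comm

private lemma exists_enc5 {M : Type} {R : Interp (Fin k ⊕ (Σ l, Rel l)) (ar5 ar Rel) M}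
    (h : Fun5 ar Rel M R) : ∃ T : (voc ar Rel).Structure M, enc T = R := by
  choose F hF using h
  refine ⟨mkV F (fun l ρ a => R (Sum.inr ⟨l, ρ⟩) a), ?_⟩
  funext s
  rcases s with i | ρ
  · funext w
    have h1 := hF i (fun j => (w : Fin (ar i + 1) → M) j.castSucc) ((w : Fin (ar i + 1) → M) (Fin.last _))
    have h2 : (Fin.snoc (fun j => (w : Fin (ar i + 1) → M) j.castSucc) ((w : Fin (ar i + 1) → M) (Fin.last _)) :
        Fin (ar i + 1) → M) = w := Fin.snoc_init_self (α := fun _ => M) (w : Fin (ar i + 1) → M)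
    rw [h2] at h1
    apply propext
    show F i _ = _ ↔ _
    exact eq_comm.trans h1.symm
  · rfl

/-- the value of a term is definable -/
private lemma term5 {n : ℕ} (t : (voc ar Rel).Term (Empty ⊕ Fin n)) :
    ∃ P : ∀ (M : Type), Interp (Fin k ⊕ (Σ l, Rel l)) (ar5 ar Rel) M → (Fin n ⊕ Unit → M) → Prop,
      FD (Fin k ⊕ (Σ l, Rel l)) (ar5 ar Rel) (Fin n ⊕ Unit) P ∧
      ∀ (M : Type) (T : (voc ar Rel).Structure M) (v : Fin n ⊕ Unit → M),
        P M (enc T) v ↔ @Term.realize _ M T _ (Sum.elim default (v ∘ Sum.inl)) t = v (Sum.inr ()) := by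
  induction t with
  | var a =>
    rcases a with a | i
    · exact a.elim
    · refine ⟨fun M _ v => v (Sum.inl i) = v (Sum.inr ()), FD.eq (El.var _) (El.var _), fun M T v => ?_⟩
      rw [Term.realize_var]
      rfl
  | func f ts ih =>
    obtain ⟨i, rfl⟩ := f
    choose P hP1 hP2 using ih
    refine ⟨fun M R v => ∃ z : Fin (ar i) → M,
      (∀ j, P j M R (Sum.elim (v ∘ Sum.inl) (fun _ => z j))) ∧
        R (Sum.inl i) (Fin.snoc z (v (Sum.inr ())) : Fin (ar i + 1) → M), ?_, fun M T v => ?_⟩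
    · refine FD.ex (S := Fin k ⊕ (Σ l, Rel l)) (ar := ar5 ar Rel) (β := Fin (ar i)) (P := fun M R v z =>
        (∀ j, P j M R (Sum.elim (v ∘ Sum.inl) (fun _ => z j))) ∧
          R (Sum.inl i) (Fin.snoc z (v (Sum.inr ())) : Fin (ar i + 1) → M)) ?_
      refine FD.and (FD.all_fin fun j => ?_) ?_
      · refine FD.sub (f := fun M v => Sum.elim ((v ∘ Sum.inl) ∘ Sum.inl) (fun _ => (v ∘ Sum.inr) j)) ?_ (hP1 j)
        refine ⟨Sum.elim (Sum.inl ∘ Sum.inl) (fun _ => Sum.inr j), fun M v => ?_⟩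
        funext a
        rcases a with a | a <;> rfl
      · refine FD.rel (S := Fin k ⊕ (Σ l, Rel l)) (ar := ar5 ar Rel) (Sum.inl i)
          (f := fun M v => (Fin.snoc (v ∘ Sum.inr) ((v ∘ Sum.inl) (Sum.inr ())) : Fin (ar i + 1) → M)) ?_
        refine pj_snoc5 (Pj.comp (f := fun M v => v) Sum.inr Pj.id) ?_
        exact El.var (Sum.inl (Sum.inr ()))
    · have h1 : ∀ z : Fin (ar i) → M, (enc T) (Sum.inl i) (Fin.snoc z (v (Sum.inr ())) : Fin (ar i + 1) → M) ↔
          fn T i z = v (Sum.inr ()) := by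
        intro z
        show fn T i (fun j => (Fin.snoc z (v (Sum.inr ())) : Fin (ar i + 1) → M) j.castSucc) =
          (Fin.snoc z (v (Sum.inr ())) : Fin (ar i + 1) → M) (Fin.last _) ↔ _
        simp only [Fin.snoc_castSucc, Fin.snoc_last]
      have h2 : ∀ (j : Fin (ar i)) (y : M), P j M (enc T) (Sum.elim (v ∘ Sum.inl) (fun _ => y)) ↔
          @Term.realize _ M T _ (Sum.elim default (v ∘ Sum.inl)) (ts j) = y := by
        intro j y
        rw [hP2]
        rfl
      have h3 : @Term.realize _ M T _ (Sum.elim default (v ∘ Sum.inl)) (Term.func ⟨i, rfl⟩ ts) =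
          fn T i (fun j => @Term.realize _ M T _ (Sum.elim default (v ∘ Sum.inl)) (ts j)) := rfl
      rw [h3]
      constructor
      · rintro ⟨z, hz1, hz2⟩
        rw [h1] at hz2
        rw [← hz2]
        congr 1
        funext j
        exact (h2 j _).1 (hz1 j)
      · intro h
        exact ⟨_, fun j => (h2 j _).2 rfl, (h1 _).2 h⟩

/-- formulas are translated -/
private lemma form5 {n : ℕ} (φ : (voc ar Rel).BoundedFormula Empty n) :
    ∃ P : ∀ (M : Type), Interp (Fin k ⊕ (Σ l, Rel l)) (ar5 ar Rel) M → (Fin n → M) → Prop,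
      FD (Fin k ⊕ (Σ l, Rel l)) (ar5 ar Rel) (Fin n) P ∧
      ∀ (M : Type) (T : (voc ar Rel).Structure M) (v : Fin n → M),
        P M (enc T) v ↔ @BoundedFormula.Realize _ M T _ _ φ default v := by
  induction φ with
  | falsum => exact ⟨fun _ _ _ => False, FD.const False, fun M T v => Iff.rfl⟩
  | @equal n t₁ t₂ =>
    obtain ⟨P, hP1, hP2⟩ := term5 t₁
    obtain ⟨Q, hQ1, hQ2⟩ := term5 t₂
    refine ⟨fun M R v => ∃ y : M, P M R (Sum.elim v (fun _ => y)) ∧ Q M R (Sum.elim v (fun _ => y)), ?_,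
      fun M T v => ?_⟩
    · refine FD.ex1 (S := Fin k ⊕ (Σ l, Rel l)) (ar := ar5 ar Rel) (P := fun M R v y => P M R (Sum.elim v (fun _ => y)) ∧ Q M R (Sum.elim v (fun _ => y))) ?_
      have h1 : Pj (Fin n ⊕ Unit) (Fin n ⊕ Unit)
          (fun M v => Sum.elim (v ∘ Sum.inl) (fun _ => v (Sum.inr ()))) := by
        refine ⟨fun a => a, fun M v => ?_⟩
        funext a
        rcases a with a | a <;> rfl
      exact FD.and (FD.sub h1 hP1) (FD.sub h1 hQ1)
    · have h1 : (@BoundedFormula.Realize _ M T _ _ (BoundedFormula.equal t₁ t₂) default v) ↔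
          @Term.realize _ M T _ (Sum.elim default v) t₁ = @Term.realize _ M T _ (Sum.elim default v) t₂ :=
        Iff.rfl
      rw [h1]
      constructor
      · rintro ⟨y, h2, h3⟩
        rw [hP2] at h2
        rw [hQ2] at h3
        exact h2.trans h3.symm
      · intro h2
        refine ⟨@Term.realize _ M T _ (Sum.elim default v) t₁, ?_, ?_⟩
        · rw [hP2]
          rfl
        · rw [hQ2]
          exact h2.symm
  | @rel n l ρ ts =>
    choose P hP1 hP2 using fun j => term5 (ts j)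
    refine ⟨fun M R v => ∃ z : Fin l → M, (∀ j, P j M R (Sum.elim v (fun _ => z j))) ∧
        R (Sum.inr ⟨l, ρ⟩) z, ?_, fun M T v => ?_⟩
    · refine FD.ex (S := Fin k ⊕ (Σ l, Rel l)) (ar := ar5 ar Rel) (β := Fin l) (P := fun M R v z => (∀ j, P j M R (Sum.elim v (fun _ => z j))) ∧
        R (Sum.inr ⟨l, ρ⟩) z) ?_
      refine FD.and (FD.all_fin fun j => ?_) ?_
      · refine FD.sub (f := fun M v => Sum.elim (v ∘ Sum.inl) (fun _ => (v ∘ Sum.inr) j)) ?_ (hP1 j)
        refine ⟨Sum.elim Sum.inl (fun _ => Sum.inr j), fun M v => ?_⟩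
        funext a
        rcases a with a | a <;> rfl
      · exact FD.rel (S := Fin k ⊕ (Σ l, Rel l)) (ar := ar5 ar Rel) (Sum.inr ⟨l, ρ⟩)
          (f := fun M v => v ∘ Sum.inr) (Pj.comp (f := fun M v => v) Sum.inr Pj.id)
    · have h2 : ∀ (j : Fin l) (y : M), P j M (enc T) (Sum.elim v (fun _ => y)) ↔
          @Term.realize _ M T _ (Sum.elim default v) (ts j) = y := by
        intro j y
        rw [hP2]
        rfl
      have h3 : (@BoundedFormula.Realize _ M T _ _ (BoundedFormula.rel ρ ts) default v) ↔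
          rl T ρ (fun j => @Term.realize _ M T _ (Sum.elim default v) (ts j)) := Iff.rfl
      rw [h3]
      constructor
      · rintro ⟨z, hz1, hz2⟩
        have h4 : (fun j => @Term.realize _ M T _ (Sum.elim default v) (ts j)) = z := by
          funext j
          exact (h2 j _).1 (hz1 j)
        rw [h4]
        exact hz2
      · intro h
        exact ⟨_, fun j => (h2 j _).2 rfl, h⟩
  | imp _ _ ih₁ ih₂ =>
    obtain ⟨P, hP1, hP2⟩ := ih₁
    obtain ⟨Q, hQ1, hQ2⟩ := ih₂
    refine ⟨fun M R v => P M R v → Q M R v, FD.imp hP1 hQ1, fun M T v => ?_⟩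
    show (P M (enc T) v → Q M (enc T) v) ↔ _
    rw [hP2, hQ2]
    exact BoundedFormula.realize_imp.symm
  | @all n _ ih =>
    obtain ⟨P, hP1, hP2⟩ := ih
    refine ⟨fun M R v => ∀ x : M, P M R (Fin.snoc v x : Fin (n + 1) → M), ?_, fun M T v => ?_⟩
    · refine FD.all1 (S := Fin k ⊕ (Σ l, Rel l)) (ar := ar5 ar Rel) (P := fun M R v x => P M R (Fin.snoc v x : Fin (n + 1) → M)) ?_
      refine FD.sub (f := fun M v => (Fin.snoc (v ∘ Sum.inl) (v (Sum.inr ())) : Fin (n + 1) → M)) ?_ hP1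
      exact pj_snoc5 (Pj.comp (f := fun M v => v) Sum.inl Pj.id) (El.var _)
    · rw [BoundedFormula.realize_all]
      exact forall_congr' fun x => hP2 M T _

end enc

theorem t5
    (h5 : ∀ {S : Type} {ar : S → ℕ} {M : Type} [Finite M] (I : Interp S ar M) (f : M → M),
      (∀ (s : S) (v : Fin (ar s) → M), I s v → ∃ x, ∀ i, v i = x ∨ v i = f x) → TwLe I 2)
    {q : ℕ → Bool} {r k : ℕ} {ar : Fin k → ℕ} {A : Set ℕ}
    (hA : VocSpectrum q r ar true A) (hB : ¬ Big ar) : UltPeriodic A := by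
  obtain ⟨Rel, hR, hmon, ψ, _, rfl⟩ := hA
  obtain ⟨P, hP1, hP2⟩ := form5 (n := 0) (quantify q r ψ)
  have hQ : FD (Fin k ⊕ (Σ l, Rel l)) (ar5 ar Rel) Empty
      (fun M R _ => Fun5 ar Rel M R ∧ P M R default) := by
    refine FD.and fun_fd5 ?_
    refine FD.sub (f := fun M v => (default : Fin 0 → M)) ⟨fun a => a.elim0, fun M v => ?_⟩ hP1
    funext a
    exact a.elim0
  have htr := fun {M N : Type} (e : M ≃ N) (R : Interp (Fin k ⊕ (Σ l, Rel l)) (ar5 ar Rel) M) =>
    FD.transport hQ e R (fun a => a.elim)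
  obtain ⟨φ, hφ⟩ := hQ
  have hsat : ∀ (M : Type) (R : Interp (Fin k ⊕ (Σ l, Rel l)) (ar5 ar Rel) M),
      Sat R φ ↔ Fun5 ar Rel M R ∧ P M R default := fun M R => hφ M R default
  have hreal : ∀ (M : Type) (T : (voc ar Rel).Structure M),
      P M (enc T) default ↔ @Sentence.Realize _ M T (quantify q r ψ) := by
    intro M T
    rw [hP2]
    exact real_iff T _ _ _
  have hB1 : ∀ i, ar i < 2 := by
    intro i
    by_contra h
    exact hB (Or.inl ⟨i, by omega⟩)
  have hB2 : ∀ i j, 1 ≤ ar i → 1 ≤ ar j → i = j := by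
    intro i j hi hj
    by_contra h
    exact hB (Or.inr ⟨i, j, h, hi, hj⟩)
  refine (tame (fun _ => 2) (fun d => eventually_ge_atTop _) _
    ⟨Fin k ⊕ (Σ l, Rel l), inferInstance, ar5 ar Rel, φ, ?_, ?_⟩).1
  · intro n I hn hI
    obtain ⟨T, rfl⟩ := exists_enc5 ((hsat _ _).1 hI).1
    obtain ⟨f, hf⟩ : ∃ f : Fin n → Fin n, ∀ (i : Fin k) (a : Fin (ar i) → Fin n), 1 ≤ ar i →
        ∀ j, f (a j) = fn T i a := by
      by_cases h : ∃ i, 1 ≤ ar i
      · obtain ⟨i, hi⟩ := h
        refine ⟨fun x => fn T i (fun _ => x), fun i' a hi' j => ?_⟩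
        obtain rfl := hB2 i i' hi hi'
        beta_reduce
        congr 1
        funext j'
        have h1 := hB1 i
        congr 1
        apply Fin.ext
        omega
      · exact ⟨id, fun i a hi => absurd ⟨i, hi⟩ h⟩
    refine h5 _ f ?_
    intro s
    rcases s with i | ⟨l, ρ⟩
    · show ∀ (v : Fin (ar i + 1) → Fin n), fn T i (fun j => v j.castSucc) = v (Fin.last _) →
        ∃ x, ∀ j : Fin (ar i + 1), v j = x ∨ v j = f x
      intro v hv
      refine ⟨v 0, fun j => ?_⟩
      by_cases hj : j = 0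
      · left
        rw [hj]
      · right
        have h1 := hB1 i
        have h2 : 1 ≤ ar i := by
          by_contra h3
          apply hj
          apply Fin.ext
          have := j.2
          simp only [Fin.val_zero]
          omega
        have h3 : j = Fin.last (ar i) := by
          apply Fin.ext
          have h4 := j.2
          have h5 : j.1 ≠ 0 := fun h => hj (Fin.ext h)
          simp only [Fin.val_last]
          omega
        have h4 := hf i (fun j => v j.castSucc) h2 ⟨0, by omega⟩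
        have h5 : (⟨0, by omega⟩ : Fin (ar i)).castSucc = (0 : Fin (ar i + 1)) := rfl
        rw [hv, h5] at h4
        rw [h3]
        exact h4.symm
    · show ∀ (v : Fin l → Fin n), rl T ρ v → ∃ x, ∀ j : Fin l, v j = x ∨ v j = f x
      intro v _
      have h1 : l < 2 := by
        by_contra h
        exact (hmon rfl l (by omega)).false ρ
      by_cases hl : l = 0
      · subst hl
        exact ⟨⟨0, by omega⟩, fun j => j.elim0⟩
      · refine ⟨v ⟨0, by omega⟩, fun j => Or.inl ?_⟩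
        have h2 : j = ⟨0, by omega⟩ := by
          apply Fin.ext
          have := j.2
          simp only
          omega
        rw [h2]
  · intro n
    constructor
    · rintro ⟨hn, M, T, hf, hc, hr⟩
      refine ⟨hn, ?_⟩
      obtain ⟨e⟩ : Nonempty (M ≃ Fin n) := ⟨Fintype.equivFinOfCardEq hc⟩
      have h1 : Fun5 ar Rel M (enc T) ∧ P M (enc T) default := ⟨fun_enc5 T, (hreal M T).2 hr⟩
      have h2 := (htr e (enc T)).1 h1
      exact ⟨_, (hsat _ _).2 h2⟩
    · rintro ⟨hn, I, hI⟩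
      obtain ⟨h1, h2⟩ := (hsat _ _).1 hI
      obtain ⟨T, rfl⟩ := exists_enc5 h1
      exact ⟨hn, Fin n, T, inferInstance, Fintype.card_fin n, (hreal _ _).1 h2⟩

end Pool.Agent.Helper20.PV
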