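import Pool.Agent.Helper29.TW.Defs

/-!
# Functional graphs have tree-width at most 2
-/

set_option autoImplicit false

namespace Pool.Agent.Helper20.PV

open Pool.Agent.Helper20.Spectra Pool.Agent.Helper29.TW

/-- in the class of `x` there is a point which is reached from every point of the class -/
private theorem exists_center {M : Type} [Finite M] (f : M → M) (x : M) :
    ∃ p : M, ∀ y : M, (∃ m n : ℕ, f^[m] x = f^[n] y) → ∃ n : ℕ, f^[n] y = p := by
  -- a periodic point
  have hni : ¬ Function.Injective (fun n : ℕ => f^[n] x) := not_injective_infinite_finite _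
  obtain ⟨a, b, hab, hne⟩ : ∃ a b : ℕ, f^[a] x = f^[b] x ∧ a ≠ b := by
    by_contra hcon
    push Not at hcon
    exact hni (fun a b h => hcon a b h)
  obtain ⟨N, k, hk, hN⟩ : ∃ N k : ℕ, 1 ≤ k ∧ f^[k] (f^[N] x) = f^[N] x := by
    rcases lt_or_gt_of_ne hne with h | h
    · refine ⟨a, b - a, by omega, ?_⟩
      rw [← Function.iterate_add_apply, Nat.sub_add_cancel h.le, hab]
    · refine ⟨b, a - b, by omega, ?_⟩
      rw [← Function.iterate_add_apply, Nat.sub_add_cancel h.le, hab]
  have hkl : ∀ l : ℕ, f^[k * l] (f^[N] x) = f^[N] x := by
    intro l
    induction l with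
    | zero => simp
    | succ l ih => rw [Nat.mul_succ, Function.iterate_add_apply, hN, ih]
  refine ⟨f^[N] x, ?_⟩
  rintro y ⟨m, n, hmn⟩
  -- `N + k m ≥ m`
  have hle : m ≤ k * m + N := by nlinarith
  refine ⟨(k * m + N - m) + n, ?_⟩
  rw [Function.iterate_add_apply, ← hmn, ← Function.iterate_add_apply, Nat.sub_add_cancel hle,
    Function.iterate_add_apply, hkl]

/-- a choice of a central point in every component, invariant under `f` -/
private theorem exists_v0 {M : Type} [Finite M] (f : M → M) :
    ∃ v : M → M, (∀ x, v (f x) = v x) ∧ ∀ x, ∃ n : ℕ, f^[n] x = v x := by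
  classical
  let r : Setoid M :=
    { r := fun x y => ∃ m n : ℕ, f^[m] x = f^[n] y
      iseqv :=
        { refl := fun x => ⟨0, 0, rfl⟩
          symm := fun {x y} ⟨m, n, h⟩ => ⟨n, m, h.symm⟩
          trans := fun {x y z} ⟨m, n, h⟩ ⟨m', n', h'⟩ => by
            refine ⟨m' + m, n + n', ?_⟩
            rw [Function.iterate_add_apply, h, ← Function.iterate_add_apply, Nat.add_comm,
              Function.iterate_add_apply, h', ← Function.iterate_add_apply] } }
  have hc : ∀ c : Quotient r, ∃ p : M, ∀ y : M, Quotient.mk r y = c → ∃ n : ℕ, f^[n] y = p := by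
    intro c
    induction c using Quotient.inductionOn with
    | h x =>
      obtain ⟨p, hp⟩ := exists_center f x
      refine ⟨p, fun y hy => hp y ?_⟩
      exact Quotient.exact hy.symm
  choose g hg using hc
  refine ⟨fun x => g (Quotient.mk r x), fun x => ?_, fun x => hg _ x rfl⟩
  have : Quotient.mk r (f x) = Quotient.mk r x := Quotient.sound ⟨0, 1, rfl⟩
  simp only [this]

theorem twLe_fun {S : Type} {ar : S → ℕ} {M : Type} [Finite M] (I : Interp S ar M) (f : M → M)
    (h : ∀ (s : S) (v : Fin (ar s) → M), I s v → ∃ x, ∀ i, v i = x ∨ v i = f x) : TwLe I 2 := by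
  classical
  obtain ⟨v0, hv, hn⟩ := exists_v0 f
  let bag : Option M → Finset M := fun t =>
    match t with
    | none => ∅
    | some u => if u = v0 u then {u} else {u, f u, v0 u}
  let par : Option M → Option M := fun t =>
    match t with
    | none => none
    | some u => if u = v0 u then none else some (f u)
  let dep : Option M → ℕ := fun t =>
    match t with
    | none => 0
    | some u => 1 + Nat.find (hn u)
  have hself : ∀ u, u ∈ bag (some u) := by
    intro u
    by_cases hu : u = v0 u
    · simp only [bag, if_pos hu, Finset.mem_singleton]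
    · simp only [bag, if_neg hu]; simp
  have hv0 : ∀ u, v0 u ∈ bag (some u) := by
    intro u
    by_cases hu : u = v0 u
    · simp only [bag, if_pos hu, Finset.mem_singleton]; exact hu.symm
    · simp only [bag, if_neg hu]; simp
  refine ⟨{
    T := Option M
    fin := inferInstance
    root := none
    par := par
    dep := dep
    dep_par := ?_
    bag := bag
    card_bag := ?_
    top := some
    mem_top := hself
    conn := ?_
    tup := ?_ }⟩
  · intro t ht
    cases t with
    | none => exact absurd rfl ht
    | some u =>
      by_cases hu : u = v0 u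
      · simp only [par, dep, if_pos hu]; omega
      · simp only [par, dep, if_neg hu]
        have h1 : f^[Nat.find (hn u)] u = v0 u := Nat.find_spec (hn u)
        have h0 : Nat.find (hn u) ≠ 0 := by
          intro h0
          rw [h0] at h1
          exact hu h1
        obtain ⟨m, hm⟩ := Nat.exists_eq_succ_of_ne_zero h0
        have h2 : f^[m] (f u) = v0 (f u) := by
          rw [hv, ← h1, hm, Function.iterate_succ_apply]
        have h3 : Nat.find (hn (f u)) ≤ m := Nat.find_min' (hn (f u)) h2
        omega
  · intro t
    cases t with
    | none => simp [bag]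
    | some u =>
      by_cases hu : u = v0 u
      · simp only [bag, if_pos hu]; simp
      · simp only [bag, if_neg hu]; exact Finset.card_le_three
  · intro x t hx ht
    cases t with
    | none => simp [bag] at hx
    | some u =>
      have hxu : x ≠ u := fun e => ht (by rw [e])
      by_cases hu : u = v0 u
      · simp only [bag, if_pos hu, Finset.mem_singleton] at hx
        exact absurd hx hxu
      · simp only [bag, if_neg hu, Finset.mem_insert, Finset.mem_singleton] at hx
        refine ⟨by simp, ?_⟩
        have hp : par (some u) = some (f u) := by simp only [par, if_neg hu]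
        rw [hp]
        rcases hx with hx | hx | hx
        · exact absurd hx hxu
        · rw [hx]; exact hself _
        · rw [hx, ← hv]; exact hv0 _
  · intro s v hs
    obtain ⟨x, hx⟩ := h s v hs
    by_cases hu : x = v0 x
    · by_cases hf : f x = x
      · refine ⟨some x, fun i => ?_⟩
        rcases hx i with e | e
        · rw [e]; exact hself x
        · rw [e, hf]; exact hself x
      · refine ⟨some (f x), fun i => ?_⟩
        rcases hx i with e | e
        · rw [e]
          have := hv0 (f x)
          rw [hv, ← hu] at this
          exact this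
        · rw [e]; exact hself _
    · refine ⟨some x, fun i => ?_⟩
      rcases hx i with e | e
      · rw [e]; exact hself x
      · rw [e]
        simp only [bag, if_neg hu]
        simp

end Pool.Agent.Helper20.PV
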