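import Pool.Agent.Helper20.PV.Ex

/-! Block T6 (target file: Pool/Agent/Helper20/PV/T6.lean): monadic sentences (unary relations, constants, any prefix): finite or cofinite spectra.
Show: exists N0, n >= N0, n in A -> n + 1 in A.  Colours: the truth values of the unary relations at x (finitely many: 2^m).  Model M with more than 2^m (r + k)
elements: some colour class C has more than r + k elements; M' = Option M, none gets the colour of C, constants as in M, 0-ary relations as in M (all functions are
constants). Ehrenfeucht-Fraisse by induction on the number j of remaining quantifiers. The map is the identity (Option.some) outside C and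
injective into some '' C u {none} on C. -/

set_option autoImplicit false

namespace Pool.Agent.Helper20.PV

open FirstOrder FirstOrder.Language Pool.Agent.Helper20.Spectra Pool.Agent.Helper20.OP
  Pool.Agent.Helper29.Prefix

section EF

variable {M K : Type} {k : ℕ}

/-- the colour on `Option M` -/
def colO (col : M → K) (κ : K) : Option M → K := fun x => x.elim κ col

/-- the invariant of the back and forth argument -/
def Inv (col : M → K) (κ : K) (c : Fin k → M) {i : ℕ} (v : Fin i → M) (v' : Fin i → Option M) : Prop :=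
  (∀ a, col (v a) = colO col κ (v' a)) ∧ (∀ a, col (v a) ≠ κ → v' a = some (v a)) ∧
    (∀ a b, v a = v b ↔ v' a = v' b) ∧ (∀ a j, v a = c j ↔ v' a = some (c j))

private theorem inv_snoc_h54 {col : M → K} {κ : K} {c : Fin k → M} {i : ℕ} {v : Fin i → M}
    {v' : Fin i → Option M} (h : Inv col κ c v v') {x : M} {x' : Option M} (h1 : col x = colO col κ x')
    (h2 : col x ≠ κ → x' = some x) (h3 : ∀ a, v a = x ↔ v' a = x') (h4 : ∀ j, x = c j ↔ x' = some (c j)) :
    Inv col κ c (Fin.snoc v x : Fin (i + 1) → M) (Fin.snoc v' x' : Fin (i + 1) → Option M) := by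
  obtain ⟨g1, g2, g3, g4⟩ := h
  refine ⟨?_, ?_, ?_, ?_⟩
  · rw [Fin.forall_fin_succ']
    simp only [Fin.snoc_castSucc, Fin.snoc_last]
    exact ⟨g1, h1⟩
  · rw [Fin.forall_fin_succ']
    simp only [Fin.snoc_castSucc, Fin.snoc_last]
    exact ⟨g2, h2⟩
  · rw [Fin.forall_fin_succ']
    constructor
    · intro a
      rw [Fin.forall_fin_succ']
      simp only [Fin.snoc_castSucc, Fin.snoc_last]
      exact ⟨g3 a, h3 a⟩
    · rw [Fin.forall_fin_succ']
      simp only [Fin.snoc_castSucc, Fin.snoc_last]
      refine ⟨fun a => ?_, ?_⟩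
      · rw [eq_comm, h3 a, eq_comm]
      · simp
  · rw [Fin.forall_fin_succ']
    simp only [Fin.snoc_castSucc, Fin.snoc_last]
    exact ⟨g4, h4⟩

open Classical in
private theorem forth_h54 [Fintype M] {col : M → K} {κ : K} {c : Fin k → M} {i r : ℕ} (hi : i < r)
    (hC : r + k < (Finset.univ.filter fun x : M => col x = κ).card) {v : Fin i → M}
    {v' : Fin i → Option M} (h : Inv col κ c v v') (x : M) :
    ∃ x' : Option M, Inv col κ c (Fin.snoc v x : Fin (i + 1) → M) (Fin.snoc v' x' : Fin (i + 1) → Option M) := by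
  have h0 := h
  obtain ⟨g1, g2, g3, g4⟩ := h
  by_cases hx : col x = κ
  · by_cases hv : ∃ a, v a = x
    · obtain ⟨a, rfl⟩ := hv
      exact ⟨v' a, inv_snoc_h54 h0 (g1 a) (g2 a) (fun b => g3 b a) (g4 a)⟩
    · push Not at hv
      by_cases hc : ∃ j, x = c j
      · obtain ⟨j, rfl⟩ := hc
        refine ⟨some (c j), inv_snoc_h54 h0 rfl (fun _ => rfl) (fun b => g4 b j) (fun l => ?_)⟩
        rw [Option.some_inj]
      · push Not at hc
        obtain ⟨y, hy, hy'⟩ := Finset.exists_mem_notMem_of_card_lt_card
          (s := Finset.univ.image v' ∪ Finset.univ.image fun j => some (c j))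
          (t := (Finset.univ.filter fun x : M => col x = κ).image some) (by
            rw [Finset.card_image_of_injective _ (Option.some_injective M)]
            refine lt_of_le_of_lt ((Finset.card_union_le _ _).trans (add_le_add Finset.card_image_le
              Finset.card_image_le)) ?_
            rw [Finset.card_univ, Finset.card_univ, Fintype.card_fin, Fintype.card_fin]
            omega)
        obtain ⟨z, hz, rfl⟩ := Finset.mem_image.1 hy
        have hz' : col z = κ := (Finset.mem_filter.1 hz).2
        rw [Finset.mem_union, not_or] at hy'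
        refine ⟨some z, inv_snoc_h54 h0 ?_ (fun hn => (hn hx).elim) (fun a => ?_) (fun j => ?_)⟩
        · show col x = col z
          rw [hx, hz']
        · refine iff_of_false (hv a) (fun he => hy'.1 ?_)
          exact Finset.mem_image.2 ⟨a, Finset.mem_univ _, he⟩
        · refine iff_of_false (hc j) (fun he => hy'.2 ?_)
          exact Finset.mem_image.2 ⟨j, Finset.mem_univ _, he.symm⟩
  · refine ⟨some x, inv_snoc_h54 h0 rfl (fun _ => rfl) (fun a => ?_) (fun j => ?_)⟩
    · by_cases ha : col (v a) = κ
      · refine iff_of_false (fun he => hx (by rw [← he, ha])) (fun he => ?_)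
        have := g1 a
        rw [he, ha] at this
        exact hx this.symm
      · rw [g2 a ha, Option.some_inj]
    · rw [Option.some_inj]

open Classical in
private theorem back_h54 [Fintype M] {col : M → K} {κ : K} {c : Fin k → M} {i r : ℕ} (hi : i < r)
    (hC : r + k < (Finset.univ.filter fun x : M => col x = κ).card) {v : Fin i → M}
    {v' : Fin i → Option M} (h : Inv col κ c v v') (x' : Option M) :
    ∃ x : M, Inv col κ c (Fin.snoc v x : Fin (i + 1) → M) (Fin.snoc v' x' : Fin (i + 1) → Option M) := by
  have h0 := h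
  obtain ⟨g1, g2, g3, g4⟩ := h
  by_cases hx : colO col κ x' = κ
  · by_cases hv : ∃ a, v' a = x'
    · obtain ⟨a, rfl⟩ := hv
      exact ⟨v a, inv_snoc_h54 h0 (g1 a) (g2 a) (fun b => g3 b a) (g4 a)⟩
    · push Not at hv
      by_cases hc : ∃ j, x' = some (c j)
      · obtain ⟨j, rfl⟩ := hc
        refine ⟨c j, inv_snoc_h54 h0 rfl (fun _ => rfl) (fun b => g4 b j) (fun l => ?_)⟩
        rw [Option.some_inj]
      · push Not at hc
        obtain ⟨z, hz, hz'⟩ := Finset.exists_mem_notMem_of_card_lt_card
          (s := Finset.univ.image v ∪ Finset.univ.image c)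
          (t := Finset.univ.filter fun x : M => col x = κ) (by
            refine lt_of_le_of_lt ((Finset.card_union_le _ _).trans (add_le_add Finset.card_image_le
              Finset.card_image_le)) ?_
            rw [Finset.card_univ, Finset.card_univ, Fintype.card_fin, Fintype.card_fin]
            omega)
        have hz1 : col z = κ := (Finset.mem_filter.1 hz).2
        rw [Finset.mem_union, not_or] at hz'
        refine ⟨z, inv_snoc_h54 h0 ?_ (fun hn => (hn hz1).elim) (fun a => ?_) (fun j => ?_)⟩
        · rw [hx, hz1]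
        · refine iff_of_false (fun he => hz'.1 ?_) (hv a)
          exact Finset.mem_image.2 ⟨a, Finset.mem_univ _, he⟩
        · refine iff_of_false (fun he => hz'.2 ?_) (hc j)
          exact Finset.mem_image.2 ⟨j, Finset.mem_univ _, he.symm⟩
  · rcases x' with _ | x
    · exact (hx rfl).elim
    · have hx1 : col x ≠ κ := hx
      refine ⟨x, inv_snoc_h54 h0 rfl (fun _ => rfl) (fun a => ?_) (fun j => ?_)⟩
      · by_cases ha : col (v a) = κ
        · refine iff_of_false (fun he => hx1 (by rw [← he, ha])) (fun he => ?_)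
          have := g1 a
          rw [he, ha] at this
          exact hx1 this.symm
        · rw [g2 a ha, Option.some_inj]
      · rw [Option.some_inj]

open Classical in
private theorem preQ_ef_h54 [Fintype M] (q : ℕ → Bool) {col : M → K} {κ : K} {c : Fin k → M} {r : ℕ}
    (hC : r + k < (Finset.univ.filter fun x : M => col x = κ).card) :
    ∀ i : ℕ, i ≤ r → ∀ (Q : (Fin i → M) → Prop) (Q' : (Fin i → Option M) → Prop),
      (∀ v v', Inv col κ c v v' → (Q v ↔ Q' v')) → (preQ q i Q ↔ preQ q i Q') := by
  intro i
  induction i with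
  | zero =>
    intro _ Q Q' h
    exact h _ _ ⟨fun a => a.elim0, fun a => a.elim0, fun a => a.elim0, fun a => a.elim0⟩
  | succ i ih =>
    intro hi Q Q' h
    refine ih (by omega) _ _ (fun v v' hv => ?_)
    have f := fun x => forth_h54 (r := r) (by omega) hC hv x
    have b := fun x' => back_h54 (r := r) (by omega) hC hv x'
    by_cases hq : q i = true
    · simp only [hq, if_true]
      constructor
      · intro H x'
        obtain ⟨x, hx⟩ := b x'
        exact (h _ _ hx).1 (H x)
      · intro H x
        obtain ⟨x', hx'⟩ := f x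
        exact (h _ _ hx').2 (H x')
    · simp only [hq]
      constructor
      · rintro ⟨x, H⟩
        obtain ⟨x', hx'⟩ := f x
        exact ⟨x', (h _ _ hx').1 H⟩
      · rintro ⟨x', H⟩
        obtain ⟨x, hx⟩ := b x'
        exact ⟨x, (h _ _ hx).2 H⟩

end EF

section Main

variable {k : ℕ} {ar : Fin k → ℕ} {Rel : ℕ → Type} {n : ℕ}

/-- the constants -/
def cstOf (har : ∀ i, ar i = 0) {M : Type} (S : (voc ar Rel).Structure M) (j : Fin k) : M :=
  S.funMap (n := 0) (⟨j, har j⟩ : {i : Fin k // ar i = 0}) default

/-- the colour of an element -/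
def colOf {M : Type} (S : (voc ar Rel).Structure M) (x : M) : Rel 1 → Prop :=
  fun ρ => S.RelMap (n := 1) ρ (fun _ => x)

/-- the extended structure -/
@[instance_reducible] def extS (har : ∀ i, ar i = 0) {M : Type} (S : (voc ar Rel).Structure M)
    (κ : Rel 1 → Prop) : (voc ar Rel).Structure (Option M) where
  funMap := fun {_} f _ => some (cstOf har S f.1)
  RelMap := fun {l} => match l with
    | 0 => fun ρ _ => S.RelMap (n := 0) ρ default
    | 1 => fun ρ a => colO (colOf S) κ (a 0) ρ
    | _ + 2 => fun _ _ => False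

private theorem term_h54 (har : ∀ i, ar i = 0) (t : (voc ar Rel).Term (Empty ⊕ Fin n)) :
    ∃ a : Fin n ⊕ Fin k, ∀ (M : Type) (S : (voc ar Rel).Structure M) (d : Empty → M) (v : Fin n → M),
      @Term.realize _ M S _ (Sum.elim d v) t = Sum.elim v (cstOf har S) a := by
  cases t with
  | var x =>
    rcases x with x | x
    · exact x.elim
    · exact ⟨Sum.inl x, fun M S d v => rfl⟩
  | @func l f ts =>
    obtain ⟨i, hi⟩ := f
    have hl : l = 0 := by rw [← hi, har i]
    subst hl
    refine ⟨Sum.inr i, fun M S d v => ?_⟩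
    show @Structure.funMap _ _ S _ _ _ = _
    unfold cstOf
    exact congrArg _ (Subsingleton.elim _ _)

private theorem qf_h54 (har : ∀ i, ar i = 0) (hmon : ∀ l, 2 ≤ l → IsEmpty (Rel l)) {M : Type}
    (S : (voc ar Rel).Structure M) (κ : Rel 1 → Prop) {ψ : (voc ar Rel).BoundedFormula Empty n}
    (hψ : ψ.IsQF) (d : Empty → M) (d' : Empty → Option M) {v : Fin n → M} {v' : Fin n → Option M}
    (h : Inv (colOf S) κ (cstOf har S) v v') :
    @BoundedFormula.Realize _ M S _ _ ψ d v ↔
      @BoundedFormula.Realize _ (Option M) (extS har S κ) _ _ ψ d' v' := by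
  obtain ⟨g1, g2, g3, g4⟩ := h
  have hc : ∀ j, cstOf har (extS har S κ) j = some (cstOf har S j) := fun j => rfl
  let _ : (voc ar Rel).Structure (Option M) := extS har S κ
  induction hψ with
  | falsum => exact Iff.rfl
  | of_isAtomic hA =>
    cases hA with
    | equal t₁ t₂ =>
      rw [BoundedFormula.realize_bdEqual, BoundedFormula.realize_bdEqual]
      obtain ⟨a₁, h₁⟩ := term_h54 har t₁
      obtain ⟨a₂, h₂⟩ := term_h54 har t₂
      rw [h₁, h₂, h₁, h₂]
      rcases a₁ with a | a <;> rcases a₂ with b | b
      · exact g3 a b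
      · exact g4 a b
      · show cstOf har S a = v b ↔ cstOf har (extS har S κ) a = v' b
        rw [hc, eq_comm, g4 b a, eq_comm]
      · show cstOf har S a = cstOf har S b ↔ cstOf har (extS har S κ) a = cstOf har (extS har S κ) b
        rw [hc, hc, Option.some_inj]
    | @rel l ρ ts =>
      rw [BoundedFormula.realize_rel, BoundedFormula.realize_rel]
      match l, ρ, ts with
      | 0, ρ, ts =>
        show S.RelMap (n := 0) ρ _ ↔ S.RelMap (n := 0) ρ default
        exact iff_of_eq (congrArg _ (Subsingleton.elim _ _))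
      | 1, ρ, ts =>
        obtain ⟨a, ha⟩ := term_h54 har (ts 0)
        show S.RelMap (n := 1) ρ _ ↔ colO (colOf S) κ
          (@Term.realize _ (Option M) (extS har S κ) _ (Sum.elim d' v') (ts 0)) ρ
        rw [ha]
        have e1 : (fun i : Fin 1 => @Term.realize _ M S _ (Sum.elim d v) (ts i))
            = fun _ => Sum.elim v (cstOf har S) a := by
          funext i
          rw [Subsingleton.elim i 0, ha]
        rw [e1]
        rcases a with a | a
        · show colOf S (v a) ρ ↔ colO (colOf S) κ (v' a) ρ
          rw [g1 a]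
        · exact Iff.rfl
      | l + 2, ρ, ts => exact ((hmon (l + 2) (by omega)).false ρ).elim
  | imp _ _ ih₁ ih₂ =>
    rw [BoundedFormula.realize_imp, BoundedFormula.realize_imp]
    exact imp_congr ih₁ ih₂

open Classical in
theorem t6 {q : ℕ → Bool} {r k : ℕ} {ar : Fin k → ℕ} {A : Set ℕ}
    (hA : VocSpectrum q r ar true A) (har : ∀ i, ar i = 0) : A.Finite ∨ Aᶜ.Finite := by
  obtain ⟨Rel, hR, hmon, P, ⟨ψ, hψ, hP⟩, rfl⟩ := hA.exists_ex
  have hmon' := hmon rfl
  have hfin : Finite (Rel 1) := Finite.of_injective (fun ρ : Rel 1 => (⟨1, ρ⟩ : Σ l, Rel l)) (by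
    intro a b hab
    simpa using hab)
  have : Fintype (Rel 1) := Fintype.ofFinite _
  have key : ∀ N : ℕ, Fintype.card (Rel 1 → Prop) * (r + k) < N →
      N ∈ {N : ℕ | 1 ≤ N ∧ ∃ (M : Type) (_ : Fintype M)
        (S : (voc ar Rel).Structure M), Fintype.card M = N ∧ preQ q r (P M S)} →
      N + 1 ∈ {N : ℕ | 1 ≤ N ∧ ∃ (M : Type) (_ : Fintype M)
        (S : (voc ar Rel).Structure M), Fintype.card M = N ∧ preQ q r (P M S)} := by
    rintro N hN ⟨_, M, hM, S, hcard, hpre⟩
    obtain ⟨κ, hκ⟩ := Fintype.exists_lt_card_fiber_of_mul_lt_card (colOf S) (n := r + k)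
      (by rw [hcard]; exact hN)
    refine ⟨by omega, Option M, inferInstance, extS har S κ, ?_, ?_⟩
    · rw [Fintype.card_option, hcard]
    · refine (preQ_ef_h54 q (col := colOf S) (κ := κ) (c := cstOf har S) (r := r) (by convert hκ) r le_rfl _ _
        (fun v v' hv => ?_)).1 hpre
      rw [← hP M S v, ← hP (Option M) (extS har S κ) v']
      exact qf_h54 har hmon' S κ hψ _ _ hv
  by_cases hfinA : ({N : ℕ | 1 ≤ N ∧ ∃ (M : Type) (_ : Fintype M)
        (S : (voc ar Rel).Structure M), Fintype.card M = N ∧ preQ q r (P M S)} : Set ℕ).Finite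
  · exact Or.inl hfinA
  · right
    obtain ⟨N, hN, hlt⟩ := (show ({N : ℕ | 1 ≤ N ∧ ∃ (M : Type) (_ : Fintype M)
        (S : (voc ar Rel).Structure M), Fintype.card M = N ∧ preQ q r (P M S)} : Set ℕ).Infinite from
        hfinA).exists_gt (Fintype.card (Rel 1 → Prop) * (r + k))
    refine (Set.finite_Iio N).subset fun m hm => ?_
    by_contra hmN
    apply hm
    have hmN' : N ≤ m := not_lt.1 hmN
    clear hm hmN
    induction m, hmN' using Nat.le_induction with
    | base => exact hN
    | succ m hm ih => exact key m (by omega) ih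

end Main

end Pool.Agent.Helper20.PV
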