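import Pool.Agent.Helper20.PV.WDefs

/-! Block W1 (target file: Pool/Agent/Helper20/PV/W1.lean).
Soundness: X := base points. d is injective, M finite. For base v exactly the points F^k v, F = d^[q+4], are the base points
among d^n v.  M = X x Fin (q+4), (v,i) -> d^i v is a bijection (F permutes X).  An F-orbit without a last point gives lt1 v v
(start: v = v, so lt1 v (F v); then lt1 v (F^k v) for all k >= 1), so every orbit contains THE last point l; X = {F^(i+1) l : i < N}.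
f x y := the tile with ti1 at (F^(x+1) l, F^(y+1) l).
Completeness: M = Fin ((q+4) N), d u = u + 1, base points: multiples of q+4. -/

set_option autoImplicit false

namespace Pool.Agent.Helper20.PV

open Pool.Agent.Helper29.Prefix

variable {q : ℕ}

section sound

variable {M : Type} {W : Wang (Fin q)} {d : M → M} {E : M → M → Prop}

private theorem h80_inj (h : ∀ u v, W1Ax W d E u v) : Function.Injective d := fun u v e =>
  (h u v).1 e

private theorem h80_one (h : ∀ u v, W1Ax W d E u v) {b : M} (hb : bs d E b) {i : ℕ} (hi : i < q + 4)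
    (hi' : bs d E (d^[i] b)) : i = 0 := by
  obtain ⟨j, -, hj⟩ := (h b b).2.1
  have h1 := hj ⟨0, by omega⟩ hb
  have h2 := hj ⟨i, hi⟩ hi'
  have h3 := congrArg Fin.val (h2.trans h1.symm)
  exact h3

private theorem h80_next (h : ∀ u v, W1Ax W d E u v) {b : M} (hb : bs d E b) :
    bs d E (d^[q + 4] b) := by
  obtain ⟨j, hj, -⟩ := (h (d b) (d b)).2.1
  rw [← Function.iterate_succ_apply] at hj
  have hj2 := j.2
  rcases Nat.lt_or_ge (j.1 + 1) (q + 4) with h1 | h1
  · exact absurd (h80_one h hb h1 hj) (Nat.succ_ne_zero _)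
  · have h2 : j.1.succ = q + 4 := by
      have : j.1.succ = j.1 + 1 := rfl
      omega
    rwa [h2] at hj

private theorem h80_prev (h : ∀ u v, W1Ax W d E u v) {b : M} (hb : bs d E (d^[q + 4] b)) :
    bs d E b := by
  obtain ⟨j, hj, -⟩ := (h b b).2.1
  have h1 := h80_next h hj
  rw [← Function.iterate_add_apply, Nat.add_comm, Function.iterate_add_apply] at h1
  have h2 := h80_one h hb j.2 h1
  rw [h2] at hj
  exact hj

/-- the base points -/
private def h80X (d : M → M) (E : M → M → Prop) : Type := {x : M // bs d E x}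

private instance [Finite M] : Finite (h80X d E) := by unfold h80X; infer_instance

/-- the shift of the base points -/
private def h80F (h : ∀ u v, W1Ax W d E u v) (x : h80X d E) : h80X d E :=
  ⟨d^[q + 4] x.1, h80_next h x.2⟩

private theorem h80F_inj (h : ∀ u v, W1Ax W d E u v) : Function.Injective (h80F h) := by
  intro x y e
  have h1 : d^[q + 4] x.1 = d^[q + 4] y.1 := congrArg Subtype.val e
  exact Subtype.ext ((h80_inj h).iterate _ h1)

private theorem h80_card [Finite M] (h : ∀ u v, W1Ax W d E u v) :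
    Nat.card M = (q + 4) * Nat.card (h80X d E) := by
  have h1 : Function.Bijective (fun p : Fin (q + 4) × h80X d E => d^[p.1.1] p.2.1) := by
    constructor
    · have key : ∀ (i i' : ℕ) (b b' : M), i ≤ i' → i' < q + 4 → bs d E b → bs d E b' →
          d^[i] b = d^[i'] b' → i = i' ∧ b = b' := by
        intro i i' b b' hle hi' hb hb' e
        have h2 : d^[i'] b' = d^[i] (d^[i' - i] b') := by
          rw [← Function.iterate_add_apply, Nat.add_sub_cancel' hle]
        rw [h2] at e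
        have h3 := (h80_inj h).iterate i e
        rw [h3] at hb
        have h4 := h80_one h hb' (by omega) hb
        rw [h4] at h3
        exact ⟨by omega, h3⟩
      rintro ⟨⟨i, hi⟩, b⟩ ⟨⟨i', hi'⟩, b'⟩ e
      simp only at e
      rcases le_total i i' with h2 | h2
      · obtain ⟨h3, h4⟩ := key i i' b.1 b'.1 h2 hi' b.2 b'.2 e
        subst h3
        rw [Subtype.ext h4]
      · obtain ⟨h3, h4⟩ := key i' i b'.1 b.1 h2 hi b'.2 b.2 e.symm
        subst h3
        rw [Subtype.ext h4]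
    · intro u
      obtain ⟨j, hj, -⟩ := (h u u).2.1
      have hj2 := j.2
      rcases Nat.eq_zero_or_pos j.1 with h2 | h2
      · rw [h2] at hj
        exact ⟨(⟨0, by omega⟩, ⟨u, hj⟩), rfl⟩
      · have hsur : Function.Surjective d := Finite.surjective_of_injective (h80_inj h)
        obtain ⟨b, hb⟩ := hsur.iterate (q + 4 - j.1) u
        have h3 : bs d E b := by
          apply h80_prev h
          have h4 : q + 4 = j.1 + (q + 4 - j.1) := by omega
          rw [h4, Function.iterate_add_apply, hb]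
          exact hj
        exact ⟨(⟨q + 4 - j.1, by omega⟩, ⟨b, h3⟩), hb⟩
  rw [← Nat.card_eq_of_bijective _ h1, Nat.card_prod, Nat.card_eq_fintype_card (α := Fin (q + 4)),
    Fintype.card_fin]

private theorem h80_last [Finite M] (h : ∀ u v, W1Ax W d E u v) (x : h80X d E) :
    ∃ k, la1 d E ((h80F h)^[k] x).1 := by
  by_contra h1
  push Not at h1
  have h2 : ∀ k, lt1 d E x.1 ((h80F h)^[k + 1] x).1 := by
    intro k
    have e1 : ((h80F h)^[k + 1] x).1 = d^[q + 4] ((h80F h)^[k] x).1 := by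
      rw [Function.iterate_succ_apply']
      rfl
    rw [e1, ((h x.1 ((h80F h)^[k] x).1).2.2 x.2 ((h80F h)^[k] x).2).2.1 (h1 k)]
    induction k with
    | zero => exact Or.inr rfl
    | succ k ih =>
      left
      have e2 : ((h80F h)^[k + 1] x).1 = d^[q + 4] ((h80F h)^[k] x).1 := by
        rw [Function.iterate_succ_apply']
        rfl
      rw [e2, ((h x.1 ((h80F h)^[k] x).1).2.2 x.2 ((h80F h)^[k] x).2).2.1 (h1 k)]
      exact ih e2
  obtain ⟨p, hp, hpx⟩ := (h80F_inj h).mem_periodicPts x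
  have h3 := h2 (p - 1)
  rw [Nat.sub_add_cancel hp] at h3
  have h4 : (h80F h)^[p] x = x := hpx
  rw [h4] at h3
  exact ((h x.1 x.1).2.2 x.2 x.2).1 h3

theorem w1_sound {M : Type} [Finite M] [Nonempty M] (W : Wang (Fin q)) (d : M → M)
    (E : M → M → Prop) (h : ∀ u v, W1Ax W d E u v) :
    ∃ N, 1 ≤ N ∧ Nat.card M = (q + 4) * N ∧ Tiles W N := by
  obtain ⟨u₀⟩ := (inferInstance : Nonempty M)
  obtain ⟨j, hj, -⟩ := (h u₀ u₀).2.1
  obtain ⟨k, hk⟩ := h80_last h ⟨_, hj⟩
  obtain ⟨F, hF⟩ : ∃ F, F = h80F h := ⟨_, rfl⟩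
  rw [← hF] at hk
  obtain ⟨l, hl⟩ : ∃ l : h80X d E, l = F^[k] ⟨_, hj⟩ := ⟨_, rfl⟩
  rw [← hl] at hk
  have hFinj : Function.Injective F := hF ▸ h80F_inj h
  have hFv : ∀ x : h80X d E, (F x).1 = d^[q + 4] x.1 := by intro x; rw [hF]; rfl
  have huniq : ∀ x : h80X d E, la1 d E x.1 → x = l := fun x hx =>
    Subtype.ext (((h x.1 l.1).2.2 x.2 l.2).2.2.1 hx hk)
  obtain ⟨N, hN⟩ : ∃ N, N = Function.minimalPeriod F l := ⟨_, rfl⟩
  have hpos : 1 ≤ N := hN ▸ Function.minimalPeriod_pos_of_mem_periodicPts (hFinj.mem_periodicPts l)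
  have hFN : F^[N] l = l := by rw [hN]; exact Function.iterate_minimalPeriod
  have hcov : ∀ x : h80X d E, ∃ i, i < N ∧ F^[i] l = x := by
    intro x
    obtain ⟨i, hi⟩ := h80_last h x
    rw [← hF] at hi
    have hi' := huniq _ hi
    obtain ⟨p, hp, hpx⟩ := hFinj.mem_periodicPts x
    have h2 : F^[p * i] x = x := hpx.mul_const i
    have h3 : F^[p * i - i] l = x := by
      rw [← hi', ← Function.iterate_add_apply, Nat.sub_add_cancel (Nat.le_mul_of_pos_left i hp), h2]
    refine ⟨(p * i - i) % N, Nat.mod_lt _ hpos, ?_⟩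
    rw [hN, Function.iterate_mod_minimalPeriod_eq, h3]
  have hne : ∀ i, 0 < i → i < N → ¬ la1 d E (F^[i] l).1 := by
    intro i h1 h2 h3
    have h4 := huniq _ h3
    rw [hN] at h2
    exact absurd (Function.IsPeriodicPt.minimalPeriod_le h1 h4) (not_le.2 h2)
  refine ⟨N, hpos, ?_, ?_⟩
  · rw [h80_card h]
    congr 1
    have h1 : Function.Bijective (fun i : Fin N => F^[i.1] l) := by
      constructor
      · rintro ⟨i, hi⟩ ⟨i', hi'⟩ e
        have h5 : i = i' := Function.iterate_injOn_Iio_minimalPeriod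
          (f := F) (x := l) (by rw [Set.mem_Iio, ← hN]; exact hi)
          (by rw [Set.mem_Iio, ← hN]; exact hi') e
        subst h5
        rfl
      · intro x
        obtain ⟨i, hi, hx⟩ := hcov x
        exact ⟨⟨i, hi⟩, hx⟩
    rw [← Nat.card_eq_of_bijective _ h1, Nat.card_eq_fintype_card, Fintype.card_fin]
  · have hA := fun (x y : h80X d E) => (h x.1 y.1).2.2 x.2 y.2
    have hA4 : ∀ x y : h80X d E, ∃ γ : Fin q, ti1 d E γ x.1 y.1 := fun x y => (hA x y).2.2.2.1
    choose g hg using hA4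
    have tR : ∀ x y : h80X d E, ¬ la1 d E x.1 → W.R (g x y) (g (F x) y) := fun x y hx =>
      (hA x y).2.2.2.2.2.1 hx _ _ (hg x y) (by rw [← hFv]; exact hg (F x) y)
    have tU : ∀ x y : h80X d E, ¬ la1 d E y.1 → W.U (g x y) (g x (F y)) := fun x y hy =>
      (hA x y).2.2.2.2.2.2.1 hy _ _ (hg x y) (by rw [← hFv]; exact hg x (F y))
    have tl : ∀ y : h80X d E, W.l (g (F l) y) := fun y =>
      (hA l y).2.2.2.2.2.2.2.1 hk _ (by rw [← hFv]; exact hg _ _)
    have tr : ∀ y : h80X d E, W.r (g l y) := fun y => (hA l y).2.2.2.2.2.2.2.2.1 hk _ (hg _ _)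
    have tb : ∀ x : h80X d E, W.b (g x (F l)) := fun x =>
      (hA x l).2.2.2.2.2.2.2.2.2.1 hk _ (by rw [← hFv]; exact hg _ _)
    have tt : ∀ x : h80X d E, W.t (g x l) := fun x => (hA x l).2.2.2.2.2.2.2.2.2.2.1 hk _ (hg _ _)
    have tc : W.c (g (F l) (F l)) :=
      (hA l l).2.2.2.2.2.2.2.2.2.2.2 hk hk _ (by rw [← hFv]; exact hg _ _)
    refine ⟨fun i j => g (F^[i + 1] l) (F^[j + 1] l), ?_, ?_, ?_, ?_, ?_, ?_, ?_⟩
    · intro x y hx _
      have h1 := tR (F^[x + 1] l) (F^[y + 1] l) (hne _ (Nat.succ_pos x) hx)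
      rwa [← Function.iterate_succ_apply' F] at h1
    · intro x y _ hy
      have h1 := tU (F^[x + 1] l) (F^[y + 1] l) (hne _ (Nat.succ_pos y) hy)
      rwa [← Function.iterate_succ_apply' F] at h1
    · intro y _
      exact tl _
    · intro y _
      have h1 := tr (F^[y + 1] l)
      show W.r (g (F^[N - 1 + 1] l) (F^[y + 1] l))
      rw [Nat.sub_add_cancel hpos, hFN]
      exact h1
    · intro x _
      exact tb _
    · intro x _
      show W.t (g (F^[x + 1] l) (F^[N - 1 + 1] l))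
      rw [Nat.sub_add_cancel hpos, hFN]
      exact tt _
    · exact tc

end sound

section complete

variable {N : ℕ}

/-- the standard model -/
private def h80d (q : ℕ) {N : ℕ} (hN : 1 ≤ N) (u : Fin ((q + 4) * N)) : Fin ((q + 4) * N) :=
  ⟨(u.1 + 1) % ((q + 4) * N), Nat.mod_lt _ (Nat.mul_pos (by omega) hN)⟩

private def h80E (q : ℕ) {N : ℕ} (f : ℕ → ℕ → Fin q) (u v : Fin ((q + 4) * N)) : Prop :=
  u.1 % (q + 4) = 0 ∧ ((v.1 % (q + 4) = 1 ∧ u.1 / (q + 4) = v.1 / (q + 4)) ∨
    (v.1 % (q + 4) = 2 ∧ u.1 / (q + 4) < v.1 / (q + 4)) ∨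
    (v.1 % (q + 4) = 3 ∧ u.1 / (q + 4) = N - 1) ∨
    ∃ γ : Fin q, v.1 % (q + 4) = γ.1 + 4 ∧ f (u.1 / (q + 4)) (v.1 / (q + 4)) = γ)

private theorem h80_it (hN : 1 ≤ N) (n : ℕ) (u : Fin ((q + 4) * N)) :
    ((h80d q hN)^[n] u).1 = (u.1 + n) % ((q + 4) * N) := by
  induction n with
  | zero => exact (Nat.mod_eq_of_lt u.2).symm
  | succ n ih =>
    rw [Function.iterate_succ_apply']
    show (((h80d q hN)^[n] u).1 + 1) % ((q + 4) * N) = _
    rw [ih, Nat.mod_add_mod, Nat.add_assoc]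

private theorem h80_itm (hN : 1 ≤ N) (n : ℕ) (u : Fin ((q + 4) * N)) :
    ((h80d q hN)^[n] u).1 % (q + 4) = (u.1 + n) % (q + 4) := by
  rw [h80_it, Nat.mod_mul_right_mod]

private theorem h80_itd (hN : 1 ≤ N) (n : ℕ) (u : Fin ((q + 4) * N)) :
    ((h80d q hN)^[n] u).1 / (q + 4) = (u.1 + n) / (q + 4) % N := by
  rw [h80_it, Nat.mod_mul_right_div_self]

private theorem h80_lt (u : Fin ((q + 4) * N)) : u.1 / (q + 4) < N :=
  Nat.div_lt_of_lt_mul u.2

/-- a multiple of `q + 4` -/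
private theorem h80_mul {a n : ℕ} (ha : a % (q + 4) = 0) (hn : n < q + 4) :
    (a + n) % (q + 4) = n ∧ (a + n) / (q + 4) = a / (q + 4) := by
  obtain ⟨k, rfl⟩ := Nat.dvd_of_mod_eq_zero ha
  have hp : 0 < q + 4 := by omega
  constructor
  · rw [Nat.mul_add_mod, Nat.mod_eq_of_lt hn]
  · rw [Nat.mul_add_div hp, Nat.div_eq_of_lt hn, Nat.add_zero, Nat.mul_div_cancel_left _ hp]

private theorem h80_E (hN : 1 ≤ N) (f : ℕ → ℕ → Fin q) {u v : Fin ((q + 4) * N)} {n : ℕ}
    (hu : u.1 % (q + 4) = 0) (hv : v.1 % (q + 4) = 0) (hn : n < q + 4) :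
    h80E q f u ((h80d q hN)^[n] v) ↔ ((n = 1 ∧ u.1 / (q + 4) = v.1 / (q + 4)) ∨
    (n = 2 ∧ u.1 / (q + 4) < v.1 / (q + 4)) ∨ (n = 3 ∧ u.1 / (q + 4) = N - 1) ∨
    ∃ γ : Fin q, n = γ.1 + 4 ∧ f (u.1 / (q + 4)) (v.1 / (q + 4)) = γ) := by
  unfold h80E
  rw [h80_itm, h80_itd, (h80_mul hv hn).1, (h80_mul hv hn).2, Nat.mod_eq_of_lt (h80_lt v)]
  exact and_iff_right hu

private theorem h80_bs (hN : 1 ≤ N) (f : ℕ → ℕ → Fin q) (u : Fin ((q + 4) * N)) :
    bs (h80d q hN) (h80E q f) u ↔ u.1 % (q + 4) = 0 := by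
  constructor
  · exact fun h => h.1
  · intro h
    exact (h80_E hN f (n := 1) h h (by omega)).2 (Or.inl ⟨rfl, rfl⟩)

private theorem h80_succ (hN : 1 ≤ N) (u : Fin ((q + 4) * N)) :
    ((h80d q hN)^[q + 4] u).1 / (q + 4) = (u.1 / (q + 4) + 1) % N := by
  rw [h80_itd, Nat.add_div_right _ (by omega)]

private theorem h80_ext {u v : Fin ((q + 4) * N)} (hu : u.1 % (q + 4) = 0) (hv : v.1 % (q + 4) = 0)
    (h : u.1 / (q + 4) = v.1 / (q + 4)) : u = v := by
  apply Fin.ext
  rw [← Nat.div_add_mod u.1 (q + 4), ← Nat.div_add_mod v.1 (q + 4), hu, hv, h]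

theorem w1_complete (W : Wang (Fin q)) {N : ℕ} (hN : 1 ≤ N) (hT : Tiles W N) :
    (q + 4) * N ∈ sz1 W := by
  obtain ⟨f, fR, fU, fl, fr, fb, ft, fc⟩ := hT
  have hq : 0 < q + 4 := by omega
  refine ⟨Nat.mul_pos hq hN, Fin ((q + 4) * N), inferInstance, h80d q hN, h80E q f,
    Fintype.card_fin _, ?_, ?_, ?_⟩
  · rintro u ⟨h1, h2⟩
    rcases h2 with h2 | h2 | h2 | ⟨γ, h2, -⟩
    · omega
    · omega
    · omega
    · omega
  · intro u e
    have h1 := congrArg (fun x : Fin ((q + 4) * N) => x.1 % (q + 4)) e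
    have h2 := h80_itm hN 1 u
    have h3 : (h80d q hN)^[1] u = h80d q hN u := rfl
    rw [h3, h1] at h2
    have h4 := Nat.add_mod u.1 1 (q + 4)
    have h5 : u.1 % (q + 4) < q + 4 := Nat.mod_lt _ hq
    have h6 : 1 % (q + 4) = 1 := Nat.mod_eq_of_lt (by omega)
    rw [← h2, h6] at h4
    rcases Nat.lt_or_ge (u.1 % (q + 4) + 1) (q + 4) with h7 | h7
    · rw [Nat.mod_eq_of_lt h7] at h4
      omega
    · have h8 : u.1 % (q + 4) + 1 = q + 4 := by omega
      rw [h8, Nat.mod_self] at h4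
      omega
  intro u v
  refine ⟨?_, ?_, ?_⟩
  · intro e
    have h1 := congrArg Fin.val e
    have h2 : (u.1 + 1) % ((q + 4) * N) = (v.1 + 1) % ((q + 4) * N) := h1
    have h3 : u.1 % ((q + 4) * N) = v.1 % ((q + 4) * N) := Nat.ModEq.add_right_cancel' 1 h2
    rw [Nat.mod_eq_of_lt u.2, Nat.mod_eq_of_lt v.2] at h3
    exact Fin.ext h3
  · simp only [h80_bs, h80_itm]
    have h5 : u.1 % (q + 4) < q + 4 := Nat.mod_lt _ hq
    rcases Nat.eq_zero_or_pos (u.1 % (q + 4)) with h6 | h6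
    · refine ⟨⟨0, hq⟩, h6, fun i hi => ?_⟩
      rw [(h80_mul h6 i.2).1] at hi
      exact Fin.ext hi
    · have key : ∀ i : ℕ, i < q + 4 → ((u.1 + i) % (q + 4) = 0 ↔ i = q + 4 - u.1 % (q + 4)) := by
        intro i hi
        rw [Nat.add_mod, Nat.mod_eq_of_lt hi]
        rcases Nat.lt_or_ge (u.1 % (q + 4) + i) (q + 4) with h7 | h7
        · rw [Nat.mod_eq_of_lt h7]
          omega
        · rw [Nat.mod_eq_sub_mod h7, Nat.mod_eq_of_lt (by omega)]
          omega
      refine ⟨⟨q + 4 - u.1 % (q + 4), by omega⟩, (key _ (by omega)).2 rfl, fun i hi => ?_⟩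
      exact Fin.ext ((key _ i.2).1 hi)
  · rw [h80_bs, h80_bs]
    intro hu hv
    have hFu : ((h80d q hN)^[q + 4] u).1 % (q + 4) = 0 := by
      rw [h80_itm, Nat.add_mod_right, hu]
    have hFv : ((h80d q hN)^[q + 4] v).1 % (q + 4) = 0 := by
      rw [h80_itm, Nat.add_mod_right, hv]
    have hlt : ∀ u v : Fin ((q + 4) * N), u.1 % (q + 4) = 0 → v.1 % (q + 4) = 0 →
        (lt1 (h80d q hN) (h80E q f) u v ↔ u.1 / (q + 4) < v.1 / (q + 4)) := by
      intro u v hu hv
      unfold lt1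
      rw [h80_E hN f hu hv (by omega)]
      constructor
      · rintro (h | h | h | ⟨γ, h, -⟩)
        · omega
        · exact h.2
        · omega
        · omega
      · exact fun h => Or.inr (Or.inl ⟨rfl, h⟩)
    have hla : ∀ u : Fin ((q + 4) * N), u.1 % (q + 4) = 0 →
        (la1 (h80d q hN) (h80E q f) u ↔ u.1 / (q + 4) = N - 1) := by
      intro u hu
      unfold la1
      rw [h80_E hN f hu hu (by omega)]
      constructor
      · rintro (h | h | h | ⟨γ, h, -⟩)
        · omega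
        · omega
        · exact h.2
        · omega
      · exact fun h => Or.inr (Or.inr (Or.inl ⟨rfl, h⟩))
    have hti : ∀ (γ : Fin q) (u v : Fin ((q + 4) * N)), u.1 % (q + 4) = 0 → v.1 % (q + 4) = 0 →
        (ti1 (h80d q hN) (h80E q f) γ u v ↔ f (u.1 / (q + 4)) (v.1 / (q + 4)) = γ) := by
      intro γ u v hu hv
      unfold ti1
      rw [h80_E hN f hu hv (by have := γ.2; omega)]
      constructor
      · rintro (h | h | h | ⟨γ', h, h'⟩)
        · omega
        · omega
        · omega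
        · have : γ = γ' := Fin.ext (by omega)
          rw [this]
          exact h'
      · exact fun h => Or.inr (Or.inr (Or.inr ⟨γ, rfl, h⟩))
    have cu := h80_lt u
    have cv := h80_lt v
    have su := h80_succ hN u
    have sv := h80_succ hN v
    have nx : ∀ a : ℕ, a < N → a ≠ N - 1 → (a + 1) % N = a + 1 := fun a h1 h2 =>
      Nat.mod_eq_of_lt (by omega)
    have n0 : (N - 1 + 1) % N = 0 := by rw [Nat.sub_add_cancel hN, Nat.mod_self]
    refine ⟨?_, ?_, ?_, ?_, ?_, ?_, ?_, ?_, ?_, ?_, ?_, ?_⟩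
    · rw [hlt u u hu hu]
      omega
    · rw [hla v hv, hlt u _ hu hFv, hlt u v hu hv, sv]
      intro h1
      rw [nx _ cv h1]
      constructor
      · intro h2
        rcases Nat.lt_or_ge (u.1 / (q + 4)) (v.1 / (q + 4)) with h3 | h3
        · exact Or.inl h3
        · exact Or.inr (h80_ext hu hv (by omega))
      · rintro (h2 | h2)
        · omega
        · rw [h2]
          omega
    · rw [hla u hu, hla v hv]
      intro h1 h2
      exact h80_ext hu hv (h1.trans h2.symm)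
    · exact ⟨_, (hti _ u v hu hv).2 rfl⟩
    · intro γ γ'
      rw [hti _ u v hu hv, hti _ u v hu hv]
      intro h1 h2
      rw [← h1, ← h2]
    · rw [hla u hu]
      intro h1 γ γ'
      rw [hti _ u v hu hv, hti _ _ v hFu hv, su, nx _ cu h1]
      intro h2 h3
      rw [← h2, ← h3]
      exact fR _ _ (by omega) cv
    · rw [hla v hv]
      intro h1 γ γ'
      rw [hti _ u v hu hv, hti _ u _ hu hFv, sv, nx _ cv h1]
      intro h2 h3
      rw [← h2, ← h3]
      exact fU _ _ cu (by omega)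
    · rw [hla u hu]
      intro h1 γ
      rw [hti _ _ v hFu hv, su, h1, n0]
      intro h2
      rw [← h2]
      exact fl _ cv
    · rw [hla u hu]
      intro h1 γ
      rw [hti _ u v hu hv, h1]
      intro h2
      rw [← h2]
      exact fr _ cv
    · rw [hla v hv]
      intro h1 γ
      rw [hti _ u _ hu hFv, sv, h1, n0]
      intro h2
      rw [← h2]
      exact fb _ cu
    · rw [hla v hv]
      intro h1 γ
      rw [hti _ u v hu hv, h1]
      intro h2
      rw [← h2]
      exact ft _ cu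
    · rw [hla u hu, hla v hv]
      intro h1 h1' γ
      rw [hti _ _ _ hFu hFv, su, sv, h1, h1', n0]
      intro h2
      rw [← h2]
      exact fc

theorem w1_sizes (W : Wang (Fin q)) {N : ℕ} (hN : 1 ≤ N) : Tiles W N ↔ (q + 4) * N ∈ sz1 W := by
  refine ⟨w1_complete W hN, ?_⟩
  rintro ⟨h1, M, hM, d, E, hcard, -, -, h⟩
  have : Nonempty M := Fintype.card_pos_iff.1 (by omega)
  obtain ⟨N', -, h2, h3⟩ := w1_sound W d E h
  rw [Nat.card_eq_fintype_card, hcard] at h2
  have h4 : N = N' := Nat.eq_of_mul_eq_mul_left (by omega) h2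
  rw [h4]
  exact h3

end complete

end Pool.Agent.Helper20.PV
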