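import Pool.Agent.Helper20.PV.W2Tor

/-!
# Coding of the torus by two unary functions

Soundness: `X` is the set of the base points; by `blk2` every orbit of `f` has length exactly `q + 11` and contains exactly one
base point, so `|M| = (q + 11) |X|`; the coded functions act on `X`.
Completeness: `M = X × Fin (q + 11)`, `X = Fin N × Fin N`, `f` adds `1` to the index modulo `q + 11`, and `g` codes the functions of
the torus at the indices `1, …, 7`, the diagonal at `8`, the tile at `9`; the only fixed index of `g` is `q + 10`.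
-/

set_option autoImplicit false

namespace Pool.Agent.Helper20.PV

open Pool.Agent.Helper29.Prefix

variable {q : ℕ}

/-- Transport of the axioms of the torus along an injective map. -/
private theorem transport {X M : Type} (W : Wang (Fin q)) {R Rm U Um ρ χ s : X → X}
    {R' Rm' U' Um' ρ' χ' s' : M → M} {z : X} {D : X → Prop} {D' : M → Prop}
    {T : Fin q → X → Prop} {T' : Fin q → M → Prop} (ι : X → M) (hι : Function.Injective ι)
    (h1 : ∀ x, R' (ι x) = ι (R x)) (h2 : ∀ x, Rm' (ι x) = ι (Rm x)) (h3 : ∀ x, U' (ι x) = ι (U x))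
    (h4 : ∀ x, Um' (ι x) = ι (Um x)) (h5 : ∀ x, ρ' (ι x) = ι (ρ x)) (h6 : ∀ x, χ' (ι x) = ι (χ x))
    (h7 : ∀ x, s' (ι x) = ι (s x)) (hD : ∀ x, D' (ι x) ↔ D x) (hT : ∀ γ x, T' γ (ι x) ↔ T γ x) (x : X) :
    TorAx W R' Rm' U' Um' ρ' χ' s' (ι z) D' T' (ι x) ↔ TorAx W R Rm U Um ρ χ s z D T x := by
  simp only [TorAx, h1, h2, h3, h4, h5, h6, h7, hι.eq_iff, hD, hT, ne_eq]

/-- The marked index of a point gives a base point. -/
private theorem bs_of_marked {M : Type} {f g : M → M} {x : M} (hx : f^[q + 11] x = x) {j : ℕ}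
    (hj : g (f^[j] x) = f^[j] x) : bs2 q f g (f^[j + 1] x) := by
  unfold bs2
  have h1 : f^[q + 10] (f^[j + 1] x) = f^[j] x := by
    rw [← Function.iterate_add_apply, show q + 10 + (j + 1) = j + (q + 11) by omega,
      Function.iterate_add_apply, hx]
  rw [h1, hj]

private theorem card_eq {M : Type} [Finite M] {f g : M → M} (h : ∀ x, blk2 q f g x) :
    Nat.card M = (q + 11) * Nat.card {x : M // bs2 q f g x} := by
  have hbij : Function.Bijective
      (fun p : {x : M // bs2 q f g x} × Fin (q + 11) => f^[p.2.1] p.1.1) := by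
    constructor
    · rintro ⟨⟨x, hx⟩, i⟩ ⟨⟨x', hx'⟩, i'⟩ he
      simp only at he
      obtain ⟨-, j, -, huniq⟩ := h (f^[i.1] x)
      have hi := i.2
      have hi' := i'.2
      have a1 : f^[q + 10 - i.1] (f^[i.1] x) = f^[q + 10] x := by
        rw [← Function.iterate_add_apply, show q + 10 - i.1 + i.1 = q + 10 by omega]
      have a2 : f^[q + 10 - i'.1] (f^[i.1] x) = f^[q + 10] x' := by
        rw [he, ← Function.iterate_add_apply, show q + 10 - i'.1 + i'.1 = q + 10 by omega]
      have b1 := huniq ⟨q + 10 - i.1, by omega⟩ (by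
        show g (f^[q + 10 - i.1] (f^[i.1] x)) = f^[q + 10 - i.1] (f^[i.1] x)
        rw [a1]; exact hx)
      have b2 := huniq ⟨q + 10 - i'.1, by omega⟩ (by
        show g (f^[q + 10 - i'.1] (f^[i.1] x)) = f^[q + 10 - i'.1] (f^[i.1] x)
        rw [a2]; exact hx')
      have b3 := congrArg Fin.val (b1.trans b2.symm)
      simp only at b3
      have b4 : i = i' := Fin.ext (by omega)
      subst b4
      have c1 : f^[q + 11 - i.1] (f^[i.1] x) = x := by
        rw [← Function.iterate_add_apply, show q + 11 - i.1 + i.1 = q + 11 by omega, (h x).1]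
      have c2 : f^[q + 11 - i.1] (f^[i.1] x') = x' := by
        rw [← Function.iterate_add_apply, show q + 11 - i.1 + i.1 = q + 11 by omega, (h x').1]
      have c3 : x = x' := by
        rw [← c1, he, c2]
      subst c3
      rfl
    · intro y
      obtain ⟨hy, j, hj, -⟩ := h y
      have hj2 := j.2
      refine ⟨⟨⟨f^[j.1 + 1] y, bs_of_marked hy hj⟩, ⟨q + 10 - j.1, by omega⟩⟩, ?_⟩
      simp only
      rw [← Function.iterate_add_apply, show q + 10 - j.1 + (j.1 + 1) = q + 11 by omega, hy]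
  rw [← Nat.card_congr (Equiv.ofBijective _ hbij), Nat.card_prod, Nat.card_eq_fintype_card (α := Fin _),
    Fintype.card_fin, mul_comm]

theorem w2_sound {M : Type} [Finite M] (W : Wang (Fin q)) (f g : M → M) (z : M) (h : ∀ x, W2Ax W f g z x) :
    ∃ N, 1 ≤ N ∧ Nat.card M = (q + 11) * N ^ 2 ∧ Tiles W N := by
  have hc := card_eq (fun x => (h x).1)
  have hb : ∀ (k : ℕ), 1 ≤ k → k ≤ 7 → ∀ x, bs2 q f g x → bs2 q f g (co2 f g k x) := by
    intro k hk1 hk7 x hx
    have h1 := ((h x).2.2 hx).1 ⟨k - 1, by omega⟩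
    simp only at h1
    rwa [show k - 1 + 1 = k by omega] at h1
  let F : (k : ℕ) → 1 ≤ k → k ≤ 7 → {x : M // bs2 q f g x} → {x : M // bs2 q f g x} :=
    fun k hk1 hk7 x => ⟨co2 f g k x.1, hb k hk1 hk7 x.1 x.2⟩
  obtain ⟨N, hN1, hN2, hN3⟩ := tor_sound (X := {x : M // bs2 q f g x}) W (F 1 (by norm_num) (by norm_num))
    (F 2 (by norm_num) (by norm_num)) (F 3 (by norm_num) (by norm_num)) (F 4 (by norm_num) (by norm_num))
    (F 5 (by norm_num) (by norm_num)) (F 6 (by norm_num) (by norm_num)) (F 7 (by norm_num) (by norm_num))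
    ⟨z, (h z).2.1⟩ (fun x => di2 f g x.1) (fun γ x => ti2 f g γ x.1) (fun x => by
      refine (transport W (R' := co2 f g 1) (Rm' := co2 f g 2) (U' := co2 f g 3) (Um' := co2 f g 4)
        (ρ' := co2 f g 5) (χ' := co2 f g 6) (s' := co2 f g 7) (D' := di2 f g) (T' := ti2 f g)
        (Subtype.val : {x : M // bs2 q f g x} → M) Subtype.val_injective
        (fun _ => rfl) (fun _ => rfl) (fun _ => rfl) (fun _ => rfl) (fun _ => rfl) (fun _ => rfl)
        (fun _ => rfl) (fun _ => Iff.rfl) (fun _ _ => Iff.rfl) x).1 ?_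
      exact ((h x.1).2.2 x.2).2)
  exact ⟨N, hN1, by rw [hc, hN2], hN3⟩

/-! ### The standard model -/

section Model

variable {X : Type}

/-- the function `f` of the standard model -/
private def fS (q : ℕ) (p : X × Fin (q + 11)) : X × Fin (q + 11) :=
  (p.1, ⟨(p.2.1 + 1) % (q + 11), Nat.mod_lt _ (by omega)⟩)

open Classical in
/-- the function `g` of the standard model -/
private noncomputable def gS (q : ℕ) (F : ℕ → X → X) (D : X → Prop) (τ : X → Fin q) (p : X × Fin (q + 11)) :
    X × Fin (q + 11) :=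
  if p.2.1 = 0 then (p.1, ⟨1, by omega⟩)
  else if p.2.1 ≤ 7 then (F p.2.1 p.1, ⟨0, by omega⟩)
  else if p.2.1 = 8 then (if D p.1 then (p.1, ⟨9, by omega⟩) else (p.1, ⟨10, by omega⟩))
  else if p.2.1 = 9 then (p.1, ⟨(τ p.1).1 + 10, by have := (τ p.1).2; omega⟩)
  else if h : p.2.1 < q + 10 then (p.1, ⟨p.2.1 + 1, by omega⟩)
  else (p.1, ⟨q + 10, by omega⟩)

private theorem fS_iter (k : ℕ) (p : X × Fin (q + 11)) :
    (fS q)^[k] p = (p.1, ⟨(p.2.1 + k) % (q + 11), Nat.mod_lt _ (by omega)⟩) := by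
  induction k with
  | zero =>
    refine Prod.ext rfl (Fin.ext ?_)
    simp only [Function.iterate_zero, id_eq, add_zero]
    exact (Nat.mod_eq_of_lt p.2.2).symm
  | succ k ih =>
    rw [Function.iterate_succ_apply', ih, fS]
    refine Prod.ext rfl (Fin.ext ?_)
    simp only
    rw [Nat.mod_add_mod, add_assoc]

private theorem fS_zero {k : ℕ} (hk : k < q + 11) (x : X) :
    (fS q)^[k] (x, ⟨0, by omega⟩) = (x, ⟨k, hk⟩) := by
  rw [fS_iter]
  refine Prod.ext rfl (Fin.ext ?_)
  simp only [zero_add]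
  exact Nat.mod_eq_of_lt hk

variable {F : ℕ → X → X} {D : X → Prop} {τ : X → Fin q}

private theorem gS_fix (p : X × Fin (q + 11)) : gS q F D τ p = p ↔ p.2.1 = q + 10 := by
  obtain ⟨x, i, hi⟩ := p
  constructor
  · intro h
    have h2 := congrArg (fun p => p.2.1) h
    unfold gS at h2
    simp only at h2 ⊢
    split_ifs at h2 with c1 c2 c3 c4 c5 c6
    all_goals simp only at h2
    all_goals omega
  · intro h
    simp only at h
    subst h
    unfold gS
    simp only
    rw [if_neg (by omega), if_neg (by omega), if_neg (by omega), if_neg (by omega), dif_neg (by omega)]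

private theorem gS_fun {k : ℕ} (hk : k < q + 11) (h1 : 1 ≤ k) (h7 : k ≤ 7) (x : X) :
    gS q F D τ (x, ⟨k, hk⟩) = (F k x, ⟨0, by omega⟩) := by
  unfold gS
  simp only
  rw [if_neg (by omega), if_pos h7]

private theorem S_blk (p : X × Fin (q + 11)) : blk2 q (fS q) (gS q F D τ) p := by
  obtain ⟨x, i, hi⟩ := p
  constructor
  · rw [fS_iter]
    refine Prod.ext rfl (Fin.ext ?_)
    simp only
    rw [Nat.add_mod_right, Nat.mod_eq_of_lt hi]
  · refine ⟨⟨q + 10 - i, by omega⟩, ?_, ?_⟩
    · rw [gS_fix, fS_iter]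
      simp only
      rw [show i + (q + 10 - i) = q + 10 by omega, Nat.mod_eq_of_lt (by omega)]
    · intro j hj
      rw [gS_fix, fS_iter] at hj
      simp only at hj
      refine Fin.ext ?_
      simp only
      have hj2 := j.2
      rcases Nat.lt_or_ge (i + j.1) (q + 11) with hlt | hge
      · rw [Nat.mod_eq_of_lt hlt] at hj
        omega
      · rw [Nat.mod_eq_sub_mod hge, Nat.mod_eq_of_lt (by omega)] at hj
        omega

private theorem S_bs (p : X × Fin (q + 11)) : bs2 q (fS q) (gS q F D τ) p ↔ p.2.1 = 0 := by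
  obtain ⟨x, i, hi⟩ := p
  unfold bs2
  rw [gS_fix, fS_iter]
  simp only
  constructor
  · intro h
    rcases Nat.eq_zero_or_pos i with h0 | h0
    · exact h0
    · rw [Nat.mod_eq_sub_mod (by omega), Nat.mod_eq_of_lt (by omega)] at h
      omega
  · rintro rfl
    rw [zero_add, Nat.mod_eq_of_lt (by omega)]

private theorem S_co {k : ℕ} (h1 : 1 ≤ k) (h7 : k ≤ 7) (x : X) :
    co2 (fS q) (gS q F D τ) k (x, ⟨0, by omega⟩) = (F k x, ⟨0, by omega⟩) := by
  unfold co2
  rw [fS_zero (by omega), gS_fun (by omega) h1 h7]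

private theorem S_di (x : X) : di2 (fS q) (gS q F D τ) (x, ⟨0, by omega⟩) ↔ D x := by
  unfold di2
  rw [fS_zero (by omega), fS_zero (by omega)]
  unfold gS
  simp only
  rw [if_neg (by omega), if_neg (by omega), if_pos trivial]
  split_ifs with h
  · simp [h]
  · simp [h]

private theorem S_ti (γ : Fin q) (x : X) :
    ti2 (fS q) (gS q F D τ) γ (x, ⟨0, by omega⟩) ↔ τ x = γ := by
  unfold ti2
  have hγ := γ.2
  rw [fS_zero (by omega), fS_zero (by omega)]
  unfold gS
  simp only
  rw [if_neg (by omega), if_neg (by omega), if_neg (by omega), if_pos trivial]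
  simp only [Prod.mk.injEq, true_and, Fin.mk.injEq, Nat.add_right_cancel_iff]
  exact Fin.ext_iff.symm

end Model

theorem w2_complete (W : Wang (Fin q)) {N : ℕ} (hN : 1 ≤ N) (hT : Tiles W N) :
    (q + 11) * N ^ 2 ∈ sz2 W := by
  obtain ⟨R, Rm, U, Um, ρ, χ, s, z, D, T, h⟩ := tor_complete W hN hT
  choose τ hτ using fun x => (h x).2.2.2.2.1
  have hτ2 : ∀ γ x, τ x = γ ↔ T γ x := by
    intro γ x
    constructor
    · rintro rfl
      exact hτ x
    · intro h1
      exact (h x).2.2.2.2.2.1 _ _ (hτ x) h1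
  set F : ℕ → Fin N × Fin N → Fin N × Fin N := fun k =>
    if k = 1 then R else if k = 2 then Rm else if k = 3 then U else if k = 4 then Um
    else if k = 5 then ρ else if k = 6 then χ else s with hF
  refine ⟨Nat.mul_pos (by omega) (pow_pos (by omega) 2), (Fin N × Fin N) × Fin (q + 11), inferInstance, fS q, gS q F D τ,
    (z, ⟨0, by omega⟩), ?_, ?_, ?_⟩
  · rw [Fintype.card_prod, Fintype.card_prod, Fintype.card_fin, Fintype.card_fin]
    ring
  · unfold fS gS
    simp only
    rw [if_pos trivial]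
    refine Prod.ext rfl (Fin.ext ?_)
    simp only [zero_add]
    exact Nat.mod_eq_of_lt (by omega)
  · intro p
    refine ⟨S_blk p, (S_bs _).2 rfl, fun hp => ?_⟩
    rw [S_bs] at hp
    obtain ⟨x, i, hi⟩ := p
    simp only at hp
    subst hp
    refine ⟨fun i => ?_, ?_⟩
    · have hi := i.2
      rw [S_co (by omega) (by omega), S_bs]
    · have hinj : Function.Injective (fun x : Fin N × Fin N => ((x, ⟨0, by omega⟩) :
          (Fin N × Fin N) × Fin (q + 11))) := fun a b hab => (Prod.ext_iff.1 hab).1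
      refine (transport W (z := z) (D := D) (T := T) (fun x : Fin N × Fin N => ((x, ⟨0, by omega⟩) :
          (Fin N × Fin N) × Fin (q + 11))) hinj (R := R) (Rm := Rm) (U := U) (Um := Um) (ρ := ρ)
          (χ := χ) (s := s) ?_ ?_ ?_ ?_ ?_ ?_ ?_ ?_ ?_ x).2 (h x)
      · intro x; exact S_co (F := F) (by norm_num) (by norm_num) x
      · intro x; exact S_co (F := F) (by norm_num) (by norm_num) x
      · intro x; exact S_co (F := F) (by norm_num) (by norm_num) x
      · intro x; exact S_co (F := F) (by norm_num) (by norm_num) x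
      · intro x; exact S_co (F := F) (by norm_num) (by norm_num) x
      · intro x; exact S_co (F := F) (by norm_num) (by norm_num) x
      · intro x; exact S_co (F := F) (by norm_num) (by norm_num) x
      · intro x; exact S_di x
      · intro γ x; exact (S_ti γ x).trans (hτ2 γ x)

/-- The sizes. -/
theorem w2_sizes (W : Wang (Fin q)) {N : ℕ} (hN : 1 ≤ N) :
    Tiles W N ↔ (q + 11) * N ^ 2 ∈ sz2 W := by
  constructor
  · exact w2_complete W hN
  · rintro ⟨-, M, _, f, g, z, hcard, -, h⟩
    obtain ⟨N', hN1, hN2, hN3⟩ := w2_sound W f g z h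
    rw [Nat.card_eq_fintype_card, hcard] at hN2
    have h1 : N ^ 2 = N' ^ 2 := Nat.eq_of_mul_eq_mul_left (by omega) hN2
    have h2 : N = N' := (Nat.pow_left_injective (by norm_num : (2 : ℕ) ≠ 0)) h1
    rw [h2]
    exact hN3

/-- The distinguished element can be eliminated. -/
theorem sz2_eq_AA (W : Wang (Fin q)) :
    sz2 W = {n : ℕ | 1 ≤ n ∧ ∃ (M : Type) (_ : Fintype M) (f g : M → M),
      Fintype.card M = n ∧ ∀ x y, W2AA W f g x y} := by
  ext n
  constructor
  · rintro ⟨hn, M, hM, f, g, z, hcard, -, h⟩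
    refine ⟨hn, M, hM, f, g, hcard, fun x y => ?_⟩
    have hz : ∀ (x : M) (i : Fin (q + 11)), g (f^[i.1] x) = f^[i.1] x →
        co2 f g 6 (co2 f g 5 (f^[i.1 + 1] x)) = z := by
      intro x i hi
      exact ((h _).2.2 (bs_of_marked (h x).1.1 hi)).2.2.2.1.1
    refine ⟨(h x).1, fun i j hi hj => (hz x i hi).trans (hz y j hj).symm, fun i hi hy => ?_⟩
    rw [hz x i hi] at hy
    rw [hy]
    exact h x
  · rintro ⟨hn, M, hM, f, g, hcard, h⟩
    obtain ⟨x0⟩ : Nonempty M := Fintype.card_pos_iff.1 (by omega)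
    obtain ⟨-, i0, hi0, -⟩ := (h x0 x0).1
    have hall : ∀ x, W2Ax W f g (co2 f g 6 (co2 f g 5 (f^[i0.1 + 1] x0))) x := by
      intro x
      obtain ⟨-, i, hi, -⟩ := (h x x0).1
      refine (h x _).2.2 i hi ?_
      exact (h x0 x).2.1 i0 i hi0 hi
    obtain ⟨N, hN1, hN2, hN3⟩ := w2_sound W f g _ hall
    rw [Nat.card_eq_fintype_card, hcard] at hN2
    rw [hN2]
    exact w2_complete W hN1 hN3

end Pool.Agent.Helper20.PV
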