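import Pool.Agent.Helper20.PV.Wild
import Pool.Agent.Helper20.PV.W1
import Pool.Agent.Helper20.PV.W2
import Pool.Agent.Helper20.PV.T12
import Pool.Agent.Helper20.PV.T3
import Pool.Agent.Helper20.PV.T4
import Pool.Agent.Helper20.PV.T5
import Pool.Agent.Helper20.PV.T5a
import Pool.Agent.Helper20.PV.T6

/-!
# The classification of the prefix-vocabulary classes
-/

set_option autoImplicit false

namespace Pool.Agent.Helper20.PV

open FirstOrder FirstOrder.Language Pool.Agent.Helper20.Spectra Pool.Agent.Helper20.OP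
  Pool.Agent.Helper29.Prefix

lemma VocSpectrum.pos {q : ℕ → Bool} {r k : ℕ} {ar : Fin k → ℕ} {mon : Bool} {A : Set ℕ}
    (hA : VocSpectrum q r ar mon A) : ∀ n ∈ A, 1 ≤ n := by
  obtain ⟨Rel, _, _, ψ, _, rfl⟩ := hA
  exact fun n hn => hn.1

lemma UltPeriodic.mul {A : Set ℕ} {p N : ℕ} (h : ∀ n, N ≤ n → (n ∈ A ↔ n + p ∈ A)) (m : ℕ) :
    ∀ n, N ≤ n → (n ∈ A ↔ n + m * p ∈ A) := by
  induction m with
  | zero => exact fun n _ => by simp
  | succ m ih =>
    intro n hn
    rw [ih n hn, h (n + m * p) (by omega)]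
    rw [Nat.succ_mul, Nat.add_assoc]

lemma ultPeriodic_iUnion {ι : Type} [Finite ι] {B : ι → Set ℕ} (h : ∀ i, UltPeriodic (B i)) :
    UltPeriodic (⋃ i, B i) := by
  classical
  have := Fintype.ofFinite ι
  choose p N hp hN using h
  refine ⟨∏ i, p i, ∑ i, N i, Finset.one_le_prod' (fun i _ => hp i), fun n hn => ?_⟩
  simp only [Set.mem_iUnion]
  refine exists_congr (fun i => ?_)
  obtain ⟨m, hm⟩ : p i ∣ ∏ i, p i := Finset.dvd_prod_of_mem p (Finset.mem_univ i)
  have h1 : N i ≤ ∑ i, N i := Finset.single_le_sum (f := N) (fun _ _ => Nat.zero_le _)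
    (Finset.mem_univ i)
  rw [hm, Nat.mul_comm]
  exact UltPeriodic.mul (hN i) m n (by omega)

theorem tame_main {q : ℕ → Bool} {r k : ℕ} {ar : Fin k → ℕ} {mon : Bool} {A : Set ℕ}
    (h : ¬ WildClass q r ar mon) (hA : VocSpectrum q r ar mon A) : UltPeriodic A := by
  by_cases hq : HasA q r
  swap
  · -- existential sentences
    have h1 := t1 hA hq
    exact ultPeriodic_of_add (p := 1) le_rfl (N := 0)
      (fun n _ hn => h1 n (n + 1) hn (by omega))
  by_cases hB : Big ar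
  · -- disjoint unions
    have hAA : ¬ HasAA q r := fun h' => h (Or.inr (Or.inr ⟨hB, Or.inl h'⟩))
    have hEA : ¬ HasEA q r := fun h' => h (Or.inr (Or.inr ⟨hB, Or.inr ⟨hq, Or.inl h'⟩⟩))
    have hc : ∀ i, ar i ≠ 0 := fun i h' => h (Or.inr (Or.inr ⟨hB, Or.inr ⟨hq, Or.inr ⟨i, h'⟩⟩⟩))
    obtain ⟨ι, _, B, rfl, h2⟩ := t2 hA hq hAA hEA hc
    refine ultPeriodic_iUnion (fun i => ?_)
    by_cases hne : (B i).Nonempty
    · obtain ⟨a, ha⟩ := hne
      have ha1 : 1 ≤ a := hA.pos a (Set.mem_iUnion.2 ⟨i, ha⟩)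
      exact ultPeriodic_of_add ha1 (N := 0) (fun n _ hn => h2 i n a hn ha)
    · rw [Set.not_nonempty_iff_eq_empty] at hne
      rw [hne]
      exact ⟨1, 0, le_rfl, fun n _ => by simp⟩
  cases mon with
  | true => exact t5 twLe_fun hA hB
  | false =>
    by_cases har : ∃ i, 1 ≤ ar i
    · have hAA : ¬ HasAA q r := fun h' => h (Or.inr (Or.inl ⟨rfl, h', har⟩))
      obtain ⟨p, N0, hp, h3⟩ := t3 hA hq hAA hB
      exact ultPeriodic_of_add hp (N := N0) h3
    · push Not at har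
      have h4 := t4 hA (fun i => by have := har i; omega) (fun h' => h (Or.inl ⟨rfl, h'⟩))
      rcases h4 with h4 | h4
      · obtain ⟨b, hb⟩ := h4.bddAbove
        refine ⟨1, b + 1, le_rfl, fun n hn => ?_⟩
        constructor
        · intro h5
          have := hb h5
          omega
        · intro h5
          have := hb h5
          omega
      · obtain ⟨b, hb⟩ := h4.bddAbove
        refine ⟨1, b + 1, le_rfl, fun n hn => ?_⟩
        have h6 : ∀ m, b + 1 ≤ m → m ∈ A := by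
          intro m hm
          by_contra h7
          have := hb h7
          omega
        exact ⟨fun _ => h6 _ (by omega), fun _ => h6 _ hn⟩

theorem tame_const {q : ℕ → Bool} {r k : ℕ} {ar : Fin k → ℕ} {mon : Bool} {A : Set ℕ}
    (h : ¬ WildClass q r ar mon) (har : ∀ i, ar i = 0) (hA : VocSpectrum q r ar mon A) :
    A.Finite ∨ Aᶜ.Finite := by
  cases mon with
  | true => exact t6 hA har
  | false => exact t4 hA har (fun h' => h (Or.inl ⟨rfl, h'⟩))

theorem pv_main (q : ℕ → Bool) (r k : ℕ) (ar : Fin k → ℕ) (mon : Bool) :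
    (WildClass q r ar mon →
      (∃ U : Set ℕ, VocSpectrum q r ar mon U ∧ ∀ A : Set ℕ, IsSpectrum A ↔
        ∃ h : Polynomial ℕ, A = {n : ℕ | 1 ≤ n ∧ h.eval n ∈ U}) ∧
      ((∀ A : Set ℕ, VocSpectrum q r ar mon A → IsRudimentary A) ↔
        ∀ A : Set ℕ, IsSpectrum A ↔ (IsRudimentary A ∧ 0 ∉ A))) ∧
    (¬ WildClass q r ar mon →
      (∀ A : Set ℕ, VocSpectrum q r ar mon A → UltPeriodic A) ∧
      ((∀ i, ar i = 0) → ∀ A : Set ℕ, VocSpectrum q r ar mon A → A.Finite ∨ Aᶜ.Finite)) := by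
  refine ⟨fun h => ?_, fun h => ⟨fun A hA => tame_main h hA, fun har A hA => tame_const h har hA⟩⟩
  exact wild_of_univ (univ_wild w1_sizes w2_sizes sz2_eq_AA h) (fun A hA => hA.isSpectrum)

end Pool.Agent.Helper20.PV
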