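import Pool.Agent.Helper20.PV.TDefs

/-!
# One unary function: duplication of a preimage-closed set, existence of a long path without branching

hasExt_dup: M' = M + (K x Fin s), s = p / |K|; f' on M is f; f' (y,j) = (f y, j) if f y in K, else inl (f y); R' = R after the
projection M' -> M; lift of inl x: inl; lift of (x,j): y in K -> (y,j), y not in K -> inl y.
exists_win: bad := constants + elements which do not have exactly one preimage. Without small K the elements without
preimage are constants, so |bad| <= 2c, and as many elements have their image in bad. So some y has y, f y, ..., f^(B-1) y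
not bad; a i := f^i y.
-/

set_option autoImplicit false

namespace Pool.Agent.Helper20.PV

theorem hasExt_dup {M : Type} [Fintype M] {ι : Type} (Rel : ℕ → Type) (f : M → M) (cst : ι → M)
    (Cl : M → Finset M) (R : ∀ l, Rel l → (Fin l → M) → Prop) (p : ℕ) (K : Finset M)
    (hK : K.Nonempty) (hf : ∀ y, f y ∈ K → y ∈ K) (hc : ∀ i, cst i ∉ K) (hp : K.card ∣ p) :
    HasExt Rel f cst Cl R p := by
  classical
  have _h := hK
  obtain ⟨Q, rfl⟩ := hp
  let π : M ⊕ (K × Fin Q) → M := Sum.elim id fun z => z.1
  let f' : M ⊕ (K × Fin Q) → M ⊕ (K × Fin Q) := Sum.elim (fun x => Sum.inl (f x)) fun z =>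
    if h : f z.1 ∈ K then Sum.inr (⟨f z.1, h⟩, z.2) else Sum.inl (f z.1)
  refine ⟨M ⊕ (K × Fin Q), inferInstance, f', fun i => Sum.inl (cst i), fun l ρ τ => R l ρ fun i => π (τ i), ?_, ?_⟩
  · simp
  · rintro (x | ⟨y, q⟩)
    · exact ⟨x, Sum.inl, rfl, Sum.inl_injective.injOn, fun _ => rfl, fun _ _ _ => rfl, fun l ρ τ _ => Iff.rfl⟩
    · let σ : M → M ⊕ (K × Fin Q) := fun z => if h : z ∈ K then Sum.inr (⟨z, h⟩, q) else Sum.inl z
      have hπ : ∀ z, π (σ z) = z := by
        intro z
        simp only [σ]
        split_ifs <;> rfl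
      refine ⟨y.1, σ, ?_, ?_, ?_, ?_, ?_⟩
      · simp only [σ]
        rw [dif_pos y.2]
      · intro a _ b _ hab
        rw [← hπ a, ← hπ b, hab]
      · intro i
        simp only [σ]
        rw [dif_neg (hc i)]
      · intro z _ _
        by_cases hz : z ∈ K
        · have e : σ z = Sum.inr (⟨z, hz⟩, q) := by
            simp only [σ]
            rw [dif_pos hz]
          rw [e]
          rfl
        · have e : σ z = Sum.inl z := by
            simp only [σ]
            rw [dif_neg hz]
          have hfz : f z ∉ K := fun h => hz (hf z h)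
          have e' : σ (f z) = Sum.inl (f z) := by
            simp only [σ]
            rw [dif_neg hfz]
          rw [e, e']
          rfl
      · intro l ρ τ _
        refine Iff.of_eq (congrArg (R l ρ) ?_)
        funext i
        exact hπ _

private theorem win_aux38 {M : Type} [Fintype M] (f : M → M) (K₀ : Finset M) (c B : ℕ) (hB : 1 ≤ B)
    (hc : K₀.card ≤ c) (hK : ∀ K : Finset M, K.Nonempty → (∀ y, f y ∈ K → y ∈ K) → (∀ y ∈ K₀, y ∉ K) →
      B < K.card) (hn : 2 * c * B < Fintype.card M) : ∃ a : ℕ → M,
    (∀ i j, i < B → j < B → a i = a j → i = j) ∧ (∀ i, i + 1 < B → f (a i) = a (i + 1)) ∧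
    (∀ i y, i + 1 < B → f y = a (i + 1) → y = a i) ∧ ∀ i, i < B → a i ∉ K₀ := by
  classical
  let d : M → ℕ := fun y => (Finset.univ.filter fun z => f z = y).card
  let bad : Finset M := Finset.univ.filter fun y => y ∈ K₀ ∨ d y ≠ 1
  have hbad : ∀ y, y ∉ bad ↔ y ∉ K₀ ∧ d y = 1 := by
    intro y
    simp only [bad, Finset.mem_filter, Finset.mem_univ, true_and, not_or, not_not]
  have huniq : ∀ y z z', y ∉ bad → f z = y → f z' = y → z = z' := by
    intro y z z' hy h1 h2
    obtain ⟨w, hw⟩ := Finset.card_eq_one.1 ((hbad y).1 hy).2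
    have g1 : z ∈ Finset.univ.filter fun z => f z = y := by simp [h1]
    have g2 : z' ∈ Finset.univ.filter fun z => f z = y := by simp [h2]
    rw [hw, Finset.mem_singleton] at g1 g2
    rw [g1, g2]
  have hd1 : ∀ y, y ∉ K₀ → 1 ≤ d y := by
    intro y hy
    by_contra hcon
    have h0 : d y = 0 := by omega
    have h1 := hK {y} (Finset.singleton_nonempty y) (by
      intro z hz
      rw [Finset.mem_singleton] at hz
      have : z ∈ Finset.univ.filter fun z => f z = y := by simp [hz]
      rw [Finset.card_eq_zero.1 h0] at this
      exact absurd this (Finset.notMem_empty z)) (by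
      intro z hz hzy
      rw [Finset.mem_singleton] at hzy
      rw [hzy] at hz
      exact hy hz)
    rw [Finset.card_singleton] at h1
    omega
  -- the number of elements with an image in `bad`
  have hsum : ∑ y, d y = Fintype.card M := by
    have := Finset.card_eq_sum_card_fiberwise (f := f) (s := Finset.univ) (t := Finset.univ)
      (fun x _ => Finset.mem_coe.2 (Finset.mem_univ _))
    rw [Finset.card_univ] at this
    exact this.symm
  have hsplit : ∑ y ∈ bad, d y + ∑ y ∈ badᶜ, d y = Fintype.card M := by
    rw [Finset.sum_add_sum_compl, hsum]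
  have hgood : ∑ y ∈ badᶜ, d y = badᶜ.card := by
    rw [Finset.card_eq_sum_ones]
    refine Finset.sum_congr rfl fun y hy => ?_
    exact ((hbad y).1 (Finset.mem_compl.1 hy)).2
  have hP : ∑ y ∈ bad, d y = bad.card := by
    have h1 := Finset.card_add_card_compl bad
    omega
  have hbc : bad.card ≤ 2 * c := by
    have h1 : 2 * (bad \ K₀).card ≤ ∑ y ∈ bad \ K₀, d y := by
      rw [mul_comm, ← smul_eq_mul]
      refine Finset.card_nsmul_le_sum _ _ _ fun y hy => ?_
      rw [Finset.mem_sdiff] at hy
      have h2 := hd1 y hy.2
      have h3 : d y ≠ 1 := by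
        intro h3
        exact ((hbad y).2 ⟨hy.2, h3⟩) hy.1
      omega
    have h2 : ∑ y ∈ bad \ K₀, d y ≤ ∑ y ∈ bad, d y :=
      Finset.sum_le_sum_of_subset Finset.sdiff_subset
    have h3 : bad.card ≤ (bad \ K₀).card + K₀.card := by
      have := Finset.card_le_card (Finset.subset_union_left (s₁ := bad) (s₂ := K₀))
      rw [← Finset.sdiff_union_self_eq_union] at this
      exact this.trans (Finset.card_union_le _ _)
    omega
  have hpre : (Finset.univ.filter fun z => f z ∈ bad).card = bad.card := by
    rw [← hP]
    rw [Finset.card_eq_sum_card_fiberwise (f := f) (s := Finset.univ.filter fun z => f z ∈ bad) (t := bad)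
      (fun x hx => by simpa using hx)]
    refine Finset.sum_congr rfl fun y hy => ?_
    simp only [d]
    congr 1
    ext z
    simp only [Finset.mem_filter, Finset.mem_univ, true_and]
    constructor
    · exact fun h => h.2
    · intro h
      exact ⟨by rw [h]; exact hy, h⟩
  -- going back along good elements
  have hback : ∀ i y y', (∀ j ≤ i, f^[j] y ∉ bad) → (∀ j ≤ i, f^[j] y' ∉ bad) → f^[i] y = f^[i] y' → y = y' := by
    intro i
    induction i with
    | zero => exact fun y y' _ _ h => h
    | succ i ih =>
      intro y y' h1 h2 h3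
      refine ih y y' (fun j hj => h1 j (by omega)) (fun j hj => h2 j (by omega)) ?_
      rw [Function.iterate_succ_apply', Function.iterate_succ_apply'] at h3
      refine huniq _ _ _ (h1 (i + 1) le_rfl) ?_ ?_
      · rw [Function.iterate_succ_apply']
      · rw [Function.iterate_succ_apply', h3]
  -- a long good chain
  obtain ⟨y, hy⟩ : ∃ y, ∀ i < B, f^[i] y ∉ bad := by
    by_contra hcon
    push Not at hcon
    let T : ℕ → Finset M := fun i =>
      Finset.univ.filter fun y => f^[i] y ∈ bad ∧ ∀ j < i, f^[j] y ∉ bad
    have hT : ∀ i, (T i).card ≤ bad.card := by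
      intro i
      cases i with
      | zero =>
        refine Finset.card_le_card fun y hy => ?_
        simp only [T, Finset.mem_filter] at hy
        exact hy.2.1
      | succ i =>
        rw [← hpre]
        refine Finset.card_le_card_of_injOn (fun y => f^[i] y) ?_ ?_
        · intro y hy
          simp only [T, Finset.coe_filter, Finset.mem_univ, true_and, Set.mem_ofPred_eq] at hy ⊢
          rw [← Function.iterate_succ_apply' f i y]
          exact hy.1
        · intro y hy y' hy' h
          simp only [T, Finset.coe_filter, Finset.mem_univ, true_and, Set.mem_ofPred_eq] at hy hy'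
          exact hback i y y' (fun j hj => hy.2 j (by omega)) (fun j hj => hy'.2 j (by omega)) h
    have hcov : (Finset.univ : Finset M) ⊆ (Finset.range B).biUnion T := by
      intro y _
      obtain ⟨i, hi, hi'⟩ := hcon y
      have hex : ∃ i, f^[i] y ∈ bad := ⟨i, hi'⟩
      rw [Finset.mem_biUnion]
      refine ⟨Nat.find hex, Finset.mem_range.2 ((Nat.find_min' hex hi').trans_lt hi), ?_⟩
      simp only [T, Finset.mem_filter, Finset.mem_univ, true_and]
      exact ⟨Nat.find_spec hex, fun j hj => Nat.find_min hex hj⟩
    have h1 := Finset.card_le_card hcov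
    rw [Finset.card_univ] at h1
    have h2 : ((Finset.range B).biUnion T).card ≤ B * bad.card := by
      refine Finset.card_biUnion_le.trans ?_
      refine (Finset.sum_le_card_nsmul _ _ bad.card fun n _ => hT n).trans ?_
      rw [Finset.card_range, smul_eq_mul]
    have h3 : B * bad.card ≤ B * (2 * c) := Nat.mul_le_mul_left B hbc
    have h4 : B * (2 * c) = 2 * c * B := mul_comm _ _
    omega
  -- no two elements are equal
  have hne : ∀ i j, i < j → j < B → f^[i] y ≠ f^[j] y := by
    intro i j hij hj h
    obtain ⟨m, rfl⟩ : ∃ m, j = i + m := ⟨j - i, by omega⟩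
    have hm : 1 ≤ m := by omega
    have hyy : y = f^[m] y := by
      refine hback i y (f^[m] y) (fun l hl => hy l (by omega)) (fun l hl => ?_) ?_
      · rw [← Function.iterate_add_apply]
        exact hy _ (by omega)
      · rw [← Function.iterate_add_apply]
        exact h
    have hcard := hK ((Finset.range m).image fun l => f^[l] y) ⟨y, Finset.mem_image.2 ⟨0, by
      rw [Finset.mem_range]; omega, rfl⟩⟩ (by
      intro z hz
      obtain ⟨l, hl, hfz⟩ := Finset.mem_image.1 hz
      rw [Finset.mem_range] at hl
      cases l with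
      | zero =>
        have hz' : z = f^[m - 1] y := by
          refine huniq y z _ (hy 0 (by omega)) hfz.symm ?_
          rw [← Function.iterate_succ_apply' f (m - 1) y, show (m - 1).succ = m by omega]
          exact hyy.symm
        rw [hz']
        exact Finset.mem_image.2 ⟨m - 1, by rw [Finset.mem_range]; omega, rfl⟩
      | succ l =>
        have hz' : z = f^[l] y := by
          refine huniq (f^[l + 1] y) z _ (hy _ (by omega)) hfz.symm ?_
          rw [Function.iterate_succ_apply']
        rw [hz']
        exact Finset.mem_image.2 ⟨l, by rw [Finset.mem_range]; omega, rfl⟩) (by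
      intro z hz hzK
      obtain ⟨l, hl, rfl⟩ := Finset.mem_image.1 hzK
      rw [Finset.mem_range] at hl
      exact ((hbad _).1 (hy l (by omega))).1 hz)
    have h2 := (Finset.card_image_le (s := Finset.range m) (f := fun l => f^[l] y))
    rw [Finset.card_range] at h2
    omega
  refine ⟨fun i => f^[i] y, ?_, ?_, ?_, ?_⟩
  · intro i j hi hj h
    by_contra hcon
    rcases Nat.lt_or_gt_of_ne hcon with h' | h'
    · exact hne i j h' hj h
    · exact hne j i h' hi h.symm
  · intro i _
    exact (Function.iterate_succ_apply' f i y).symm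
  · intro i z hi hz
    exact huniq (f^[i + 1] y) z _ (hy _ hi) hz (Function.iterate_succ_apply' f i y).symm
  · intro i hi
    exact ((hbad _).1 (hy i hi)).1

theorem exists_win {M : Type} [Fintype M] {ι : Type} [Fintype ι] (f : M → M) (cst : ι → M) (B : ℕ)
    (hB : 1 ≤ B)
    (hK : ∀ K : Finset M, K.Nonempty → (∀ y, f y ∈ K → y ∈ K) → (∀ i, cst i ∉ K) → B < K.card)
    (hM : 2 * Fintype.card ι * B < Fintype.card M) : ∃ a : ℕ → M, Win f cst B a := by
  classical
  obtain ⟨a, h1, h2, h3, h4⟩ := win_aux38 f (Finset.univ.image cst) (Fintype.card ι) B hB Finset.card_image_le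
    (fun K g1 g2 g3 => hK K g1 g2 fun i hi => g3 (cst i) (Finset.mem_image_of_mem cst (Finset.mem_univ i)) hi) hM
  exact ⟨a, h1, h2, fun i hi k hk => h4 i hi (hk ▸ Finset.mem_image_of_mem cst (Finset.mem_univ k)),
    fun i hi y hy => h3 i y hi hy⟩

end Pool.Agent.Helper20.PV
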