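import Mathlib

/-!
# One unary function, one universal quantifier: definitions
-/

set_option autoImplicit false

namespace Pool.Agent.Helper20.PV

/-- There is a bigger structure with `p` more elements all of whose points look, on a neighbourhood
`Cl x`, like a point `x` of `M`. -/
def HasExt {M : Type} [Fintype M] {ι : Type} (Rel : ℕ → Type) (f : M → M) (cst : ι → M)
    (Cl : M → Finset M) (R : ∀ l, Rel l → (Fin l → M) → Prop) (p : ℕ) : Prop :=
  ∃ (M' : Type) (_ : Fintype M') (f' : M' → M') (cst' : ι → M')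
    (R' : ∀ l, Rel l → (Fin l → M') → Prop), Fintype.card M' = Fintype.card M + p ∧
    ∀ x' : M', ∃ (x : M) (σ : M → M'), σ x = x' ∧ Set.InjOn σ (Cl x) ∧
      (∀ i, σ (cst i) = cst' i) ∧
      (∀ y ∈ Cl x, f y ∈ Cl x → σ (f y) = f' (σ y)) ∧
      ∀ (l : ℕ) (ρ : Rel l) (τ : Fin l → M), (∀ i, τ i ∈ Cl x) →
        (R' l ρ (fun i => σ (τ i)) ↔ R l ρ τ)

/-- `a 0, …, a (B - 1)` is a path of `f` through distinct elements which are not constants; inside
the path the preimages are unique -/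
structure Win {M ι : Type} (f : M → M) (cst : ι → M) (B : ℕ) (a : ℕ → M) : Prop where
  inj : ∀ i j, i < B → j < B → a i = a j → i = j
  step : ∀ i, i + 1 < B → f (a i) = a (i + 1)
  cst_ne : ∀ i, i < B → ∀ k, cst k ≠ a i
  pre : ∀ i, i + 1 < B → ∀ y, f y = a (i + 1) → y = a i

/-- the pairs `(a (u + L), a u)` with `u` near `s`, and the pairs `(y, y)` with `y` in neighbourhoods of
points near `a s` and of points near `a (s + L)` -/
def NearPair {M : Type} (Cl : M → Finset M) (a : ℕ → M) (W s L : ℕ) (y y' : M) : Prop :=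
  (∃ u, u < s + W ∧ s < u + W ∧ y = a (u + L) ∧ y' = a u) ∨
  (y = y' ∧ (∃ u, u < s + W ∧ s < u + W ∧ y ∈ Cl (a u)) ∧
    ∃ u, u < s + W ∧ s < u + W ∧ y ∈ Cl (a (u + L)))

/-- the relations do not distinguish the neighbourhoods of `a s` and of `a (s + L)` -/
def SelOK {M : Type} (Rel : ℕ → Type) (Cl : M → Finset M)
    (R : ∀ l, Rel l → (Fin l → M) → Prop) (a : ℕ → M) (W s L : ℕ) : Prop :=
  ∀ (l : ℕ) (ρ : Rel l) (τ τ' : Fin l → M), (∀ i, NearPair Cl a W s L (τ i) (τ' i)) →
    (R l ρ τ ↔ R l ρ τ')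

end Pool.Agent.Helper20.PV
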