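import Pool.Agent.Helper20.PV.WDefs

/-! Block W2Tor (target file: Pool/Agent/Helper20/PV/W2Tor.lean): the torus lemma.
Standard model: X = Fin N x Fin N, R (i,j) = (i+1,j), U (i,j) = (i,j+1) (mod N), ρ (i,j) = (0,j), χ (i,j) = (i,0), s (i,j) = (j,i),
z = (0,0), D (i,j) <-> j <= i, T γ x <-> f i j = γ. -/

set_option autoImplicit false

namespace Pool.Agent.Helper20.PV

open Pool.Agent.Helper29.Prefix

variable {q : ℕ}

section sound

variable {X : Type} [Finite X] {W : Wang (Fin q)} {R Rm U Um ρ χ s : X → X} {z : X}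
  {D : X → Prop} {T : Fin q → X → Prop}

/-- the algebraic part of the axioms -/
private structure h80T (R Rm U Um ρ χ s : X → X) (z : X) (D : X → Prop) : Prop where
  a1 : ∀ x, Rm (R x) = x
  a2 : ∀ x, R (Rm x) = x
  a3 : ∀ x, Um (U x) = x
  a4 : ∀ x, U (Um x) = x
  a5 : ∀ x, s (s x) = x
  b1 : ∀ x, R (U x) = U (R x)
  b2 : ∀ x, s (R x) = U (s x)
  b3 : ∀ x, ρ (R x) = ρ x
  b4 : ∀ x, χ (U x) = χ x
  b5 : ∀ x, χ (R x) = R (χ x)
  b6 : ∀ x, ρ (U x) = U (ρ x)
  b7 : ∀ x, s (ρ x) = χ (s x)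
  c1 : ∀ x, χ (ρ x) = z
  c2 : ∀ x, ρ (χ x) = z
  c3 : ∀ x, χ x = z → ρ x = x
  c4 : ∀ x, ρ x = z → χ x = x
  d1 : ∀ x, ρ x = z → D x
  d2 : ∀ x, χ x ≠ z → ρ x ≠ z → (D x ↔ D (Rm (Um x)))
  d3 : ∀ x, D x → ρ (U x) = z → χ (R x) = z

private theorem h80_alg (h : ∀ x, TorAx W R Rm U Um ρ χ s z D T x) :
    h80T R Rm U Um ρ χ s z D where
  a1 x := (h x).1.1
  a2 x := (h x).1.2.1
  a3 x := (h x).1.2.2.1
  a4 x := (h x).1.2.2.2.1
  a5 x := (h x).1.2.2.2.2
  b1 x := (h x).2.1.1
  b2 x := (h x).2.1.2.1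
  b3 x := (h x).2.1.2.2.1
  b4 x := (h x).2.1.2.2.2.1
  b5 x := (h x).2.1.2.2.2.2.1
  b6 x := (h x).2.1.2.2.2.2.2.1
  b7 x := (h x).2.1.2.2.2.2.2.2
  c1 x := (h x).2.2.1.1
  c2 x := (h x).2.2.1.2.1
  c3 x := (h x).2.2.1.2.2.1
  c4 x := (h x).2.2.1.2.2.2
  d1 x := (h x).2.2.2.1.1
  d2 x := (h x).2.2.2.1.2.2.1
  d3 x := (h x).2.2.2.1.2.2.2

namespace h80T

variable (H : h80T R Rm U Um ρ χ s z D)

include H

omit [Finite X] in
theorem injR : Function.Injective R := Function.LeftInverse.injective H.a1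
omit [Finite X] in
theorem injU : Function.Injective U := Function.LeftInverse.injective H.a3
omit [Finite X] in
theorem surR : Function.Surjective R := Function.RightInverse.surjective H.a2
omit [Finite X] in
theorem surU : Function.Surjective U := Function.RightInverse.surjective H.a4

omit [Finite X] in
theorem chiz : χ z = z := by
  have h1 := H.c4 (χ z) (H.c2 z)
  have h2 := H.c4 (χ (ρ z)) (H.c2 _)
  rw [H.c1 z] at h2
  exact h2

omit [Finite X] in
theorem rhoz : ρ z = z := H.c3 z H.chiz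

omit [Finite X] in
theorem sz : s z = z := by
  have h1 : s z = χ (s z) := by
    have := H.b7 z
    rwa [H.rhoz] at this
  have h2 : ρ (s z) = s z := by
    have := H.b7 (s z)
    rw [H.a5, H.chiz] at this
    have h3 := congrArg s this
    rwa [H.a5] at h3
  have h3 := H.c1 (s z)
  rw [h2, ← h1] at h3
  exact h3

omit [Finite X] in
theorem itR_chi (i : ℕ) (x : X) : χ (R^[i] x) = R^[i] (χ x) := by
  induction i with
  | zero => rfl
  | succ i ih => rw [Function.iterate_succ_apply', Function.iterate_succ_apply', H.b5, ih]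

omit [Finite X] in
theorem itR_rho (i : ℕ) (x : X) : ρ (R^[i] x) = ρ x := by
  induction i with
  | zero => rfl
  | succ i ih => rw [Function.iterate_succ_apply', H.b3, ih]

omit [Finite X] in
theorem itU_chi (i : ℕ) (x : X) : χ (U^[i] x) = χ x := by
  induction i with
  | zero => rfl
  | succ i ih => rw [Function.iterate_succ_apply', H.b4, ih]

omit [Finite X] in
theorem itU_rho (i : ℕ) (x : X) : ρ (U^[i] x) = U^[i] (ρ x) := by
  induction i with
  | zero => rfl
  | succ i ih => rw [Function.iterate_succ_apply', Function.iterate_succ_apply', H.b6, ih]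

omit [Finite X] in
theorem itR_s (i : ℕ) (x : X) : s (R^[i] x) = U^[i] (s x) := by
  induction i with
  | zero => rfl
  | succ i ih => rw [Function.iterate_succ_apply', Function.iterate_succ_apply', H.b2, ih]

omit [Finite X] in
theorem comm (j : ℕ) (x : X) : R (U^[j] x) = U^[j] (R x) := by
  induction j with
  | zero => rfl
  | succ i ih => rw [Function.iterate_succ_apply', Function.iterate_succ_apply', H.b1, ih]

omit [Finite X] in
theorem commRm (j : ℕ) (x : X) : Rm (U^[j] x) = U^[j] (Rm x) := by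
  apply H.injR
  rw [H.a2, H.comm, H.a2]

omit [Finite X] in
theorem s_inj : Function.Injective s := Function.LeftInverse.injective H.a5

omit [Finite X] in
theorem period_eq : Function.minimalPeriod R z = Function.minimalPeriod U z := by
  rw [Function.minimalPeriod_eq_minimalPeriod_iff]
  intro n
  unfold Function.IsPeriodicPt Function.IsFixedPt
  have h1 := H.itR_s n z
  rw [H.sz] at h1
  constructor
  · intro h2
    rw [← h1, h2, H.sz]
  · intro h2
    apply H.s_inj
    rw [h1, h2, H.sz]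

theorem per_pos : 0 < Function.minimalPeriod R z :=
  Function.minimalPeriod_pos_of_mem_periodicPts (H.injR.mem_periodicPts z)

omit [Finite X] in
theorem chi_b {b : X} (hb : ρ b = z) : χ b = b := H.c4 b hb

/-- the rows below the upper one -/
theorem low (j : ℕ) (hj : j < Function.minimalPeriod U z) :
    ∀ b : X, ρ b = z → (∀ i, R^[i] b ≠ z) → D (U^[j] b) := by
  induction j with
  | zero => intro b hb _; exact H.d1 b hb
  | succ j ih =>
    intro b hb hbz
    have h1 : χ (U^[j + 1] b) ≠ z := by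
      rw [H.itU_chi, H.chi_b hb]
      exact hbz 0
    have h2 : ρ (U^[j + 1] b) ≠ z := by
      rw [H.itU_rho, hb]
      intro h3
      exact absurd (Function.IsPeriodicPt.minimalPeriod_le (Nat.succ_pos j) h3) (not_le.2 hj)
    rw [H.d2 _ h1 h2, Function.iterate_succ_apply', H.a3, H.commRm]
    refine ih (by omega) (Rm b) ?_ ?_
    · rw [← H.b3 (Rm b), H.a2, hb]
    · intro i
      rcases i with _ | i
      · intro h3
        have h4 : Rm b = z := h3
        have h5 : b = R z := by rw [← h4, H.a2]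
        have hp := H.per_pos
        apply hbz (Function.minimalPeriod R z - 1)
        rw [h5, ← Function.iterate_succ_apply, Nat.succ_eq_add_one, Nat.sub_add_cancel hp]
        exact Function.iterate_minimalPeriod
      · rw [Function.iterate_succ_apply, H.a2]
        exact hbz i

theorem orbit {b : X} (hb : ρ b = z) : ∃ i, i < Function.minimalPeriod R z ∧ b = R^[i] z := by
  have h1 : ∃ i, R^[i] b = z := by
    by_contra h2
    push Not at h2
    have hp := H.per_pos
    rw [H.period_eq] at hp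
    have h3 := H.low (Function.minimalPeriod U z - 1) (by omega) b hb h2
    have h4 := H.d3 _ h3 (by
      rw [← Function.iterate_succ_apply' U, Nat.succ_eq_add_one, Nat.sub_add_cancel hp, H.itU_rho, hb]
      exact Function.iterate_minimalPeriod)
    rw [H.b5, H.itU_chi, H.chi_b hb] at h4
    exact h2 1 h4
  obtain ⟨i, hi⟩ := h1
  obtain ⟨p, hp, hpb⟩ := H.injR.mem_periodicPts b
  have h2 : R^[p * i] b = b := (hpb.mul_const i)
  have h3 : R^[p * i - i] z = b := by
    rw [← hi, ← Function.iterate_add_apply, Nat.sub_add_cancel (Nat.le_mul_of_pos_left i hp), h2]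
  refine ⟨(p * i - i) % Function.minimalPeriod R z, Nat.mod_lt _ H.per_pos, ?_⟩
  rw [Function.iterate_mod_minimalPeriod_eq, h3]

theorem cover (x : X) : ∃ i j, i < Function.minimalPeriod R z ∧ j < Function.minimalPeriod R z ∧
    x = R^[i] (U^[j] z) := by
  obtain ⟨i, hi, h1⟩ := H.orbit (H.c2 x)
  have h2 : ρ (s (ρ x)) = z := by
    have h3 := H.b7 (s (ρ x))
    rw [H.a5, H.c1] at h3
    have h4 := congrArg s h3
    rwa [H.a5, H.sz] at h4
  obtain ⟨j, hj, h3⟩ := H.orbit h2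
  have h4 : ρ x = U^[j] z := by
    have := congrArg s h3
    rwa [H.a5, H.itR_s, H.sz] at this
  obtain ⟨y, hy⟩ := (H.surR.iterate i) x
  obtain ⟨y', hy'⟩ := (H.surU.iterate j) y
  refine ⟨i, j, hi, hj, ?_⟩
  have h5 : χ y' = z := by
    have h6 : χ x = R^[i] (χ y') := by
      rw [← hy, ← hy', H.itR_chi, H.itU_chi]
    rw [h1] at h6
    exact (H.injR.iterate i h6).symm
  have h7 : ρ y' = z := by
    have h6 : ρ x = U^[j] (ρ y') := by
      rw [← hy, ← hy', H.itR_rho, H.itU_rho]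
    rw [h4] at h6
    exact (H.injU.iterate j h6).symm
  have h8 : y' = z := by rw [← H.c3 y' h5, h7]
  rw [← hy, ← hy', h8]

omit [Finite X] in
theorem chi_ij (i j : ℕ) : χ (R^[i] (U^[j] z)) = R^[i] z := by
  rw [H.itR_chi, H.itU_chi, H.chiz]

omit [Finite X] in
theorem rho_ij (i j : ℕ) : ρ (R^[i] (U^[j] z)) = U^[j] z := by
  rw [H.itR_rho, H.itU_rho, H.rhoz]

end h80T

omit [Finite X] in
private theorem h80_ne {f : X → X} {z : X} {i : ℕ} (h0 : 0 < i)
    (h : i < Function.minimalPeriod f z) : f^[i] z ≠ z := fun h1 =>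
  absurd (Function.IsPeriodicPt.minimalPeriod_le h0 h1) (not_le.2 h)

theorem tor_sound {X : Type} [Finite X] (W : Wang (Fin q)) (R Rm U Um ρ χ s : X → X) (z : X)
    (D : X → Prop) (T : Fin q → X → Prop) (h : ∀ x, TorAx W R Rm U Um ρ χ s z D T x) :
    ∃ N, 1 ≤ N ∧ Nat.card X = N ^ 2 ∧ Tiles W N := by
  have H := h80_alg h
  obtain ⟨N, hN⟩ : ∃ N, N = Function.minimalPeriod R z := ⟨_, rfl⟩
  have hNU : N = Function.minimalPeriod U z := by rw [hN, H.period_eq]
  have hpos : 1 ≤ N := hN ▸ H.per_pos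
  have hRN : R^[N] z = z := by rw [hN]; exact Function.iterate_minimalPeriod
  have hUN : U^[N] z = z := by rw [hNU]; exact Function.iterate_minimalPeriod
  refine ⟨N, hpos, ?_, ?_⟩
  · have h1 : Function.Bijective (fun p : Fin N × Fin N => R^[p.1.1] (U^[p.2.1] z)) := by
      constructor
      · rintro ⟨⟨i, hi⟩, ⟨j, hj⟩⟩ ⟨⟨i', hi'⟩, ⟨j', hj'⟩⟩ h2
        simp only at h2
        have h3 := congrArg χ h2
        have h4 := congrArg ρ h2
        rw [H.chi_ij, H.chi_ij] at h3
        rw [H.rho_ij, H.rho_ij] at h4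
        have h5 : i = i' := Function.iterate_injOn_Iio_minimalPeriod
          (f := R) (x := z) (by rw [Set.mem_Iio, ← hN]; exact hi)
          (by rw [Set.mem_Iio, ← hN]; exact hi') h3
        have h6 : j = j' := Function.iterate_injOn_Iio_minimalPeriod
          (f := U) (x := z) (by rw [Set.mem_Iio, ← hNU]; exact hj)
          (by rw [Set.mem_Iio, ← hNU]; exact hj') h4
        subst h5
        subst h6
        rfl
      · intro x
        obtain ⟨i, j, hi, hj, hx⟩ := H.cover x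
        exact ⟨(⟨i, hN ▸ hi⟩, ⟨j, hN ▸ hj⟩), hx.symm⟩
    rw [← Nat.card_eq_of_bijective _ h1, Nat.card_prod, Nat.card_eq_fintype_card, Fintype.card_fin,
      sq]
  · choose g hg using fun x => (h x).2.2.2.2.1
    have tR : ∀ x, χ (R x) ≠ z → W.R (g x) (g (R x)) := fun x =>
      (h x).2.2.2.2.2.2.1 _ _ (hg x) (hg _)
    have tU : ∀ x, ρ (U x) ≠ z → W.U (g x) (g (U x)) := fun x =>
      (h x).2.2.2.2.2.2.2.1 _ _ (hg x) (hg _)
    have tB := fun x => (h x).2.2.2.2.2.2.2.2 _ (hg x)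
    have hRU : ∀ i j, R (R^[i] (U^[j] z)) = R^[i + 1] (U^[j] z) := fun i j =>
      (Function.iterate_succ_apply' R i _).symm
    have hUR : ∀ i j, U (R^[i] (U^[j] z)) = R^[i] (U^[j + 1] z) := by
      intro i j
      rw [Function.iterate_succ_apply']
      induction i with
      | zero => rfl
      | succ i ih => rw [Function.iterate_succ_apply', Function.iterate_succ_apply', ← H.b1, ih]
    refine ⟨fun i j => g (R^[i] (U^[j] z)), ?_, ?_, ?_, ?_, ?_, ?_, ?_⟩
    · intro x y hx hy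
      have h1 := tR (R^[x] (U^[y] z))
      rw [hRU, H.chi_ij] at h1
      exact h1 (h80_ne (Nat.succ_pos x) (hN ▸ hx))
    · intro x y hx hy
      have h1 := tU (R^[x] (U^[y] z))
      rw [hUR, H.rho_ij] at h1
      exact h1 (h80_ne (Nat.succ_pos y) (hNU ▸ hy))
    · intro y hy
      exact (tB _).1 (by rw [H.chi_ij]; rfl)
    · intro y hy
      exact (tB _).2.1 (by rw [hRU, H.chi_ij, Nat.sub_add_cancel hpos, hRN])
    · intro x hx
      exact (tB _).2.2.1 (by rw [H.rho_ij]; rfl)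
    · intro x hx
      exact (tB _).2.2.2.1 (by rw [hUR, H.rho_ij, Nat.sub_add_cancel hpos, hUN])
    · exact (tB _).2.2.2.2 rfl

end sound

theorem tor_complete (W : Wang (Fin q)) {N : ℕ} (hN : 1 ≤ N) (hT : Tiles W N) :
    ∃ (R Rm U Um ρ χ s : Fin N × Fin N → Fin N × Fin N) (z : Fin N × Fin N)
      (D : Fin N × Fin N → Prop) (T : Fin q → Fin N × Fin N → Prop),
      ∀ x, TorAx W R Rm U Um ρ χ s z D T x := by
  obtain ⟨m, rfl⟩ : ∃ m, N = m + 1 := ⟨N - 1, by omega⟩
  obtain ⟨f, fR, fU, fl, fr, fb, ft, fc⟩ := hT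
  have hv : ∀ i : Fin (m + 1), i + 1 ≠ 0 → (i + 1).1 = i.1 + 1 := by
    intro i hi
    rw [Fin.val_add_one]
    rw [if_neg]
    intro h
    apply hi
    rw [h]
    simp
  have hl : ∀ i : Fin (m + 1), i + 1 = 0 → i.1 = m := by
    intro i hi
    by_contra h
    have h1 : i ≠ Fin.last m := fun h2 => h (by rw [h2]; rfl)
    have h2 := Fin.val_add_one i
    rw [if_neg h1, hi] at h2
    simp at h2
  have hm : ∀ i : Fin (m + 1), i ≠ 0 → (i - 1).1 + 1 = i.1 := by
    intro i hi
    have h1 : (i - 1) + 1 ≠ 0 := by rwa [sub_add_cancel]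
    have h2 := hv (i - 1) h1
    rw [sub_add_cancel] at h2
    exact h2.symm
  refine ⟨fun p => (p.1 + 1, p.2), fun p => (p.1 - 1, p.2), fun p => (p.1, p.2 + 1),
    fun p => (p.1, p.2 - 1), fun p => (0, p.2), fun p => (p.1, 0), fun p => (p.2, p.1), (0, 0),
    fun p => p.2.1 ≤ p.1.1, fun γ p => f p.1.1 p.2.1 = γ, ?_⟩
  rintro ⟨i, j⟩
  refine ⟨⟨?_, ?_, ?_, ?_, rfl⟩, ⟨rfl, rfl, rfl, rfl, rfl, rfl, rfl⟩, ⟨rfl, rfl, ?_, ?_⟩,
    ⟨?_, ?_, ?_, ?_⟩, ⟨⟨_, rfl⟩, ?_, ?_, ?_, ?_⟩⟩
  · simp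
  · simp
  · simp
  · simp
  · intro h
    simp only [Prod.mk.injEq] at h ⊢
    exact ⟨h.1.symm, trivial⟩
  · intro h
    simp only [Prod.mk.injEq] at h ⊢
    exact ⟨trivial, h.2.symm⟩
  · intro h
    simp only [Prod.mk.injEq] at h
    show j.1 ≤ i.1
    rw [h.2]
    exact Nat.zero_le _
  · intro h h1
    simp only [Prod.mk.injEq] at h ⊢
    have h2 : j.1 ≤ i.1 := h1
    rw [h.1] at h2
    refine ⟨h.1, Fin.ext ?_⟩
    exact Nat.le_zero.1 h2
  · intro h1 h2
    have hi : i ≠ 0 := fun h => h1 (by rw [h])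
    have hj : j ≠ 0 := fun h => h2 (by rw [h])
    show j.1 ≤ i.1 ↔ (j - 1).1 ≤ (i - 1).1
    have h3 := hm i hi
    have h4 := hm j hj
    omega
  · intro h1 h2
    simp only [Prod.mk.injEq] at h2 ⊢
    refine ⟨?_, trivial⟩
    have h3 := hl j h2.2
    have h4 : j.1 ≤ i.1 := h1
    have h5 : i = Fin.last m := Fin.ext (by
      have := i.2
      show i.1 = m
      omega)
    rw [h5]
    simp
  · intro γ γ' h1 h2
    rw [← h1, ← h2]
  · intro γ γ' h1 h2 h3
    rw [← h1, ← h2]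
    have h4 : i + 1 ≠ 0 := fun h => h3 (by show (i + 1, (0 : Fin (m + 1))) = (0, 0); rw [h])
    have h5 := hv i h4
    show W.R (f i.1 j.1) (f (i + 1).1 j.1)
    rw [h5]
    exact fR _ _ (by rw [← h5]; exact (i + 1).2) j.2
  · intro γ γ' h1 h2 h3
    rw [← h1, ← h2]
    have h4 : j + 1 ≠ 0 := fun h => h3 (by show ((0 : Fin (m + 1)), j + 1) = (0, 0); rw [h])
    have h5 := hv j h4
    show W.U (f i.1 j.1) (f i.1 (j + 1).1)
    rw [h5]
    exact fU _ _ i.2 (by rw [← h5]; exact (j + 1).2)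
  · intro γ h1
    rw [← h1]
    show ((i, (0 : Fin (m + 1))) = (0, 0) → W.l (f i.1 j.1)) ∧
      ((i + 1, (0 : Fin (m + 1))) = (0, 0) → W.r (f i.1 j.1)) ∧
      (((0 : Fin (m + 1)), j) = (0, 0) → W.b (f i.1 j.1)) ∧
      (((0 : Fin (m + 1)), j + 1) = (0, 0) → W.t (f i.1 j.1)) ∧
      ((i, j) = (0, 0) → W.c (f i.1 j.1))
    simp only [Prod.mk.injEq]
    refine ⟨?_, ?_, ?_, ?_, ?_⟩
    · rintro ⟨h2, -⟩
      rw [h2]
      exact fl _ j.2
    · rintro ⟨h2, -⟩
      rw [hl i h2]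
      exact fr _ j.2
    · rintro ⟨-, h2⟩
      rw [h2]
      exact fb _ i.2
    · rintro ⟨-, h2⟩
      rw [hl j h2]
      exact ft _ i.2
    · rintro ⟨h2, h3⟩
      rw [h2, h3]
      exact fc

end Pool.Agent.Helper20.PV
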