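import Pool.Agent.Helper29.Prefix.Wang

/-!
# The wild sides: axioms

`W1Ax`: two universal quantifiers, one unary function, one binary relation; sizes `(q + 4) * N`.
`W2Ax`: one universal quantifier, two unary functions and one distinguished element; sizes
`(q + 11) * N ^ 2`.
-/

set_option autoImplicit false

namespace Pool.Agent.Helper20.PV

open Pool.Agent.Helper29.Prefix

section W1

variable {q : ℕ} {M : Type}

/-- base points -/
def bs (d : M → M) (E : M → M → Prop) (u : M) : Prop := E u (d u)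

/-- the order of the base points -/
def lt1 (d : M → M) (E : M → M → Prop) (u v : M) : Prop := E u (d^[2] v)

/-- the last base point -/
def la1 (d : M → M) (E : M → M → Prop) (u : M) : Prop := E u (d^[3] u)

/-- the tile `γ` at the place `(u, v)` -/
def ti1 (d : M → M) (E : M → M → Prop) (γ : Fin q) (u v : M) : Prop := E u (d^[γ.1 + 4] v)

/-- the axioms of the class `∀∀`, one unary function `d`, one binary relation `E` -/
def W1Ax (W : Wang (Fin q)) (d : M → M) (E : M → M → Prop) (u v : M) : Prop :=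
  (d u = d v → u = v) ∧
  (∃ j : Fin (q + 4), bs d E (d^[j.1] u) ∧ ∀ i : Fin (q + 4), bs d E (d^[i.1] u) → i = j) ∧
  (bs d E u → bs d E v →
    ¬ lt1 d E u u ∧
    (¬ la1 d E v → (lt1 d E u (d^[q + 4] v) ↔ (lt1 d E u v ∨ u = v))) ∧
    (la1 d E u → la1 d E v → u = v) ∧
    (∃ γ : Fin q, ti1 d E γ u v) ∧
    (∀ γ γ' : Fin q, ti1 d E γ u v → ti1 d E γ' u v → γ = γ') ∧
    (¬ la1 d E u → ∀ γ γ' : Fin q, ti1 d E γ u v → ti1 d E γ' (d^[q + 4] u) v → W.R γ γ') ∧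
    (¬ la1 d E v → ∀ γ γ' : Fin q, ti1 d E γ u v → ti1 d E γ' u (d^[q + 4] v) → W.U γ γ') ∧
    (la1 d E u → ∀ γ : Fin q, ti1 d E γ (d^[q + 4] u) v → W.l γ) ∧
    (la1 d E u → ∀ γ : Fin q, ti1 d E γ u v → W.r γ) ∧
    (la1 d E v → ∀ γ : Fin q, ti1 d E γ u (d^[q + 4] v) → W.b γ) ∧
    (la1 d E v → ∀ γ : Fin q, ti1 d E γ u v → W.t γ) ∧
    (la1 d E u → la1 d E v → ∀ γ : Fin q, ti1 d E γ (d^[q + 4] u) (d^[q + 4] v) → W.c γ))

end W1

section W2

variable {q : ℕ}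

/-- The axioms of a square torus, at one point `x`. `R`, `U`: one step to the right, one step up;
`ρ x`: first point of the row of `x`; `χ x`: first point of the column of `x`; `s`: reflection;
`D`: on or below the diagonal; `T γ`: the tile is `γ`; `z`: the origin. -/
def TorAx {X : Type} (W : Wang (Fin q)) (R Rm U Um ρ χ s : X → X) (z : X) (D : X → Prop)
    (T : Fin q → X → Prop) (x : X) : Prop :=
  (Rm (R x) = x ∧ R (Rm x) = x ∧ Um (U x) = x ∧ U (Um x) = x ∧ s (s x) = x) ∧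
  (R (U x) = U (R x) ∧ s (R x) = U (s x) ∧ ρ (R x) = ρ x ∧ χ (U x) = χ x ∧
    χ (R x) = R (χ x) ∧ ρ (U x) = U (ρ x) ∧ s (ρ x) = χ (s x)) ∧
  (χ (ρ x) = z ∧ ρ (χ x) = z ∧ (χ x = z → ρ x = x) ∧ (ρ x = z → χ x = x)) ∧
  ((ρ x = z → D x) ∧ (χ x = z → D x → x = z) ∧
    (χ x ≠ z → ρ x ≠ z → (D x ↔ D (Rm (Um x)))) ∧ (D x → ρ (U x) = z → χ (R x) = z)) ∧
  ((∃ γ, T γ x) ∧ (∀ γ γ', T γ x → T γ' x → γ = γ') ∧
    (∀ γ γ', T γ x → T γ' (R x) → χ (R x) ≠ z → W.R γ γ') ∧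
    (∀ γ γ', T γ x → T γ' (U x) → ρ (U x) ≠ z → W.U γ γ') ∧
    ∀ γ, T γ x → (χ x = z → W.l γ) ∧ (χ (R x) = z → W.r γ) ∧ (ρ x = z → W.b γ) ∧
      (ρ (U x) = z → W.t γ) ∧ (x = z → W.c γ))

variable {M : Type}

/-- base points: the point `f^(K-1) x` is a fixed point of `g`, `K = q + 11` -/
def bs2 (q : ℕ) (f g : M → M) (x : M) : Prop := g (f^[q + 10] x) = f^[q + 10] x

/-- the coded functions on the base points, `i = 1, …, 7` for `R, R⁻, U, U⁻, ρ, χ, s` -/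
def co2 (f g : M → M) (i : ℕ) (x : M) : M := g (f^[i] x)

/-- the coded diagonal predicate -/
def di2 (f g : M → M) (x : M) : Prop := g (f^[8] x) = f^[9] x

/-- the coded tile -/
def ti2 (f g : M → M) (γ : Fin q) (x : M) : Prop := g (f^[9] x) = f^[γ.1 + 10] x

/-- all orbits of `f` have length `q + 11` and contain exactly one fixed point of `g` -/
def blk2 (q : ℕ) (f g : M → M) (x : M) : Prop :=
  f^[q + 11] x = x ∧
  ∃ j : Fin (q + 11), g (f^[j.1] x) = f^[j.1] x ∧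
    ∀ i : Fin (q + 11), g (f^[i.1] x) = f^[i.1] x → i = j

/-- the axioms of the class `∀`, two unary functions `f`, `g`, and one distinguished element `z` -/
def W2Ax (W : Wang (Fin q)) (f g : M → M) (z x : M) : Prop :=
  blk2 q f g x ∧ bs2 q f g z ∧
  (bs2 q f g x → (∀ i : Fin 7, bs2 q f g (co2 f g (i.1 + 1) x)) ∧
    TorAx W (co2 f g 1) (co2 f g 2) (co2 f g 3) (co2 f g 4) (co2 f g 5) (co2 f g 6) (co2 f g 7)
      z (di2 f g) (ti2 f g) x)

/-- the axioms of the class `∀∀`, two unary functions: the origin `χ (ρ x)` does not depend on `x` -/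
def W2AA (W : Wang (Fin q)) (f g : M → M) (x y : M) : Prop :=
  blk2 q f g x ∧
  (∀ i j : Fin (q + 11), g (f^[i.1] x) = f^[i.1] x → g (f^[j.1] y) = f^[j.1] y →
    co2 f g 6 (co2 f g 5 (f^[i.1 + 1] x)) = co2 f g 6 (co2 f g 5 (f^[j.1 + 1] y))) ∧
  (∀ i : Fin (q + 11), g (f^[i.1] x) = f^[i.1] x →
    y = co2 f g 6 (co2 f g 5 (f^[i.1 + 1] x)) → W2Ax W f g y x)

end W2

/-- the sizes of the models of `W1Ax` -/
def sz1 {q : ℕ} (W : Wang (Fin q)) : Set ℕ :=
  {n : ℕ | 1 ≤ n ∧ ∃ (M : Type) (_ : Fintype M) (d : M → M) (E : M → M → Prop),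
    Fintype.card M = n ∧ (∀ u, ¬ E u u) ∧ (∀ u, d u ≠ u) ∧ ∀ u v, W1Ax W d E u v}

/-- the sizes of the models of `W2Ax` -/
def sz2 {q : ℕ} (W : Wang (Fin q)) : Set ℕ :=
  {n : ℕ | 1 ≤ n ∧ ∃ (M : Type) (_ : Fintype M) (f g : M → M) (z : M),
    Fintype.card M = n ∧ f z = g z ∧ ∀ x, W2Ax W f g z x}

end Pool.Agent.Helper20.PV
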