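import Pool.Agent.Helper20.PV.Ex
import Pool.Agent.Helper20.PV.WDefs

/-!
# The wild sets in the vocabularies
-/

set_option autoImplicit false

namespace Pool.Agent.Helper20.PV

open FirstOrder FirstOrder.Language Pool.Agent.Helper20.Spectra Pool.Agent.Helper20.OP
  Pool.Agent.Helper29.Prefix

/-! ### Terms and conditions with operators -/

section Ops

variable {L : FirstOrder.Language.{0, 0}} {n : ℕ}

/-- a unary operation on elements, given by terms, which may depend on the variables -/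
def Op1 (L : FirstOrder.Language.{0, 0}) (n : ℕ)
    (f : (M : Type) → L.Structure M → (Fin n → M) → M → M) : Prop :=
  ∀ t : (M : Type) → L.Structure M → (Fin n → M) → M, Tm L n t →
    Tm L n (fun M S v => f M S v (t M S v))

/-- a binary condition on elements, given by quantifier-free formulas -/
def Op2 (L : FirstOrder.Language.{0, 0}) (n : ℕ)
    (E : (M : Type) → L.Structure M → (Fin n → M) → M → M → Prop) : Prop :=
  ∀ t t' : (M : Type) → L.Structure M → (Fin n → M) → M, Tm L n t → Tm L n t' →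
    Ex L n (fun M S v => E M S v (t M S v) (t' M S v))

lemma Op1.iter {f : (M : Type) → L.Structure M → (Fin n → M) → M → M} (hf : Op1 L n f) (m : ℕ) :
    Op1 L n (fun M S v => (f M S v)^[m]) := by
  induction m with
  | zero => exact fun t ht => ht
  | succ m ih =>
    intro t ht
    refine (hf _ (ih t ht)).congr (fun M S v => ?_)
    exact (Function.iterate_succ_apply' _ _ _).symm

lemma Op1.comp {f g : (M : Type) → L.Structure M → (Fin n → M) → M → M} (hf : Op1 L n f)
    (hg : Op1 L n g) : Op1 L n (fun M S v x => f M S v (g M S v x)) :=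
  fun t ht => hf _ (hg t ht)

variable {q : ℕ} {d : (M : Type) → L.Structure M → (Fin n → M) → M → M}
  {E : (M : Type) → L.Structure M → (Fin n → M) → M → M → Prop}
  {t t' : (M : Type) → L.Structure M → (Fin n → M) → M}

lemma ex_bs (hd : Op1 L n d) (hE : Op2 L n E) (ht : Tm L n t) :
    Ex L n (fun M S v => bs (d M S v) (E M S v) (t M S v)) :=
  hE _ _ ht (hd _ ht)

lemma ex_lt1 (hd : Op1 L n d) (hE : Op2 L n E) (ht : Tm L n t) (ht' : Tm L n t') :
    Ex L n (fun M S v => lt1 (d M S v) (E M S v) (t M S v) (t' M S v)) :=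
  hE _ _ ht (hd.iter 2 _ ht')

lemma ex_la1 (hd : Op1 L n d) (hE : Op2 L n E) (ht : Tm L n t) :
    Ex L n (fun M S v => la1 (d M S v) (E M S v) (t M S v)) :=
  hE _ _ ht (hd.iter 3 _ ht)

lemma ex_ti1 (hd : Op1 L n d) (hE : Op2 L n E) (γ : Fin q) (ht : Tm L n t) (ht' : Tm L n t') :
    Ex L n (fun M S v => ti1 (d M S v) (E M S v) γ (t M S v) (t' M S v)) :=
  hE _ _ ht (hd.iter _ _ ht')

lemma ex_w1 (W : Wang (Fin q)) (hd : Op1 L n d) (hE : Op2 L n E) (ht : Tm L n t)
    (ht' : Tm L n t') :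
    Ex L n (fun M S v => W1Ax W (d M S v) (E M S v) (t M S v) (t' M S v)) := by
  have hF := hd.iter (q + 4) _ ht
  have hF' := hd.iter (q + 4) _ ht'
  have hb := ex_bs hd hE ht
  have hb' := ex_bs hd hE ht'
  have hl := ex_la1 hd hE ht
  have hl' := ex_la1 hd hE ht'
  refine Ex.and ((Ex.eq (hd _ ht) (hd _ ht')).imp (Ex.eq ht ht'))
    (Ex.and ?_ (hb.imp (hb'.imp ?_)))
  · exact Ex.ex_fin (fun j => (ex_bs hd hE (hd.iter _ _ ht)).and (Ex.all_fin (fun i =>
      (ex_bs hd hE (hd.iter _ _ ht)).imp (Ex.const _))))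
  refine Ex.and (ex_lt1 hd hE ht ht).not (Ex.and (hl'.not.imp (Ex.iff (ex_lt1 hd hE ht hF')
    (Ex.or (ex_lt1 hd hE ht ht') (Ex.eq ht ht')))) ?_)
  refine Ex.and (hl.imp (hl'.imp (Ex.eq ht ht'))) ?_
  refine Ex.and (Ex.ex_fin (fun γ => ex_ti1 hd hE γ ht ht')) ?_
  refine Ex.and (Ex.all_fin (fun γ => Ex.all_fin (fun γ' => (ex_ti1 hd hE γ ht ht').imp
      ((ex_ti1 hd hE γ' ht ht').imp (Ex.const _))))) ?_
  refine Ex.and (hl.not.imp (Ex.all_fin (fun γ => Ex.all_fin (fun γ' =>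
    (ex_ti1 hd hE γ ht ht').imp ((ex_ti1 hd hE γ' hF ht').imp (Ex.const _)))))) ?_
  refine Ex.and (hl'.not.imp (Ex.all_fin (fun γ => Ex.all_fin (fun γ' =>
    (ex_ti1 hd hE γ ht ht').imp ((ex_ti1 hd hE γ' ht hF').imp (Ex.const _)))))) ?_
  refine Ex.and (hl.imp (Ex.all_fin (fun γ => (ex_ti1 hd hE γ hF ht').imp (Ex.const _)))) ?_
  refine Ex.and (hl.imp (Ex.all_fin (fun γ => (ex_ti1 hd hE γ ht ht').imp (Ex.const _)))) ?_
  refine Ex.and (hl'.imp (Ex.all_fin (fun γ => (ex_ti1 hd hE γ ht hF').imp (Ex.const _)))) ?_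
  refine Ex.and (hl'.imp (Ex.all_fin (fun γ => (ex_ti1 hd hE γ ht ht').imp (Ex.const _)))) ?_
  exact hl.imp (hl'.imp (Ex.all_fin (fun γ => (ex_ti1 hd hE γ hF hF').imp (Ex.const _))))

variable {f g : (M : Type) → L.Structure M → (Fin n → M) → M → M}

lemma ex_bs2 (hf : Op1 L n f) (hg : Op1 L n g) (ht : Tm L n t) :
    Ex L n (fun M S v => bs2 q (f M S v) (g M S v) (t M S v)) :=
  Ex.eq (hg _ (hf.iter _ _ ht)) (hf.iter _ _ ht)

lemma op_co2 (hf : Op1 L n f) (hg : Op1 L n g) (i : ℕ) :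
    Op1 L n (fun M S v => co2 (f M S v) (g M S v) i) :=
  fun _ ht => hg _ (hf.iter _ _ ht)

lemma ex_blk2 (hf : Op1 L n f) (hg : Op1 L n g) (ht : Tm L n t) :
    Ex L n (fun M S v => blk2 q (f M S v) (g M S v) (t M S v)) :=
  (Ex.eq (hf.iter _ _ ht) ht).and (Ex.ex_fin (fun j => (Ex.eq (hg _ (hf.iter _ _ ht))
    (hf.iter _ _ ht)).and (Ex.all_fin (fun i => (Ex.eq (hg _ (hf.iter _ _ ht))
    (hf.iter _ _ ht)).imp (Ex.const _)))))

lemma ex_tor (W : Wang (Fin q))
    {R Rm U Um ρ χ s : (M : Type) → L.Structure M → (Fin n → M) → M → M}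
    {z : (M : Type) → L.Structure M → (Fin n → M) → M}
    {D : (M : Type) → L.Structure M → (Fin n → M) → M → Prop}
    {T : (M : Type) → L.Structure M → (Fin n → M) → Fin q → M → Prop}
    (hR : Op1 L n R) (hRm : Op1 L n Rm) (hU : Op1 L n U) (hUm : Op1 L n Um) (hρ : Op1 L n ρ)
    (hχ : Op1 L n χ) (hs : Op1 L n s) (hz : Tm L n z)
    (hD : ∀ t : (M : Type) → L.Structure M → (Fin n → M) → M, Tm L n t →
      Ex L n (fun M S v => D M S v (t M S v)))
    (hT : ∀ (γ : Fin q) (t : (M : Type) → L.Structure M → (Fin n → M) → M), Tm L n t →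
      Ex L n (fun M S v => T M S v γ (t M S v))) (ht : Tm L n t) :
    Ex L n (fun M S v => TorAx W (R M S v) (Rm M S v) (U M S v) (Um M S v) (ρ M S v) (χ M S v)
      (s M S v) (z M S v) (D M S v) (T M S v) (t M S v)) := by
  have e1 := Ex.eq (hχ _ ht) hz
  have e2 := Ex.eq (hρ _ ht) hz
  have e3 := Ex.eq (hχ _ (hR _ ht)) hz
  have e4 := Ex.eq (hρ _ (hU _ ht)) hz
  refine Ex.and ?_ (Ex.and ?_ (Ex.and ?_ (Ex.and ?_ ?_)))
  · exact (Ex.eq (hRm _ (hR _ ht)) ht).and ((Ex.eq (hR _ (hRm _ ht)) ht).and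
      ((Ex.eq (hUm _ (hU _ ht)) ht).and ((Ex.eq (hU _ (hUm _ ht)) ht).and
      (Ex.eq (hs _ (hs _ ht)) ht))))
  · exact (Ex.eq (hR _ (hU _ ht)) (hU _ (hR _ ht))).and
      ((Ex.eq (hs _ (hR _ ht)) (hU _ (hs _ ht))).and
      ((Ex.eq (hρ _ (hR _ ht)) (hρ _ ht)).and ((Ex.eq (hχ _ (hU _ ht)) (hχ _ ht)).and
      ((Ex.eq (hχ _ (hR _ ht)) (hR _ (hχ _ ht))).and
      ((Ex.eq (hρ _ (hU _ ht)) (hU _ (hρ _ ht))).and
      (Ex.eq (hs _ (hρ _ ht)) (hχ _ (hs _ ht))))))))
  · exact (Ex.eq (hχ _ (hρ _ ht)) hz).and ((Ex.eq (hρ _ (hχ _ ht)) hz).and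
      ((e1.imp (Ex.eq (hρ _ ht) ht)).and (e2.imp (Ex.eq (hχ _ ht) ht))))
  · exact (e2.imp (hD _ ht)).and ((e1.imp ((hD _ ht).imp (Ex.eq ht hz))).and
      ((e1.not.imp (e2.not.imp (Ex.iff (hD _ ht) (hD _ (hRm _ (hUm _ ht)))))).and
      ((hD _ ht).imp (e4.imp e3))))
  · exact (Ex.ex_fin (fun γ => hT γ _ ht)).and
      ((Ex.all_fin (fun γ => Ex.all_fin (fun γ' => (hT γ _ ht).imp ((hT γ' _ ht).imp
        (Ex.const _))))).and
      ((Ex.all_fin (fun γ => Ex.all_fin (fun γ' => (hT γ _ ht).imp ((hT γ' _ (hR _ ht)).imp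
        (e3.not.imp (Ex.const _)))))).and
      ((Ex.all_fin (fun γ => Ex.all_fin (fun γ' => (hT γ _ ht).imp ((hT γ' _ (hU _ ht)).imp
        (e4.not.imp (Ex.const _)))))).and
      (Ex.all_fin (fun γ => (hT γ _ ht).imp ((e1.imp (Ex.const _)).and ((e3.imp (Ex.const _)).and
        ((e2.imp (Ex.const _)).and ((e4.imp (Ex.const _)).and
        ((Ex.eq ht hz).imp (Ex.const _)))))))))))

lemma ex_w2 (W : Wang (Fin q)) {z : (M : Type) → L.Structure M → (Fin n → M) → M}
    (hf : Op1 L n f) (hg : Op1 L n g) (hz : Tm L n z) (ht : Tm L n t) :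
    Ex L n (fun M S v => W2Ax W (f M S v) (g M S v) (z M S v) (t M S v)) := by
  refine (ex_blk2 hf hg ht).and ((ex_bs2 hf hg hz).and ((ex_bs2 hf hg ht).imp
    ((Ex.all_fin (fun i => ex_bs2 hf hg (op_co2 hf hg _ _ ht))).and ?_)))
  exact ex_tor W (op_co2 hf hg 1) (op_co2 hf hg 2) (op_co2 hf hg 3) (op_co2 hf hg 4)
    (op_co2 hf hg 5) (op_co2 hf hg 6) (op_co2 hf hg 7) hz
    (fun t ht => Ex.eq (hg _ (hf.iter _ _ ht)) (hf.iter _ _ ht))
    (fun γ t ht => Ex.eq (hg _ (hf.iter _ _ ht)) (hf.iter _ _ ht)) ht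

lemma ex_w2AA (W : Wang (Fin q)) (hf : Op1 L n f) (hg : Op1 L n g) (ht : Tm L n t)
    (ht' : Tm L n t') :
    Ex L n (fun M S v => W2AA W (f M S v) (g M S v) (t M S v) (t' M S v)) := by
  have h5 := op_co2 hf hg 5
  have h6 := op_co2 hf hg 6
  exact (ex_blk2 hf hg ht).and ((Ex.all_fin (fun i => Ex.all_fin (fun j =>
    (Ex.eq (hg _ (hf.iter _ _ ht)) (hf.iter _ _ ht)).imp
    ((Ex.eq (hg _ (hf.iter _ _ ht')) (hf.iter _ _ ht')).imp
    (Ex.eq (h6 _ (h5 _ (hf.iter _ _ ht))) (h6 _ (h5 _ (hf.iter _ _ ht')))))))).and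
    (Ex.all_fin (fun i => (Ex.eq (hg _ (hf.iter _ _ ht)) (hf.iter _ _ ht)).imp
    ((Ex.eq ht' (h6 _ (h5 _ (hf.iter _ _ ht)))).imp (ex_w2 W hf hg ht' ht)))))

end Ops

/-! ### The quantifiers -/

lemma snoc_one {M : Type} (x : M) : (Fin.snoc (default : Fin 0 → M) x : Fin 1 → M) = ![x] := by
  funext i
  fin_cases i
  rfl

lemma snoc_two {M : Type} (x y : M) :
    (Fin.snoc (Fin.snoc (default : Fin 0 → M) x : Fin 1 → M) y : Fin 2 → M) = ![x, y] := by
  funext i
  fin_cases i <;> rfl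

lemma preQ_A {M : Type} {w : ℕ → Bool} (h0 : w 0 = true) (P : (Fin 1 → M) → Prop) :
    preQ w 1 P ↔ ∀ x, P ![x] := by
  show (if w 0 = true then (∀ x : M, P (Fin.snoc default x)) else
    ∃ x : M, P (Fin.snoc default x)) ↔ _
  rw [if_pos h0]
  exact forall_congr' (fun x => by rw [snoc_one])

lemma preQ_AA {M : Type} {w : ℕ → Bool} (h0 : w 0 = true) (h1 : w 1 = true)
    (P : (Fin 2 → M) → Prop) : preQ w 2 P ↔ ∀ x y, P ![x, y] := by
  show (if w 0 = true then (∀ x : M, if w 1 = true then (∀ y : M,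
      P (Fin.snoc (Fin.snoc default x) y)) else
      ∃ y : M, P (Fin.snoc (Fin.snoc default x) y)) else _) ↔ _
  simp only [h0, h1, if_true, snoc_two]

lemma preQ_EA {M : Type} {w : ℕ → Bool} (h0 : w 0 = false) (h1 : w 1 = true)
    (P : (Fin 2 → M) → Prop) : preQ w 2 P ↔ ∃ x, ∀ y, P ![x, y] := by
  show (if w 0 = true then _ else ∃ x : M, if w 1 = true then (∀ y : M,
      P (Fin.snoc (Fin.snoc default x) y)) else
      ∃ y : M, P (Fin.snoc (Fin.snoc default x) y)) ↔ _
  simp only [h0, h1, if_true, snoc_two]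
  simp

/-! ### The vocabularies -/

section Voc

variable {q : ℕ → Bool} {r k : ℕ} {ar : Fin k → ℕ}

lemma HasAA.sub {mon : Bool} {A : Set ℕ} (h : HasAA q r)
    (hA : VocSpectrum (fun _ => true) 2 ar mon A) : VocSpectrum q r ar mon A := by
  obtain ⟨i, j, hij, hj, hi', hj'⟩ := h
  refine hA.sub ![⟨i, by omega⟩, ⟨j, hj⟩] ?_ ?_
  · intro a b hab
    fin_cases a <;> fin_cases b <;> simp [Fin.lt_def] at hab ⊢
    omega
  · intro a
    fin_cases a
    · exact hi'.symm
    · exact hj'.symm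

/-- the word `∃∀` -/
def wEA : ℕ → Bool := fun i => decide (i = 1)

lemma HasEA.sub {mon : Bool} {A : Set ℕ} (h : HasEA q r)
    (hA : VocSpectrum wEA 2 ar mon A) : VocSpectrum q r ar mon A := by
  obtain ⟨i, j, hij, hj, hi', hj'⟩ := h
  refine hA.sub ![⟨i, by omega⟩, ⟨j, hj⟩] ?_ ?_
  · intro a b hab
    fin_cases a <;> fin_cases b <;> simp [Fin.lt_def] at hab ⊢
    omega
  · intro a
    fin_cases a
    · exact hi'.symm
    · exact hj'.symm

lemma HasA.sub {mon : Bool} {A : Set ℕ} (h : HasA q r)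
    (hA : VocSpectrum (fun _ => true) 1 ar mon A) : VocSpectrum q r ar mon A := by
  obtain ⟨i, hi, hi'⟩ := h
  refine hA.sub ![⟨i, hi⟩] ?_ ?_
  · intro a b hab
    fin_cases a <;> fin_cases b <;> simp [Fin.lt_def] at hab
  · intro a
    fin_cases a
    exact hi'.symm

/-! #### Relational vocabularies -/

/-- the relational part -/
@[instance_reducible] def red {L : FirstOrder.Language.{0, 0}} (hL : L.IsRelational) {M : Type}
    (S : (voc ar L.Relations).Structure M) : L.Structure M where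
  funMap := fun {n} f _ => ((hL n).elim f : M)
  RelMap := fun {n} ρ a => rl (Rel := L.Relations) S (l := n) ρ a

lemma ex_red {L : FirstOrder.Language.{0, 0}} (hL : L.IsRelational) {n : ℕ}
    {ψ : L.BoundedFormula Empty n} (hψ : ψ.IsQF) :
    Ex (voc ar L.Relations) n (fun M S v =>
      @BoundedFormula.Realize L M (red hL S) _ _ ψ default v) := by
  have hterm : ∀ t : L.Term (Empty ⊕ Fin n), Tm (voc ar L.Relations) n (fun M S v =>
      @Term.realize L M (red hL S) _ (Sum.elim default v) t) := by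
    intro t
    cases t with
    | var a =>
      rcases a with a | i
      · exact a.elim
      · exact Tm.var i
    | func f _ => exact ((hL _).elim f)
  induction hψ with
  | falsum => exact Ex.false.congr (fun M S v => Iff.rfl)
  | of_isAtomic hA =>
    cases hA with
    | equal t₁ t₂ =>
      exact (Ex.eq (hterm t₁) (hterm t₂)).congr (fun M S v => by
        let _ := red hL S
        rw [BoundedFormula.realize_bdEqual])
    | rel ρ ts =>
      exact (Ex.rl ρ (fun j => hterm (ts j))).congr (fun M S v => by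
        let _ := red hL S
        rw [BoundedFormula.realize_rel]
        exact Iff.rfl)
  | imp _ _ ih₁ ih₂ =>
    exact (ih₁.imp ih₂).congr (fun M S v => by
      let _ := red hL S
      rw [BoundedFormula.realize_imp])

theorem voc_of_prefix {A : Set ℕ} (h : PrefixSpectrum q r A) : VocSpectrum q r ar false A := by
  obtain ⟨L, hL, hf, ψ, hψ, rfl⟩ := h
  have h1 := vocSpectrum_of_ex (mon := false) (ar := ar) (by simp) (ex_red hL hψ) q
  convert h1 using 1
  ext N
  refine and_congr_right (fun hN => ?_)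
  constructor
  · rintro ⟨M, T, hM, hc, hr⟩
    have hne : Nonempty M := by
      rw [← Fintype.card_pos_iff]
      omega
    obtain ⟨x0⟩ := hne
    refine ⟨M, hM, mkV (fun _ _ => x0) (fun l ρ a => T.RelMap ρ a), hc, ?_⟩
    have e : red hL (mkV (ar := ar) (fun _ _ => x0) (fun l ρ a => T.RelMap (n := l) ρ a)) = T := by
      ext l f a
      · exact (hL l).elim f
      · exact Iff.rfl
    rw [e]
    exact (realize_quantify q r ψ).1 hr
  · rintro ⟨M, hM, S, hc, hP⟩
    refine ⟨M, red hL S, hM, hc, ?_⟩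
    let _ := red hL S
    exact (realize_quantify q r ψ).2 hP

/-! #### One unary function, one binary relation, two universal quantifiers -/

/-- one binary relation symbol -/
def R2 : ℕ → Type
  | 2 => Unit
  | _ => Empty

instance : Finite (Σ l, R2 l) := by
  refine Finite.of_injective (β := Unit) (fun _ => ()) ?_
  rintro ⟨l, ρ⟩ ⟨l', ρ'⟩ _
  match l, ρ, l', ρ' with
  | 2, _, 2, _ => rfl
  | 0, ρ, _, _ => exact (ρ : Empty).elim
  | 1, ρ, _, _ => exact (ρ : Empty).elim
  | _ + 3, ρ, _, _ => exact (ρ : Empty).elim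
  | 2, _, 0, ρ => exact (ρ : Empty).elim
  | 2, _, 1, ρ => exact (ρ : Empty).elim
  | 2, _, _ + 3, ρ => exact (ρ : Empty).elim

/-- the binary relation of a structure -/
def e2 {M : Type} (S : (voc ar R2).Structure M) (x y : M) : Prop := rl S (l := 2) () ![x, y]

lemma op_e2 {n : ℕ} : Op2 (voc ar R2) n (fun _ S _ => e2 S) := by
  intro t t' ht ht'
  have h := Ex.rl (ar := ar) (Rel := R2) (l := 2) (n := n) (() : R2 2)
    (t := ![t, t']) (fun j => by fin_cases j; exacts [ht, ht'])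
  refine h.congr (fun M S v => ?_)
  unfold e2
  refine Iff.of_eq (congrArg _ ?_)
  funext j
  fin_cases j <;> rfl

/-- the diagonal of a function -/
def dia {Rel : ℕ → Type} {M : Type} (S : (voc ar Rel).Structure M) (i : Fin k) (x : M) : M :=
  fn S i (fun _ => x)

lemma op_dia {Rel : ℕ → Type} {n : ℕ} (i : Fin k) :
    Op1 (voc ar Rel) n (fun _ S _ => dia S i) :=
  fun _ ht => Tm.fn i (fun _ => ht)

theorem voc_sz1_rel (hq : HasAA q r) (hi : ∃ i, 1 ≤ ar i) {t : ℕ} (W : Wang (Fin t)) :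
    VocSpectrum q r ar false (sz1 W) := by
  obtain ⟨i, hi⟩ := hi
  refine hq.sub ?_
  have hd : Op1 (voc ar R2) 2 (fun _ S _ => dia S i) := op_dia i
  have hE : Op2 (voc ar R2) 2 (fun _ S _ => e2 S) := op_e2
  have h0 := Tm.var (L := voc ar R2) (n := 2) 0
  have h1 := Tm.var (L := voc ar R2) (n := 2) 1
  have h2 := (hE _ _ h0 h0).not.and ((Ex.eq (hd _ h0) h0).not.and (ex_w1 W hd hE h0 h1))
  have h3 := vocSpectrum_of_ex (mon := false) (by simp) h2 (fun _ => true)
  convert h3 using 1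
  ext N
  refine and_congr_right (fun hN => ?_)
  constructor
  · rintro ⟨M, hM, d, E, hc, h4, h5, h6⟩
    have hne : Nonempty M := by
      rw [← Fintype.card_pos_iff]
      omega
    obtain ⟨x0⟩ := hne
    let S : (voc ar R2).Structure M := mkV
      (fun i' a => if h : 1 ≤ ar i' then d (a ⟨0, h⟩) else x0)
      (fun l _ a => if h : l = 2 then E (a ⟨0, by omega⟩) (a ⟨1, by omega⟩) else False)
    have e1 : dia S i = d := by
      funext x
      show (if h : 1 ≤ ar i then d x else x0) = d x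
      rw [dif_pos hi]
    have e3 : e2 S = E := by
      funext x y
      show (if h : (2 : ℕ) = 2 then E (![x, y] ⟨0, by omega⟩) (![x, y] ⟨1, by omega⟩) else False) = _
      rw [dif_pos rfl]
      rfl
    refine ⟨M, hM, S, hc, ?_⟩
    rw [preQ_AA rfl rfl]
    intro u v
    show ¬ e2 S u u ∧ ¬ dia S i u = u ∧ W1Ax W (dia S i) (e2 S) u v
    rw [e1, e3]
    exact ⟨h4 u, h5 u, h6 u v⟩
  · rintro ⟨M, hM, S, hc, h4⟩
    rw [preQ_AA rfl rfl] at h4
    exact ⟨M, hM, dia S i, e2 S, hc, fun u => (h4 u u).1, fun u => (h4 u u).2.1,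
      fun u v => (h4 u v).2.2⟩

/-! #### The other vocabularies -/

/-- no relation symbols -/
def R0 : ℕ → Type := fun _ => Empty

instance : Finite (Σ l, R0 l) := by
  have : IsEmpty (Σ l, R0 l) := ⟨fun x => Empty.elim x.2⟩
  infer_instance

lemma isEmpty_R0 (l : ℕ) : IsEmpty (R0 l) := inferInstanceAs (IsEmpty Empty)

/-- the operation `x ↦ G (z, x, …, x)` -/
def sha {Rel : ℕ → Type} {M : Type} (S : (voc ar Rel).Structure M) (i : Fin k) (z x : M) : M :=
  fn S i (fun j => if j.1 = 0 then z else x)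

lemma tm_sha {Rel : ℕ → Type} {n : ℕ} (i : Fin k)
    {z t : (M : Type) → (voc ar Rel).Structure M → (Fin n → M) → M} (hz : Tm (voc ar Rel) n z)
    (ht : Tm (voc ar Rel) n t) : Tm (voc ar Rel) n (fun M S v => sha S i (z M S v) (t M S v)) := by
  have h := Tm.fn (ar := ar) (Rel := Rel) (n := n) i
    (t := fun j => if j.1 = 0 then z else t) (fun j => by split_ifs; exacts [hz, ht])
  refine h.congr (fun M S v => ?_)
  unfold sha
  congr 1
  funext j
  split_ifs <;> rfl

theorem voc_sz1_fun (hq : HasAA q r) (hi : ∃ i, 2 ≤ ar i) (mon : Bool) {t : ℕ}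
    (W : Wang (Fin t)) : VocSpectrum q r ar mon (sz1 W) := by
  obtain ⟨i, hi⟩ := hi
  refine hq.sub ?_
  have hd : Op1 (voc ar R0) 2 (fun _ S _ => dia S i) := op_dia i
  have hE : Op2 (voc ar R0) 2 (fun _ S _ x y => sha S i x y = x) :=
    fun _ _ ht ht' => Ex.eq (tm_sha i ht ht') ht
  have h0 := Tm.var (L := voc ar R0) (n := 2) 0
  have h1 := Tm.var (L := voc ar R0) (n := 2) 1
  have h2 := (hE _ _ h0 h0).not.and ((Ex.eq (hd _ h0) h0).not.and (ex_w1 W hd hE h0 h1))
  have h3 := vocSpectrum_of_ex (mon := mon) (fun _ l _ => isEmpty_R0 l) h2 (fun _ => true)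
  convert h3 using 1
  ext N
  refine and_congr_right (fun hN => ?_)
  constructor
  · rintro ⟨M, hM, d, E, hc, h4, h5, h6⟩
    classical
    have hne : Nonempty M := by
      rw [← Fintype.card_pos_iff]
      omega
    obtain ⟨x0⟩ := hne
    let S : (voc ar R0).Structure M := mkV
      (fun i' a => if h : 2 ≤ ar i' then
        (if a ⟨0, by omega⟩ = a ⟨1, by omega⟩ then d (a ⟨0, by omega⟩) else
          if E (a ⟨0, by omega⟩) (a ⟨1, by omega⟩) then a ⟨0, by omega⟩ else a ⟨1, by omega⟩) else x0)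
      (fun l ρ _ => (isEmpty_R0 l).elim ρ)
    have e1 : dia S i = d := by
      funext x
      show (if h : 2 ≤ ar i then (if x = x then d x else if E x x then x else x) else x0) = d x
      rw [dif_pos hi, if_pos rfl]
    have e3 : (fun x y => sha S i x y = x) = E := by
      funext x y
      have e4 : sha S i x y = if x = y then d x else if E x y then x else y := by
        show (if h : 2 ≤ ar i then (if (if (0 : ℕ) = 0 then x else y) =
          (if (1 : ℕ) = 0 then x else y) then d (if (0 : ℕ) = 0 then x else y) else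
          if E (if (0 : ℕ) = 0 then x else y) (if (1 : ℕ) = 0 then x else y) then
            (if (0 : ℕ) = 0 then x else y) else (if (1 : ℕ) = 0 then x else y)) else x0) = _
        rw [dif_pos hi]
        simp
      rw [e4]
      by_cases hxy : x = y
      · subst hxy
        rw [if_pos rfl]
        exact propext ⟨fun h => absurd h (h5 x), fun h => absurd h (h4 x)⟩
      · rw [if_neg hxy]
        by_cases hE' : E x y
        · rw [if_pos hE']
          exact propext ⟨fun _ => hE', fun _ => rfl⟩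
        · rw [if_neg hE']
          exact propext ⟨fun h => absurd h.symm hxy, fun h => absurd h hE'⟩
    refine ⟨M, hM, S, hc, ?_⟩
    rw [preQ_AA rfl rfl]
    intro u v
    show ¬ (fun x y => sha S i x y = x) u u ∧ ¬ dia S i u = u ∧
      W1Ax W (dia S i) (fun x y => sha S i x y = x) u v
    rw [e1, e3]
    exact ⟨h4 u, h5 u, h6 u v⟩
  · rintro ⟨M, hM, S, hc, h4⟩
    rw [preQ_AA rfl rfl] at h4
    exact ⟨M, hM, dia S i, fun x y => sha S i x y = x, hc, fun u => (h4 u u).1,
      fun u => (h4 u u).2.1, fun u v => (h4 u v).2.2⟩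

/-- the operations `OF z`, `OG z` are given by terms, and all pairs of functions which agree on `z`
are of this form -/
structure Scheme (ar : Fin k → ℕ)
    (OF OG : (M : Type) → (voc ar R0).Structure M → M → M → M) : Prop where
  tmF : ∀ (n : ℕ) (z t : (M : Type) → (voc ar R0).Structure M → (Fin n → M) → M),
    Tm (voc ar R0) n z → Tm (voc ar R0) n t →
    Tm (voc ar R0) n (fun M S v => OF M S (z M S v) (t M S v))
  tmG : ∀ (n : ℕ) (z t : (M : Type) → (voc ar R0).Structure M → (Fin n → M) → M),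
    Tm (voc ar R0) n z → Tm (voc ar R0) n t →
    Tm (voc ar R0) n (fun M S v => OG M S (z M S v) (t M S v))
  real : ∀ (M : Type) (f g : M → M) (z : M), f z = g z → ∃ S : (voc ar R0).Structure M,
    (∀ (c : Fin k), ar c = 0 → ∀ a, fn S c a = z) ∧ (∀ x, OF M S z x = f x) ∧
    ∀ x, OG M S z x = g x

lemma scheme_two {i j : Fin k} (hij : i ≠ j) (hi : 1 ≤ ar i) (hj : 1 ≤ ar j) :
    Scheme ar (fun _ S _ => dia S i) (fun _ S _ => dia S j) where
  tmF := fun _ _ _ _ ht => op_dia i _ ht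
  tmG := fun _ _ _ _ ht => op_dia j _ ht
  real := by
    intro M f g z _
    refine ⟨mkV (fun i' a => if h : 1 ≤ ar i' then (if i' = i then f (a ⟨0, h⟩) else
      g (a ⟨0, h⟩)) else z) (fun l ρ _ => (isEmpty_R0 l).elim ρ), ?_, ?_, ?_⟩
    · intro c hc a
      rw [fn_mkV, dif_neg (by omega)]
    · intro x
      unfold dia
      rw [fn_mkV, dif_pos hi, if_pos rfl]
    · intro x
      unfold dia
      rw [fn_mkV, dif_pos hj, if_neg (Ne.symm hij)]

lemma scheme_one {i : Fin k} (hi : 2 ≤ ar i) :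
    Scheme ar (fun _ S z => sha S i z) (fun _ S _ => dia S i) where
  tmF := fun _ _ _ hz ht => tm_sha i hz ht
  tmG := fun _ _ _ _ ht => op_dia i _ ht
  real := by
    classical
    intro M f g z hz
    refine ⟨mkV (fun i' a => if h : 2 ≤ ar i' then (if a ⟨0, by omega⟩ = z then
      f (a ⟨1, by omega⟩) else g (a ⟨1, by omega⟩)) else z)
      (fun l ρ _ => (isEmpty_R0 l).elim ρ), ?_, ?_, ?_⟩
    · intro c hc a
      rw [fn_mkV, dif_neg (by omega)]
    · intro x
      unfold sha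
      rw [fn_mkV, dif_pos hi]
      simp
    · intro x
      unfold dia
      rw [fn_mkV, dif_pos hi]
      by_cases hx : x = z
      · rw [if_pos hx, hx, hz]
      · rw [if_neg hx]

theorem Scheme.ea {OF OG : (M : Type) → (voc ar R0).Structure M → M → M → M}
    (h : Scheme ar OF OG) (hq : HasEA q r) (mon : Bool) {t : ℕ} (W : Wang (Fin t)) :
    VocSpectrum q r ar mon (sz2 W) := by
  refine hq.sub ?_
  have h0 := Tm.var (L := voc ar R0) (n := 2) 0
  have h1 := Tm.var (L := voc ar R0) (n := 2) 1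
  have h2 := (Ex.eq (h.tmF 2 _ _ h0 h0) (h.tmG 2 _ _ h0 h0)).and
    (ex_w2 W (f := fun M S v => OF M S (v 0)) (g := fun M S v => OG M S (v 0))
      (fun _ ht => h.tmF 2 _ _ h0 ht) (fun _ ht => h.tmG 2 _ _ h0 ht) h0 h1)
  have h3 := vocSpectrum_of_ex (mon := mon) (fun _ l _ => isEmpty_R0 l) h2 wEA
  convert h3 using 1
  ext N
  refine and_congr_right (fun hN => ?_)
  constructor
  · rintro ⟨M, hM, f, g, z, hc, hz, h4⟩
    obtain ⟨S, -, hF, hG⟩ := h.real M f g z hz
    refine ⟨M, hM, S, hc, ?_⟩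
    rw [preQ_EA rfl rfl]
    refine ⟨z, fun x => ?_⟩
    show OF M S z z = OG M S z z ∧ W2Ax W (OF M S z) (OG M S z) z x
    have e1 : OF M S z = f := funext hF
    have e2 : OG M S z = g := funext hG
    rw [e1, e2]
    exact ⟨hz, h4 x⟩
  · rintro ⟨M, hM, S, hc, h4⟩
    rw [preQ_EA rfl rfl] at h4
    obtain ⟨z, h4⟩ := h4
    exact ⟨M, hM, OF M S z, OG M S z, z, hc, (h4 z).1, fun x => (h4 x).2⟩

theorem Scheme.ac {OF OG : (M : Type) → (voc ar R0).Structure M → M → M → M}
    (h : Scheme ar OF OG) (hq : HasA q r) (hc : ∃ i, ar i = 0) (mon : Bool) {t : ℕ}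
    (W : Wang (Fin t)) : VocSpectrum q r ar mon (sz2 W) := by
  obtain ⟨c, hc0⟩ := hc
  refine hq.sub ?_
  have h0 := Tm.var (L := voc ar R0) (n := 1) 0
  have hz : Tm (voc ar R0) 1 (fun M S v => fn S c (fun _ => v 0)) := Tm.fn c (fun _ => h0)
  have h2 := (Ex.eq (h.tmF 1 _ _ hz hz) (h.tmG 1 _ _ hz hz)).and
    (ex_w2 W (f := fun M S v => OF M S (fn S c (fun _ => v 0)))
      (g := fun M S v => OG M S (fn S c (fun _ => v 0)))
      (fun _ ht => h.tmF 1 _ _ hz ht) (fun _ ht => h.tmG 1 _ _ hz ht) hz h0)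
  have h3 := vocSpectrum_of_ex (mon := mon) (fun _ l _ => isEmpty_R0 l) h2 (fun _ => true)
  convert h3 using 1
  ext N
  refine and_congr_right (fun hN => ?_)
  constructor
  · rintro ⟨M, hM, f, g, z, hc, hz, h4⟩
    obtain ⟨S, hcS, hF, hG⟩ := h.real M f g z hz
    refine ⟨M, hM, S, hc, ?_⟩
    rw [preQ_A rfl]
    intro x
    show OF M S (fn S c (fun _ => x)) (fn S c (fun _ => x)) =
      OG M S (fn S c (fun _ => x)) (fn S c (fun _ => x)) ∧
      W2Ax W (OF M S (fn S c (fun _ => x))) (OG M S (fn S c (fun _ => x)))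
        (fn S c (fun _ => x)) x
    rw [hcS c hc0]
    have e1 : OF M S z = f := funext hF
    have e2 : OG M S z = g := funext hG
    rw [e1, e2]
    exact ⟨hz, h4 x⟩
  · rintro ⟨M, hM, S, hc, h4⟩
    rw [preQ_A rfl] at h4
    have hne : Nonempty M := by
      rw [← Fintype.card_pos_iff]
      omega
    obtain ⟨x0⟩ := hne
    have e : ∀ x : M, fn S c (fun _ => x) = fn S c (fun _ => x0) := by
      intro x
      congr 1
      funext j
      exact absurd j.2 (by omega)
    have h5 : ∀ x : M, OF M S (fn S c (fun _ => x)) (fn S c (fun _ => x)) =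
      OG M S (fn S c (fun _ => x)) (fn S c (fun _ => x)) ∧
      W2Ax W (OF M S (fn S c (fun _ => x))) (OG M S (fn S c (fun _ => x)))
        (fn S c (fun _ => x)) x := h4
    refine ⟨M, hM, OF M S (fn S c (fun _ => x0)), OG M S (fn S c (fun _ => x0)),
      fn S c (fun _ => x0), hc, (h5 x0).1, fun x => ?_⟩
    have h6 := (h5 x).2
    rw [e x] at h6
    exact h6

theorem voc_sz2_one (hq : HasEA q r ∨ (HasA q r ∧ ∃ i, ar i = 0)) (hi : ∃ i, 2 ≤ ar i)
    (mon : Bool) {t : ℕ} (W : Wang (Fin t)) : VocSpectrum q r ar mon (sz2 W) := by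
  obtain ⟨i, hi⟩ := hi
  rcases hq with hq | ⟨hq, hc⟩
  · exact (scheme_one hi).ea hq mon W
  · exact (scheme_one hi).ac hq hc mon W

theorem voc_sz2_two
    (haa : ∀ {q : ℕ} (W : Wang (Fin q)), sz2 W = {n : ℕ | 1 ≤ n ∧ ∃ (M : Type) (_ : Fintype M)
      (f g : M → M), Fintype.card M = n ∧ ∀ x y, W2AA W f g x y})
    (hq : HasAA q r ∨ HasEA q r ∨ (HasA q r ∧ ∃ i, ar i = 0))
    (hi : ∃ i j, i ≠ j ∧ 1 ≤ ar i ∧ 1 ≤ ar j) (mon : Bool) {t : ℕ} (W : Wang (Fin t)) :
    VocSpectrum q r ar mon (sz2 W) := by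
  obtain ⟨i, j, hij, hi, hj⟩ := hi
  rcases hq with hq | hq | ⟨hq, hc⟩
  · refine hq.sub ?_
    have h0 := Tm.var (L := voc ar R0) (n := 2) 0
    have h1 := Tm.var (L := voc ar R0) (n := 2) 1
    have hf : Op1 (voc ar R0) 2 (fun _ S _ => dia S i) := op_dia i
    have hg : Op1 (voc ar R0) 2 (fun _ S _ => dia S j) := op_dia j
    have h2 := ex_w2AA W hf hg h0 h1
    have h3 := vocSpectrum_of_ex (mon := mon) (fun _ l _ => isEmpty_R0 l) h2 (fun _ => true)
    rw [haa W]
    convert h3 using 1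
    ext N
    refine and_congr_right (fun hN => ?_)
    constructor
    · rintro ⟨M, hM, f, g, hc, h4⟩
      have hne : Nonempty M := by
        rw [← Fintype.card_pos_iff]
        omega
      obtain ⟨x0⟩ := hne
      refine ⟨M, hM, mkV (fun i' a => if h : 1 ≤ ar i' then (if i' = i then f (a ⟨0, h⟩) else
        g (a ⟨0, h⟩)) else x0) (fun l ρ _ => (isEmpty_R0 l).elim ρ), hc, ?_⟩
      rw [preQ_AA rfl rfl]
      intro u v
      have e1 : dia (mkV (ar := ar) (Rel := R0) (fun i' a => if h : 1 ≤ ar i' then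
          (if i' = i then f (a ⟨0, h⟩) else g (a ⟨0, h⟩)) else x0)
          (fun l ρ _ => (isEmpty_R0 l).elim ρ)) i = f := by
        funext x
        unfold dia
        rw [fn_mkV, dif_pos hi, if_pos rfl]
      have e2 : dia (mkV (ar := ar) (Rel := R0) (fun i' a => if h : 1 ≤ ar i' then
          (if i' = i then f (a ⟨0, h⟩) else g (a ⟨0, h⟩)) else x0)
          (fun l ρ _ => (isEmpty_R0 l).elim ρ)) j = g := by
        funext x
        unfold dia
        rw [fn_mkV, dif_pos hj, if_neg (Ne.symm hij)]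
      rw [e1, e2]
      exact h4 u v
    · rintro ⟨M, hM, S, hc, h4⟩
      rw [preQ_AA rfl rfl] at h4
      exact ⟨M, hM, dia S i, dia S j, hc, fun u v => h4 u v⟩
  · exact (scheme_two hij hi hj).ea hq mon W
  · exact (scheme_two hij hi hj).ac hq hc mon W

end Voc

end Pool.Agent.Helper20.PV
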