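import Pool.Agent.Helper20.PV.WL

/-!
# The wild classes are universal
-/

set_option autoImplicit false

namespace Pool.Agent.Helper20.PV

open FirstOrder FirstOrder.Language Pool.Agent.Helper20.Spectra Pool.Agent.Helper20.OP
  Pool.Agent.Helper29.Prefix

/-- renaming of the tiles -/
def tr {Γ Γ' : Type} (W : Wang Γ) (e : Γ' ≃ Γ) : Wang Γ' where
  R := fun a b => W.R (e a) (e b)
  U := fun a b => W.U (e a) (e b)
  l := fun a => W.l (e a)
  r := fun a => W.r (e a)
  b := fun a => W.b (e a)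
  t := fun a => W.t (e a)
  c := fun a => W.c (e a)

lemma tiles_tr {Γ Γ' : Type} (W : Wang Γ) (e : Γ' ≃ Γ) (N : ℕ) : Tiles (tr W e) N ↔ Tiles W N := by
  constructor
  · rintro ⟨f, h⟩
    exact ⟨fun x y => e (f x y), h⟩
  · rintro ⟨f, h1, h2, h3, h4, h5, h6, h7⟩
    refine ⟨fun x y => e.symm (f x y), ?_, ?_, ?_, ?_, ?_, ?_, ?_⟩
    · intro x y hx hy
      show W.R (e (e.symm _)) (e (e.symm _))
      rw [e.apply_symm_apply, e.apply_symm_apply]
      exact h1 x y hx hy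
    · intro x y hx hy
      show W.U (e (e.symm _)) (e (e.symm _))
      rw [e.apply_symm_apply, e.apply_symm_apply]
      exact h2 x y hx hy
    · intro y hy
      show W.l (e (e.symm _))
      rw [e.apply_symm_apply]
      exact h3 y hy
    · intro y hy
      show W.r (e (e.symm _))
      rw [e.apply_symm_apply]
      exact h4 y hy
    · intro x hx
      show W.b (e (e.symm _))
      rw [e.apply_symm_apply]
      exact h5 x hx
    · intro x hx
      show W.t (e (e.symm _))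
      rw [e.apply_symm_apply]
      exact h6 x hx
    · show W.c (e (e.symm _))
      rw [e.apply_symm_apply]
      exact h7

/-- universality from the tiling systems with tiles `0, …, q - 1` -/
lemma univ_of_tiles {C : Set ℕ → Prop}
    (h : ∀ (q : ℕ) (W : Wang (Fin q)), ∃ (p : Polynomial ℕ) (A : Set ℕ), C A ∧
      ∀ N, 1 ≤ N → (Tiles W N ↔ p.eval N ∈ A)) : Univ C := by
  intro Θ
  have e : Fin (Fintype.card {θ : ℕ × ℕ × ℕ × ℕ // θ ∈ Θ}) ≃ {θ : ℕ × ℕ × ℕ × ℕ // θ ∈ Θ} :=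
    (Fintype.equivFin _).symm
  obtain ⟨p, A, hA, hp⟩ := h _ (tr (blockWang Θ) e)
  refine ⟨p, A, hA, fun N hN => ?_⟩
  rw [mem_squareSizes_iff Θ hN, ← tiles_tr (blockWang Θ) e N]
  exact hp N hN

lemma univ_of_sz1 (hw1 : ∀ {q : ℕ} (W : Wang (Fin q)) {N : ℕ}, 1 ≤ N →
      (Tiles W N ↔ (q + 4) * N ∈ sz1 W))
    {C : Set ℕ → Prop} (h : ∀ {q : ℕ} (W : Wang (Fin q)), C (sz1 W)) : Univ C := by
  refine univ_of_tiles (fun q W => ⟨Polynomial.C (q + 4) * Polynomial.X, sz1 W, h W,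
    fun N hN => ?_⟩)
  rw [hw1 W hN]
  simp

lemma univ_of_sz2 (hw2 : ∀ {q : ℕ} (W : Wang (Fin q)) {N : ℕ}, 1 ≤ N →
      (Tiles W N ↔ (q + 11) * N ^ 2 ∈ sz2 W))
    {C : Set ℕ → Prop} (h : ∀ {q : ℕ} (W : Wang (Fin q)), C (sz2 W)) : Univ C := by
  refine univ_of_tiles (fun q W => ⟨Polynomial.C (q + 11) * Polynomial.X ^ 2, sz2 W, h W,
    fun N hN => ?_⟩)
  rw [hw2 W hN]
  simp

theorem univ_prefix {q : ℕ → Bool} {r k : ℕ} (ar : Fin k → ℕ) (h : HasAAE q r) :
    Univ (fun A => VocSpectrum q r ar false A) := by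
  have key : ∀ {w : ℕ → Bool} (_ : UniversalPrefix w) (e : Fin 3 → Fin r) (_ : StrictMono e)
      (_ : ∀ i : Fin 3, w i = q (e i)), Univ (fun A => VocSpectrum q r ar false A) := by
    intro w hw e he hq Θ
    obtain ⟨p, U, hU, hp⟩ := hw Θ
    exact ⟨p, U, voc_of_prefix (hU.sub e he hq), hp⟩
  obtain ⟨i, j, k, hij, hjk, hk, hi, hne⟩ := h
  let e : Fin 3 → Fin r := ![⟨i, by omega⟩, ⟨j, by omega⟩, ⟨k, hk⟩]
  have he : StrictMono e := by
    intro a b hab
    fin_cases a <;> fin_cases b <;> simp [e, Fin.lt_def] at hab ⊢ <;> omega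
  by_cases hj : q j = true
  · have hk' : q k = false := by
      cases hqk : q k
      · rfl
      · exact absurd (hj.trans hqk.symm) hne
    refine key Helper29.Prefix.aae_universal e he (fun a => ?_)
    fin_cases a
    · exact hi.symm
    · exact hj.symm
    · exact hk'.symm
  · have hj' : q j = false := by simpa using hj
    have hk' : q k = true := by
      cases hqk : q k
      · exact absurd (hj'.trans hqk.symm) hne
      · rfl
    refine key (w := wAEA)
      (fun Θ => aea_universal Θ (by decide) (by decide) (by decide)) e he (fun a => ?_)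
    fin_cases a
    · exact hi.symm
    · exact hj'.symm
    · exact hk'.symm

theorem univ_wild
    (hw1 : ∀ {q : ℕ} (W : Wang (Fin q)) {N : ℕ}, 1 ≤ N → (Tiles W N ↔ (q + 4) * N ∈ sz1 W))
    (hw2 : ∀ {q : ℕ} (W : Wang (Fin q)) {N : ℕ}, 1 ≤ N →
      (Tiles W N ↔ (q + 11) * N ^ 2 ∈ sz2 W))
    (haa : ∀ {q : ℕ} (W : Wang (Fin q)), sz2 W = {n : ℕ | 1 ≤ n ∧ ∃ (M : Type) (_ : Fintype M)
      (f g : M → M), Fintype.card M = n ∧ ∀ x y, W2AA W f g x y})
    {q : ℕ → Bool} {r k : ℕ} {ar : Fin k → ℕ} {mon : Bool} (h : WildClass q r ar mon) :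
    Univ (fun A => VocSpectrum q r ar mon A) := by
  rcases h with ⟨rfl, h⟩ | ⟨rfl, h, hi⟩ | ⟨hB, hq⟩
  · exact univ_prefix ar h
  · exact univ_of_sz1 hw1 (fun W => voc_sz1_rel h hi W)
  · rcases hB with hB | hB
    · rcases hq with hq | ⟨hq, hq' | hc⟩
      · exact univ_of_sz1 hw1 (fun W => voc_sz1_fun hq hB mon W)
      · exact univ_of_sz2 hw2 (fun W => voc_sz2_one (Or.inl hq') hB mon W)
      · exact univ_of_sz2 hw2 (fun W => voc_sz2_one (Or.inr ⟨hq, hc⟩) hB mon W)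
    · refine univ_of_sz2 hw2 (fun W => voc_sz2_two haa ?_ hB mon W)
      rcases hq with hq | ⟨hq, hq' | hc⟩
      · exact Or.inl hq
      · exact Or.inr (Or.inl hq')
      · exact Or.inr (Or.inr ⟨hq, hc⟩)

end Pool.Agent.Helper20.PV
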